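import Pool.Agent.TD25.Defs

/-! # TD25, second version: vertices of degree at least 11, separators of degree at most 6 -/

set_option autoImplicit false

namespace Pool.Agent.TD25

open Finset

variable {V : Type*} [Fintype V]

/-- `u` and `v` lie in the same component of the tree minus `w` (for `u, v ≠ w`). -/
def SameC (R : Rt V) (w u v : V) : Prop :=
  (¬ R.D w u ∧ ¬ R.D w v) ∨ ∃ y, y ≠ R.r ∧ R.par y = w ∧ R.D y u ∧ R.D y v

/-- `w` has degree at most 6 and all vertices of degree at least 11 below `w` are below the same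
child of `w`. -/
def Good (R : Rt V) (w : V) : Prop :=
  (nb R w).card ≤ 6 ∧ ∀ z z', 11 ≤ (nb R z).card → 11 ≤ (nb R z').card → R.D w z → R.D w z' →
    ∃ y, y ≠ R.r ∧ R.par y = w ∧ R.D y z ∧ R.D y z'

end Pool.Agent.TD25
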