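import Pool.Agent.TD25.Bridge
import Pool.Agent.TD25.Defs2

/-! # TD25, module Bridge2: `SameC` against walks -/

set_option autoImplicit false

namespace Pool.Agent.TD25

open Finset

variable {V : Type*} [Fintype V]

omit [Fintype V] in
theorem sameC_symm {R : Rt V} {w u v : V} (h : SameC R w u v) : SameC R w v u := by
  rcases h with ⟨h1, h2⟩ | ⟨y, h1, h2, h3, h4⟩
  · exact Or.inl ⟨h2, h1⟩
  · exact Or.inr ⟨y, h1, h2, h4, h3⟩

omit [Fintype V] in
theorem sameC_trans {R : Rt V} {w a b c : V} (h : SameC R w a b) (h' : SameC R w b c) :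
    SameC R w a c := by
  rcases h with ⟨h1, h2⟩ | ⟨y, h1, h2, h3, h4⟩
  · rcases h' with ⟨h1', h2'⟩ | ⟨y', h1', h2', h3', h4'⟩
    · exact Or.inl ⟨h1, h2'⟩
    · exact absurd (R.D_trans (by rw [← h2']; exact R.D_par y') h3') h2
  · rcases h' with ⟨h1', h2'⟩ | ⟨y', h1', h2', h3', h4'⟩
    · exact absurd (R.D_trans (by rw [← h2]; exact R.D_par y) h4) h1'
    · have h5 := R.dep_par y h1
      have h6 := R.dep_par y' h1'
      rw [h2] at h5
      rw [h2'] at h6
      have h7 : y = y' := R.D_eq_of_dep h4 h3' (by omega)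
      subst h7
      exact Or.inr ⟨y, h1, h2, h3, h4'⟩

omit [Fintype V] in
theorem sameC_refl {R : Rt V} {w u : V} (hu : u ≠ w) : SameC R w u u := by
  by_cases h : R.D w u
  · obtain ⟨y, h1, h2, h3⟩ := R.exists_child h hu
    exact Or.inr ⟨y, h1, h2, h3, h3⟩
  · exact Or.inl ⟨h, h⟩

omit [Fintype V] in
theorem sameC_of_adj {R : Rt V} {w u v : V} (hu : u ≠ w) (hv : v ≠ w) (h : R.Adj u v) :
    SameC R w u v := by
  have key : ∀ u v : V, u ≠ w → v ≠ w → R.par u = v → SameC R w u v := by
    intro u v hu hv hp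
    by_cases h : R.D w u
    · rcases R.D_step h with h1 | h1
      · exact absurd h1.symm hu
      · rw [hp] at h1
        obtain ⟨y, g1, g2, g3⟩ := R.exists_child h1 hv
        refine Or.inr ⟨y, g1, g2, R.D_trans g3 ?_, g3⟩
        rw [← hp]
        exact R.D_par u
    · refine Or.inl ⟨h, fun h1 => h (R.D_trans h1 ?_)⟩
      rw [← hp]
      exact R.D_par u
  rcases h with ⟨_, h2⟩ | ⟨_, h2⟩
  · exact key u v hu hv h2
  · exact sameC_symm (key v u hv hu h2)

omit [Fintype V] in
/-- Two vertices in the same component minus `w` are joined by a walk avoiding `w`. -/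
theorem walk_of_sameC (T : SimpleGraph V) (R : Rt V) (hR : ∀ x y, T.Adj x y ↔ R.Adj x y)
    {w u v : V} (h : SameC R w u v) : ∃ q : T.Walk u v, w ∉ q.support := by
  rcases h with ⟨h1, h2⟩ | ⟨y, h1, h2, ⟨k, hk⟩, ⟨l, hl⟩⟩
  · obtain ⟨k, hk⟩ := R.root_D u
    obtain ⟨k', hk'⟩ := R.root_D v
    obtain ⟨q1, hq1⟩ := walk_up T R hR k u R.r hk
    obtain ⟨q2, hq2⟩ := walk_up T R hR k' v R.r hk'
    refine ⟨q1.append q2.reverse, fun h7 => ?_⟩
    rw [SimpleGraph.Walk.mem_support_append_iff, SimpleGraph.Walk.support_reverse,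
      List.mem_reverse] at h7
    rcases h7 with h7 | h7
    · exact h1 (hq1 w h7).1
    · exact h2 (hq2 w h7).1
  · obtain ⟨q1, hq1⟩ := walk_up T R hR k u y hk
    obtain ⟨q2, hq2⟩ := walk_up T R hR l v y hl
    refine ⟨q1.append q2.reverse, fun h7 => ?_⟩
    rw [SimpleGraph.Walk.mem_support_append_iff, SimpleGraph.Walk.support_reverse,
      List.mem_reverse] at h7
    have h8 : R.D y w := by
      rcases h7 with h7 | h7
      · exact (hq1 w h7).2
      · exact (hq2 w h7).2
    have h9 := R.D_dep h8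
    have h10 := R.dep_par y h1
    rw [h2] at h10
    omega

omit [Fintype V] in
/-- The ends of a walk avoiding `w` are in the same component minus `w`. -/
theorem sameC_of_walk (T : SimpleGraph V) (R : Rt V) (hR : ∀ x y, T.Adj x y ↔ R.Adj x y)
    {w u v : V} (q : T.Walk u v) (h : w ∉ q.support) : SameC R w u v := by
  induction q with
  | nil =>
    refine sameC_refl ?_
    rintro rfl
    exact h (by simp)
  | @cons a b c hab q ih =>
    rw [SimpleGraph.Walk.support_cons, List.mem_cons, not_or] at h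
    refine sameC_trans (sameC_of_adj (Ne.symm h.1) ?_ ((hR _ _).1 hab)) (ih h.2)
    rintro rfl
    exact h.2 q.start_mem_support

end Pool.Agent.TD25
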