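import Pool.Agent.TD25.Mst

/-! # TD25, module Bridge: from `SimpleGraph` trees to parent pointers -/

set_option autoImplicit false

namespace Pool.Agent.TD25

open Finset

variable {V : Type*} [Fintype V] [DecidableEq V]

/-- Every tree has parent pointers (distances from `r`; the edges are the pairs `(v, par v)` by
counting, `SimpleGraph.IsTree.card_edgeFinset`). -/
theorem exists_rt (T : SimpleGraph V) (hT : T.IsTree) (r : V) :
    ∃ R : Rt V, R.r = r ∧ ∀ x y, T.Adj x y ↔ R.Adj x y := by
  classical
  obtain ⟨f, hf⟩ := exists_par' r T hT.connected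
  have hfr : ∀ v, v ≠ r → (fun v => if v = r then r else f v) v = f v := fun v hv => if_neg hv
  let R : Rt V :=
    { r := r
      par := fun v => if v = r then r else f v
      dep := fun v => T.dist v r
      par_r := by simp
      dep_r := by simp
      dep_par := fun v hv => by
        have h := (hf v hv).2
        simp only [if_neg hv]
        exact h }
  have hRr : R.r = r := rfl
  have hpar : ∀ v, v ≠ r → R.par v = f v := fun v hv => if_neg hv
  have hadj : ∀ v, v ≠ r → T.Adj v (R.par v) := fun v hv => by
    rw [hpar v hv]; exact (hf v hv).1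
  have hsub : (univ.erase r).image (fun v => s(v, R.par v)) ⊆ T.edgeFinset := by
    intro e he
    obtain ⟨v, hv, rfl⟩ := mem_image.1 he
    rw [SimpleGraph.mem_edgeFinset, SimpleGraph.mem_edgeSet]
    exact hadj v (ne_of_mem_erase hv)
  have hcard : ((univ.erase r).image (fun v => s(v, R.par v))).card = Fintype.card V - 1 := by
    rw [card_image_of_injOn, card_erase_of_mem (mem_univ _), card_univ]
    intro v hv w hw h
    have hv' : v ≠ R.r := by simpa using hv
    have hw' : w ≠ R.r := by simpa using hw
    simp only [Sym2.eq, Sym2.rel_iff', Prod.mk.injEq, Prod.swap_prod_mk] at h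
    rcases h with ⟨h1, _⟩ | ⟨h1, h2⟩
    · exact h1
    · exfalso
      have h3 := R.dep_par v hv'
      have h4 := R.dep_par w hw'
      rw [← h1] at h4
      rw [h2] at h3
      omega
  have heq := eq_of_subset_of_card_le hsub (by
    rw [hcard]
    have := hT.card_edgeFinset
    omega)
  refine ⟨R, rfl, fun x y => ⟨fun h => ?_, fun h => ?_⟩⟩
  · have h1 : s(x, y) ∈ T.edgeFinset := by
      rw [SimpleGraph.mem_edgeFinset, SimpleGraph.mem_edgeSet]; exact h
    rw [← heq] at h1
    obtain ⟨v, hv, hv2⟩ := mem_image.1 h1
    have hv' : v ≠ R.r := by simpa using hv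
    simp only [Sym2.eq, Sym2.rel_iff', Prod.mk.injEq, Prod.swap_prod_mk] at hv2
    rcases hv2 with ⟨h2, h3⟩ | ⟨h2, h3⟩
    · left; exact ⟨h2 ▸ hv', by rw [← h2]; exact h3⟩
    · right; exact ⟨h2 ▸ hv', by rw [← h2]; exact h3⟩
  · rcases h with ⟨h1, h2⟩ | ⟨h1, h2⟩
    · rw [← h2]; exact hadj x h1
    · rw [← h2]; exact (hadj y h1).symm

open Classical in
/-- The total length of the tree is the sum over the vertices other than the root. -/
theorem sum_tree (T : SimpleGraph V) (R : Rt V) (hR : ∀ x y, T.Adj x y ↔ R.Adj x y)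
    (p : V → E3) :
    ∑ e ∈ T.edgeFinset, len p e = ∑ v ∈ univ.erase R.r, ‖p v - p (R.par v)‖ := by
  have heq : T.edgeFinset = (univ.erase R.r).image (fun v => s(v, R.par v)) := by
    ext e
    induction e using Sym2.ind with
    | _ x y =>
      rw [SimpleGraph.mem_edgeFinset, SimpleGraph.mem_edgeSet, hR, mem_image]
      constructor
      · rintro (⟨h1, h2⟩ | ⟨h1, h2⟩)
        · exact ⟨x, by simp [h1], by rw [h2]⟩
        · exact ⟨y, by simp [h1], by rw [h2, Sym2.eq_swap]⟩
      · rintro ⟨v, hv, hv2⟩
        have hv' : v ≠ R.r := by simpa using hv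
        simp only [Sym2.eq, Sym2.rel_iff', Prod.mk.injEq, Prod.swap_prod_mk] at hv2
        rcases hv2 with ⟨h2, h3⟩ | ⟨h2, h3⟩
        · left; exact ⟨h2 ▸ hv', by rw [← h2]; exact h3⟩
        · right; exact ⟨h2 ▸ hv', by rw [← h2]; exact h3⟩
  rw [heq, sum_image]
  · exact sum_congr rfl fun v _ => len_mk p v (R.par v)
  · intro v hv w hw h
    have hv' : v ≠ R.r := by simpa using hv
    have hw' : w ≠ R.r := by simpa using hw
    simp only [Sym2.eq, Sym2.rel_iff', Prod.mk.injEq, Prod.swap_prod_mk] at h
    rcases h with ⟨h1, _⟩ | ⟨h1, h2⟩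
    · exact h1
    · exfalso
      have h3 := R.dep_par v hv'
      have h4 := R.dep_par w hw'
      rw [← h1] at h4
      rw [h2] at h3
      omega

omit [Fintype V] [DecidableEq V] in
/-- The walk up to an ancestor. -/
theorem walk_up (T : SimpleGraph V) (R : Rt V) (hR : ∀ x y, T.Adj x y ↔ R.Adj x y) :
    ∀ (k : ℕ) (u a : V), R.par^[k] u = a →
      ∃ q : T.Walk u a, ∀ z ∈ q.support, R.D z u ∧ R.D a z := by
  intro k
  induction k with
  | zero =>
    intro u a h
    have h' : u = a := h
    subst h'
    refine ⟨SimpleGraph.Walk.nil, fun z hz => ?_⟩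
    rw [SimpleGraph.Walk.support_nil, List.mem_singleton] at hz
    subst hz
    exact ⟨R.D_refl _, R.D_refl _⟩
  | succ k ih =>
    intro u a h
    rw [Function.iterate_succ_apply] at h
    by_cases hu : u = R.r
    · have h1 : R.par u = u := by rw [hu, R.par_r]
      rw [h1] at h
      exact ih u a h
    · obtain ⟨q, hq⟩ := ih _ _ h
      have hadj : T.Adj u (R.par u) := (hR _ _).2 (Or.inl ⟨hu, rfl⟩)
      refine ⟨SimpleGraph.Walk.cons hadj q, fun z hz => ?_⟩
      rw [SimpleGraph.Walk.support_cons, List.mem_cons] at hz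
      rcases hz with rfl | hz
      · refine ⟨R.D_refl _, ⟨k + 1, ?_⟩⟩
        rw [Function.iterate_succ_apply]; exact h
      · exact ⟨R.D_trans (hq z hz).1 (R.D_par u), (hq z hz).2⟩

omit [DecidableEq V] in
/-- Separation in the graph gives separation by descendants: if every walk from `u` to `v`
passes through `w`, `w` has exactly two neighbours, `w ≠ u, v, r`.  (If neither of `u`, `v` is a
descendant of `w`: go up from `u` to `r` and down to `v`.  If both are: they are descendants of
the only child of `w`.) -/
theorem sep_of_walk (T : SimpleGraph V) (R : Rt V) (hR : ∀ x y, T.Adj x y ↔ R.Adj x y)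
    {u v w : V} (hu : w ≠ u) (hv : w ≠ v) (hr : w ≠ R.r) (h2 : (nb R w).card = 2)
    (hw : ∀ q : T.Walk u v, w ∈ q.support) :
    (R.D w u ∧ ¬ R.D w v) ∨ (¬ R.D w u ∧ R.D w v) := by
  classical
  by_cases h3 : R.D w u
  · by_cases h4 : R.D w v
    · exfalso
      obtain ⟨y, hy1, hy2, k, hk⟩ := R.exists_child h3 (Ne.symm hu)
      obtain ⟨y', hy1', hy2', k', hk'⟩ := R.exists_child h4 (Ne.symm hv)
      have hd := R.dep_par y hy1
      have hd' := R.dep_par y' hy1'
      have hdw := R.dep_par w hr
      rw [hy2] at hd
      rw [hy2'] at hd'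
      have hyy : y = y' := by
        by_contra hne
        have hsub : ({y, y', R.par w} : Finset V) ⊆ nb R w := by
          intro z hz
          rw [mem_nb]
          simp only [mem_insert, mem_singleton] at hz
          rcases hz with rfl | rfl | rfl
          · right; exact ⟨hy1, hy2⟩
          · right; exact ⟨hy1', hy2'⟩
          · left; exact ⟨hr, rfl⟩
        have hcard := card_le_card hsub
        have h5 : y ≠ R.par w := by
          intro h; rw [← h] at hdw; omega
        have h6 : y' ≠ R.par w := by
          intro h; rw [← h] at hdw; omega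
        rw [h2, card_insert_of_notMem (by simp [hne, h5]),
          card_insert_of_notMem (by simp [h6]), card_singleton] at hcard
        omega
      subst hyy
      obtain ⟨q1, hq1⟩ := walk_up T R hR k u y hk
      obtain ⟨q2, hq2⟩ := walk_up T R hR k' v y hk'
      have h7 := hw (q1.append q2.reverse)
      rw [SimpleGraph.Walk.mem_support_append_iff, SimpleGraph.Walk.support_reverse,
        List.mem_reverse] at h7
      have h8 : R.D y w := by
        rcases h7 with h7 | h7
        · exact (hq1 w h7).2
        · exact (hq2 w h7).2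
      have h9 := R.D_dep h8
      omega
    · left; exact ⟨h3, h4⟩
  · by_cases h4 : R.D w v
    · right; exact ⟨h3, h4⟩
    · exfalso
      obtain ⟨k, hk⟩ := R.root_D u
      obtain ⟨k', hk'⟩ := R.root_D v
      obtain ⟨q1, hq1⟩ := walk_up T R hR k u R.r hk
      obtain ⟨q2, hq2⟩ := walk_up T R hR k' v R.r hk'
      have h7 := hw (q1.append q2.reverse)
      rw [SimpleGraph.Walk.mem_support_append_iff, SimpleGraph.Walk.support_reverse,
        List.mem_reverse] at h7
      rcases h7 with h7 | h7
      · exact h3 (hq1 w h7).1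
      · exact h4 (hq2 w h7).1

end Pool.Agent.TD25
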