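import Pool.Agent.TD25.Defs

/-! # TD25, module Cfg: the configurations of 12 and of 8 directions -/

set_option autoImplicit false

namespace Pool.Agent.TD25

open Finset

/-- The point with integer coordinates `a`. -/
private noncomputable def tp (a : Fin 3 → ℤ) : E3 := WithLp.toLp 2 (fun k => (a k : ℝ))

private theorem tp_inner (a b : Fin 3 → ℤ) :
    inner ℝ (tp a) (tp b) = ((∑ k, a k * b k : ℤ) : ℝ) := by
  unfold tp
  rw [PiLp.inner_apply]
  push_cast
  apply Finset.sum_congr rfl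
  intro k _
  simp [mul_comm]

private theorem lt_iff (a b : E3) : ‖a‖ < ‖a - b‖ ↔ 2 * inner ℝ a b < inner ℝ b b := by
  rw [real_inner_self_eq_norm_sq]
  have h := norm_sub_sq_real a b
  constructor
  · intro h1
    have h2 : ‖a‖ ^ 2 < ‖a - b‖ ^ 2 := pow_lt_pow_left₀ h1 (norm_nonneg _) (by norm_num)
    linarith
  · intro h1
    apply lt_of_pow_lt_pow_left₀ 2 (norm_nonneg _)
    linarith

/-- The icosahedron, approximately. -/
private def v12 : Fin 12 → Fin 3 → ℤ :=
  ![![0, 5, 8], ![0, 5, -8], ![0, -5, 8], ![0, -5, -8], ![5, 8, 0], ![5, -8, 0], ![-5, 8, 0],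
    ![-5, -8, 0], ![8, 0, 5], ![8, 0, -5], ![-8, 0, 5], ![-8, 0, -5]]

private theorem v12_pos : ∀ i, 0 < ∑ k, v12 i k * v12 i k := by decide

private theorem v12_lt : ∀ i j, i ≠ j → 2 * ∑ k, v12 i k * v12 j k < ∑ k, v12 j k * v12 j k := by
  decide

/-- Twelve directions: (0, ±5, ±8), (±5, ±8, 0), (±8, 0, ±5) (all of squared norm 89, squared
distances at least 98). -/
theorem exists_twelve : ∃ d : Fin 12 → E3, (∀ i, d i ≠ 0) ∧
    (∀ i j, i ≠ j → ‖d i‖ < ‖d i - d j‖) ∧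
    (∀ i j, i ≠ j → inner ℝ (d j - d i) (d i) < 0) := by
  have hpos : ∀ i, 0 < inner ℝ (tp (v12 i)) (tp (v12 i)) := by
    intro i
    rw [tp_inner]
    exact_mod_cast v12_pos i
  have hlt : ∀ i j, i ≠ j →
      2 * inner ℝ (tp (v12 i)) (tp (v12 j)) < inner ℝ (tp (v12 j)) (tp (v12 j)) := by
    intro i j hij
    rw [tp_inner, tp_inner]
    exact_mod_cast v12_lt i j hij
  refine ⟨fun i => tp (v12 i), fun i h => ?_, fun i j hij => ?_, fun i j hij => ?_⟩
  · have h0 : tp (v12 i) = 0 := h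
    have h1 := hpos i
    rw [h0, inner_zero_left] at h1
    exact lt_irrefl _ h1
  · exact (lt_iff _ _).2 (hlt i j hij)
  · rw [inner_sub_left]
    have h1 := hlt j i (Ne.symm hij)
    have h2 := hpos i
    linarith

/-- Eight points of the upper half space. -/
private def v8 : Fin 8 → Fin 3 → ℤ :=
  ![![0, 25, 40], ![0, -25, 40], ![40, 0, 25], ![-40, 0, 25], ![25, 40, 1], ![25, -40, 1],
    ![-25, 40, 1], ![-25, -40, 1]]

private def ez : Fin 3 → ℤ := ![0, 0, 1]

private theorem v8_pos : ∀ i, 0 < ∑ k, v8 i k * ez k := by decide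

private theorem v8_lt : ∀ i j, i ≠ j → 2 * ∑ k, v8 i k * v8 j k < ∑ k, v8 j k * v8 j k := by
  decide

private theorem v8_sum : ∑ i, tp (v8 i) = (134 : ℝ) • tp ez := by
  ext k
  simp only [tp, WithLp.ofLp_sum, WithLp.ofLp_smul, Finset.sum_apply, Pi.smul_apply, smul_eq_mul]
  have h : ∀ k, ∑ i, v8 i k = 134 * ez k := by decide
  exact_mod_cast h k

private theorem ez_norm : ‖tp ez‖ = 1 := by
  have h : ‖tp ez‖ ^ 2 = 1 := by
    rw [← real_inner_self_eq_norm_sq, tp_inner]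
    have : ∑ k, ez k * ez k = 1 := by decide
    rw [this]; norm_num
  have h0 := norm_nonneg (tp ez)
  nlinarith

/-- A linear isometry carrying one unit vector to another. -/
private theorem exists_iso (u v : E3) (h : ‖u‖ = ‖v‖) : ∃ A : E3 ≃ₗᵢ[ℝ] E3, A u = v :=
  ⟨_, Submodule.reflection_sub h⟩

/-- Eight directions in the open half space of `n` (an explicit integer configuration around
the pole `(0,0,1)`, symmetric under `(x,y,z) ↦ (-x,-y,z)`, carried to `n` by a linear isometry,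
`reflection`), whose positive hull contains `n`. -/
theorem exists_eight (n : E3) (hn : n ≠ 0) : ∃ f : Fin 8 → E3,
    (∀ i, 0 < inner ℝ (f i) n) ∧ (∀ i j, i ≠ j → ‖f i‖ < ‖f i - f j‖) ∧
    (∀ m : E3, 0 < inner ℝ n m → ∃ i, 0 < inner ℝ (f i) m) := by
  have hn0 : 0 < ‖n‖ := norm_pos_iff.2 hn
  obtain ⟨A, hA⟩ := exists_iso (tp ez) ((‖n‖⁻¹ : ℝ) • n) (by
    rw [ez_norm, norm_smul, norm_inv, norm_norm, inv_mul_cancel₀ hn0.ne'])
  have hAn : n = ‖n‖ • A (tp ez) := by
    rw [hA, smul_smul, mul_inv_cancel₀ hn0.ne', one_smul]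
  refine ⟨fun i => A (tp (v8 i)), fun i => ?_, fun i j hij => ?_, fun m hm => ?_⟩
  · have h1 : inner ℝ (A (tp (v8 i))) n = ‖n‖ * inner ℝ (tp (v8 i)) (tp ez) := by
      conv_lhs => rw [hAn]
      rw [inner_smul_right, LinearIsometryEquiv.inner_map_map]
    rw [h1]
    apply mul_pos hn0
    rw [tp_inner]
    exact_mod_cast v8_pos i
  · rw [← map_sub, LinearIsometryEquiv.norm_map, LinearIsometryEquiv.norm_map, lt_iff, tp_inner,
      tp_inner]
    exact_mod_cast v8_lt i j hij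
  · by_contra hcon
    push Not at hcon
    have h1 : ∑ i, inner ℝ (A (tp (v8 i))) m ≤ 0 := Finset.sum_nonpos fun i _ => hcon i
    rw [← sum_inner, ← map_sum, v8_sum, map_smul, inner_smul_left, hA, inner_smul_left] at h1
    simp only [conj_trivial] at h1
    have h2 : 0 < ‖n‖⁻¹ * inner ℝ n m := mul_pos (inv_pos.2 hn0) hm
    linarith

/-- Eight directions and a nearby normal `m'` for which one of them is the unique maximum. -/
theorem exists_special (n m : E3) (hn : n ≠ 0) (hm : 0 < inner ℝ n m) (U : Set E3)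
    (hU : IsOpen U) (hmU : m ∈ U) : ∃ f : Fin 8 → E3, ∃ m' ∈ U, ∃ i₀ : Fin 8,
    (∀ i, 0 < inner ℝ (f i) n) ∧ (∀ i j, i ≠ j → ‖f i‖ < ‖f i - f j‖) ∧
    0 < inner ℝ (f i₀) m' ∧ (∀ j, j ≠ i₀ → inner ℝ (f j - f i₀) m' < 0) := by
  obtain ⟨f, h1, h2, h3⟩ := exists_eight n hn
  obtain ⟨i₁, hi₁⟩ := h3 m hm
  obtain ⟨i₀, -, hi₀⟩ := Finset.exists_max_image (univ : Finset (Fin 8))
    (fun i => inner ℝ (f i) m) ⟨0, mem_univ _⟩
  have hpos : 0 < inner ℝ (f i₀) m := hi₁.trans_le (hi₀ i₁ (mem_univ _))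
  have hcont : Continuous (fun t : ℝ => m + t • f i₀) := by fun_prop
  have hnear : ∀ᶠ t : ℝ in nhds 0, m + t • f i₀ ∈ U := by
    apply hcont.continuousAt.eventually_mem
    rw [zero_smul, add_zero]
    exact hU.mem_nhds hmU
  obtain ⟨t, ht, ht0⟩ : ∃ t : ℝ, m + t • f i₀ ∈ U ∧ 0 < t := by
    have h4 : ∀ᶠ t : ℝ in nhdsWithin 0 (Set.Ioi 0), m + t • f i₀ ∈ U :=
      hnear.filter_mono nhdsWithin_le_nhds
    have h5 : ∀ᶠ t : ℝ in nhdsWithin 0 (Set.Ioi 0), 0 < t := self_mem_nhdsWithin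
    exact (h4.and h5).exists
  have hsq : 0 < inner ℝ (f i₀) (f i₀) := by
    rw [real_inner_self_eq_norm_sq]
    have : f i₀ ≠ 0 := by
      intro h
      rw [h, inner_zero_left] at hpos
      exact lt_irrefl _ hpos
    have := norm_pos_iff.2 this
    positivity
  refine ⟨f, m + t • f i₀, ht, i₀, h1, h2, ?_, fun j hj => ?_⟩
  · rw [inner_add_right, inner_smul_right]
    have := mul_pos ht0 hsq
    linarith
  · rw [inner_add_right, inner_smul_right, inner_sub_left, inner_sub_left]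
    have h4 := (lt_iff _ _).1 (h2 j i₀ hj)
    have h5 := hi₀ j (mem_univ _)
    have h6 : t * (inner ℝ (f j) (f i₀) - inner ℝ (f i₀) (f i₀)) < 0 := by
      apply mul_neg_of_pos_of_neg ht0
      linarith
    linarith

end Pool.Agent.TD25
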