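import Pool.Agent.TD25.Cfg

/-! # TD25, module Cfg2: nine directions, pairwise more than 60 degrees apart, almost in a
half space; four directions in a wedge

With `n = (1,1,1)` and a small `x > 0`: `E_k = (1,-1,0) - x n` and its cyclic permutations,
`O_k = (1,0,-1) - (x/4) n` and its cyclic permutations, `T_k = 2 n + (1+x/8) (1,1,-2)` and its
cyclic permutations.  The closed half space contains nine directions at mutual angle at least 60
degrees (`x = 0`); the family makes all angles larger than 60 degrees at the price of a height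
of order `-x` of the first six.  The pairs `E, O` gain only in second order:
`(2+3x²)(2+3y²) - 4(1+3xy)² = (3x²/16)(2-9x²)` for `y = x/4`. -/

set_option autoImplicit false

namespace Pool.Agent.TD25

open Finset

private noncomputable def rp (a : Fin 3 → ℝ) : E3 := WithLp.toLp 2 a

private theorem rp_inner (a b : Fin 3 → ℝ) : inner ℝ (rp a) (rp b) = ∑ k, a k * b k := by
  unfold rp
  rw [PiLp.inner_apply]
  apply Finset.sum_congr rfl
  intro k _
  simp [mul_comm]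

private theorem lt_iff9 (a b : E3) : ‖a‖ < ‖a - b‖ ↔ 2 * inner ℝ a b < inner ℝ b b := by
  rw [real_inner_self_eq_norm_sq]
  have h := norm_sub_sq_real a b
  constructor
  · intro h1
    have h2 : ‖a‖ ^ 2 < ‖a - b‖ ^ 2 := pow_lt_pow_left₀ h1 (norm_nonneg _) (by norm_num)
    linarith
  · intro h1
    apply lt_of_pow_lt_pow_left₀ 2 (norm_nonneg _)
    linarith

private def g9 : Fin 9 → Fin 3 → ℤ :=
  ![![1, -1, 0], ![0, 1, -1], ![-1, 0, 1], ![1, 0, -1], ![-1, 1, 0], ![0, -1, 1], ![1, 1, -2],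
    ![-2, 1, 1], ![1, -2, 1]]

private def kd : Fin 9 → Fin 3 := ![0, 0, 0, 1, 1, 1, 2, 2, 2]

private def M9 : Fin 3 → Fin 3 → ℤ := ![![-1, 1, 3], ![1, -1, 3], ![3, 3, -3]]

private def m9 : Fin 3 → ℤ := ![2, 2, 6]

private theorem g9_sum : ∀ i, g9 i 0 + g9 i 1 + g9 i 2 = 0 := by decide

private theorem g9_in : ∀ i j, i ≠ j →
    g9 i 0 * g9 j 0 + g9 i 1 * g9 j 1 + g9 i 2 * g9 j 2 ≤ M9 (kd i) (kd j) := by decide

private theorem g9_nn : ∀ i,
    g9 i 0 * g9 i 0 + g9 i 1 * g9 i 1 + g9 i 2 * g9 i 2 = m9 (kd i) := by decide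

private noncomputable def aa (x : ℝ) : Fin 3 → ℝ := ![-x, -(x / 4), 2]

private noncomputable def ss (x : ℝ) : Fin 3 → ℝ := ![1, 1, 1 + x / 8]

private noncomputable def n0 : E3 := rp ![1, 1, 1]

private noncomputable def vv (x : ℝ) (i : Fin 9) : E3 :=
  rp (fun k => aa x (kd i) + ss x (kd i) * (g9 i k : ℝ))

private theorem vv_inner (x : ℝ) (i j : Fin 9) : inner ℝ (vv x i) (vv x j) =
    3 * (aa x (kd i) * aa x (kd j)) + ss x (kd i) * ss x (kd j) *
      ((g9 i 0 * g9 j 0 + g9 i 1 * g9 j 1 + g9 i 2 * g9 j 2 : ℤ) : ℝ) := by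
  have h1 : (g9 i 0 : ℝ) + g9 i 1 + g9 i 2 = 0 := by exact_mod_cast g9_sum i
  have h2 : (g9 j 0 : ℝ) + g9 j 1 + g9 j 2 = 0 := by exact_mod_cast g9_sum j
  unfold vv
  rw [rp_inner, Fin.sum_univ_three]
  push_cast
  linear_combination (aa x (kd j) * ss x (kd i)) * h1 + (aa x (kd i) * ss x (kd j)) * h2

private theorem vv_n0 (x : ℝ) (i : Fin 9) : inner ℝ (vv x i) n0 = 3 * aa x (kd i) := by
  have h1 : (g9 i 0 : ℝ) + g9 i 1 + g9 i 2 = 0 := by exact_mod_cast g9_sum i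
  unfold vv n0
  rw [rp_inner, Fin.sum_univ_three]
  simp only [Matrix.cons_val_zero, Matrix.cons_val_one, Matrix.cons_val]
  linear_combination (ss x (kd i)) * h1

private theorem vv_nn (x : ℝ) (i : Fin 9) : inner ℝ (vv x i) (vv x i) =
    3 * aa x (kd i) ^ 2 + ss x (kd i) ^ 2 * (m9 (kd i) : ℝ) := by
  rw [vv_inner, g9_nn]; ring

private theorem pair9 (x : ℝ) (hx : 0 < x) (hx1 : x ≤ 1 / 4) : ∀ k l : Fin 3,
    3 * (aa x k * aa x l) + ss x k * ss x l * (M9 k l : ℝ) ≤ 0 ∨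
    4 * (3 * (aa x k * aa x l) + ss x k * ss x l * (M9 k l : ℝ)) ^ 2 <
      (3 * aa x k ^ 2 + ss x k ^ 2 * (m9 k : ℝ)) * (3 * aa x l ^ 2 + ss x l ^ 2 * (m9 l : ℝ)) := by
  have hx2 : x ^ 2 ≤ 1 / 16 := by nlinarith
  have hx3 : 0 < x ^ 2 := by positivity
  have hx4 : 0 < x ^ 3 := by positivity
  have hx5 : 0 < x ^ 4 := by positivity
  intro k l
  fin_cases k <;> fin_cases l <;>
    simp [aa, ss, M9, m9]
  · left; nlinarith
  · right; nlinarith
  · right; nlinarith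
  · right; nlinarith
  · left; nlinarith
  · right; nlinarith
  · right; nlinarith
  · right; nlinarith
  · right; nlinarith

private theorem vv_pos (x : ℝ) (hx : 0 < x) (i : Fin 9) : 2 ≤ inner ℝ (vv x i) (vv x i) := by
  rw [vv_nn]
  have h : ∀ k : Fin 3, 2 ≤ 3 * aa x k ^ 2 + ss x k ^ 2 * (m9 k : ℝ) := by
    intro k
    fin_cases k <;> simp [aa, ss, m9] <;> nlinarith [sq_nonneg x]
  exact h _

private theorem vv_norm (x : ℝ) (hx : 0 < x) (i : Fin 9) : 1 ≤ ‖vv x i‖ := by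
  have h := vv_pos x hx i
  rw [real_inner_self_eq_norm_sq] at h
  nlinarith [norm_nonneg (vv x i)]

private theorem vv_pair (x : ℝ) (hx : 0 < x) (hx1 : x ≤ 1 / 4) (i j : Fin 9) (hij : i ≠ j) :
    2 * inner ℝ (vv x i) (vv x j) < ‖vv x i‖ * ‖vv x j‖ := by
  have hi := vv_norm x hx i
  have hj := vv_norm x hx j
  have hs : ∀ k, 0 < ss x k := by
    intro k
    fin_cases k <;> simp [ss] <;> linarith
  have hG : ((g9 i 0 * g9 j 0 + g9 i 1 * g9 j 1 + g9 i 2 * g9 j 2 : ℤ) : ℝ) ≤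
      (M9 (kd i) (kd j) : ℝ) := by exact_mod_cast g9_in i j hij
  have hB : inner ℝ (vv x i) (vv x j) ≤ 3 * (aa x (kd i) * aa x (kd j)) +
      ss x (kd i) * ss x (kd j) * (M9 (kd i) (kd j) : ℝ) := by
    rw [vv_inner]
    have := mul_le_mul_of_nonneg_left hG (mul_pos (hs (kd i)) (hs (kd j))).le
    linarith
  have hN : (3 * aa x (kd i) ^ 2 + ss x (kd i) ^ 2 * (m9 (kd i) : ℝ)) *
      (3 * aa x (kd j) ^ 2 + ss x (kd j) ^ 2 * (m9 (kd j) : ℝ)) = (‖vv x i‖ * ‖vv x j‖) ^ 2 := by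
    rw [← vv_nn, ← vv_nn, real_inner_self_eq_norm_sq, real_inner_self_eq_norm_sq]
    ring
  have hp := pair9 x hx hx1 (kd i) (kd j)
  rw [hN] at hp
  set B : ℝ := 3 * (aa x (kd i) * aa x (kd j)) +
    ss x (kd i) * ss x (kd j) * (M9 (kd i) (kd j) : ℝ) with hBd
  have hpos : 0 < ‖vv x i‖ * ‖vv x j‖ := by positivity
  have h2 : 2 * B < ‖vv x i‖ * ‖vv x j‖ := by
    rcases hp with h | h
    · linarith
    · apply lt_of_pow_lt_pow_left₀ 2 hpos.le
      calc (2 * B) ^ 2 = 4 * B ^ 2 := by ring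
        _ < _ := h
  linarith

private theorem vv_sum (x : ℝ) : vv x 6 + vv x 7 + vv x 8 = (6 : ℝ) • n0 := by
  ext k
  have h : ∀ k : Fin 3, (g9 6 k : ℤ) + g9 7 k + g9 8 k = 0 := by decide
  have h1 : (g9 6 k : ℝ) + g9 7 k + g9 8 k = 0 := by exact_mod_cast h k
  have e0 : (![1, 1, 1] : Fin 3 → ℝ) k = 1 := by fin_cases k <;> rfl
  show aa x (kd 6) + ss x (kd 6) * (g9 6 k : ℝ) + (aa x (kd 7) + ss x (kd 7) * (g9 7 k : ℝ)) +
    (aa x (kd 8) + ss x (kd 8) * (g9 8 k : ℝ)) = 6 * (![1, 1, 1] : Fin 3 → ℝ) k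
  have k6 : kd 6 = 2 := rfl
  have k7 : kd 7 = 2 := rfl
  have k8 : kd 8 = 2 := rfl
  have a2 : aa x 2 = 2 := rfl
  rw [e0, k6, k7, k8, a2]
  linear_combination (ss x 2) * h1

private theorem vv_norm_eq (x : ℝ) (i j : Fin 9) (h : kd i = kd j) : ‖vv x i‖ = ‖vv x j‖ := by
  have h1 : ‖vv x i‖ ^ 2 = ‖vv x j‖ ^ 2 := by
    rw [← real_inner_self_eq_norm_sq, ← real_inner_self_eq_norm_sq, vv_nn, vv_nn, h]
  exact (pow_left_inj₀ (norm_nonneg _) (norm_nonneg _) (by norm_num)).1 h1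

private theorem n0_norm : 1 ≤ ‖n0‖ := by
  have h : ‖n0‖ ^ 2 = 3 := by
    rw [← real_inner_self_eq_norm_sq]
    unfold n0
    rw [rp_inner, Fin.sum_univ_three]
    simp only [Matrix.cons_val_zero, Matrix.cons_val_one, Matrix.cons_val]
    norm_num
  nlinarith [norm_nonneg n0]

private theorem exists_iso9 (u v : E3) (h : ‖u‖ = ‖v‖) : ∃ A : E3 ≃ₗᵢ[ℝ] E3, A u = v :=
  ⟨_, Submodule.reflection_sub h⟩

/-- Nine unit vectors, pairwise more than 60 degrees apart, almost in the half space of `n`, whose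
positive hull contains `n`. -/
private theorem exists_nine_unit (n : E3) (hn : n ≠ 0) (η : ℝ) (hη : 0 < η) : ∃ f : Fin 9 → E3,
    (∀ i, -η < inner ℝ (f i) n) ∧ (∀ i, ‖f i‖ = 1) ∧ (∀ i j, i ≠ j → ‖f i‖ < ‖f i - f j‖) ∧
    (∀ m : E3, 0 < inner ℝ n m → ∃ i, 0 < inner ℝ (f i) m) := by
  have hn0 : 0 < ‖n‖ := norm_pos_iff.2 hn
  have h0 := n0_norm
  have h00 : 0 < ‖n0‖ := by linarith
  obtain ⟨x, hx, hx1, hxη⟩ : ∃ x : ℝ, 0 < x ∧ x ≤ 1 / 4 ∧ 3 * x * ‖n‖ < η := by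
    refine ⟨min (1 / 4) (η / (6 * ‖n‖)), ?_, min_le_left _ _, ?_⟩
    · apply lt_min (by norm_num); positivity
    · have h1 : min (1 / 4) (η / (6 * ‖n‖)) ≤ η / (6 * ‖n‖) := min_le_right _ _
      have h2 : 3 * (η / (6 * ‖n‖)) * ‖n‖ = η / 2 := by field_simp; norm_num
      have h3 := mul_le_mul_of_nonneg_right (mul_le_mul_of_nonneg_left h1 (by norm_num :
        (0 : ℝ) ≤ 3)) hn0.le
      linarith
  obtain ⟨A, hA⟩ := exists_iso9 ((‖n0‖⁻¹ : ℝ) • n0) ((‖n‖⁻¹ : ℝ) • n) (by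
    rw [norm_smul, norm_inv, norm_norm, inv_mul_cancel₀ h00.ne', norm_smul, norm_inv, norm_norm,
      inv_mul_cancel₀ hn0.ne'])
  have hAn : n = (‖n‖ * ‖n0‖⁻¹) • A n0 := by
    rw [map_smul] at hA
    rw [mul_smul, hA, smul_smul, mul_inv_cancel₀ hn0.ne', one_smul]
  have hv : ∀ i, 0 < ‖vv x i‖ := fun i => by
    have := vv_norm x hx i
    linarith
  set f : Fin 9 → E3 := fun i => A ((‖vv x i‖⁻¹ : ℝ) • vv x i) with hf
  have hone : ∀ i, ‖f i‖ = 1 := by
    intro i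
    rw [hf]
    simp only [LinearIsometryEquiv.norm_map, norm_smul, norm_inv, norm_norm]
    exact inv_mul_cancel₀ (hv i).ne'
  refine ⟨f, fun i => ?_, hone, fun i j hij => ?_, fun m hm => ?_⟩
  · have h1 : inner ℝ (f i) n = (‖n‖ * ‖n0‖⁻¹ * ‖vv x i‖⁻¹) * (3 * aa x (kd i)) := by
      conv_lhs => rw [hAn]
      rw [hf]
      simp only
      rw [inner_smul_right, LinearIsometryEquiv.inner_map_map, inner_smul_left, vv_n0,
        conj_trivial]
      ring
    rw [h1]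
    have h2 : -x ≤ aa x (kd i) := by
      have : ∀ k : Fin 3, -x ≤ aa x k := by
        intro k
        fin_cases k <;> simp [aa] <;> linarith
      exact this _
    have h3 : ‖n0‖⁻¹ ≤ 1 := inv_le_one_of_one_le₀ h0
    have h4 : ‖vv x i‖⁻¹ ≤ 1 := inv_le_one_of_one_le₀ (vv_norm x hx i)
    have h5 : 0 ≤ ‖n0‖⁻¹ * ‖vv x i‖⁻¹ := by positivity
    have h6 : ‖n0‖⁻¹ * ‖vv x i‖⁻¹ ≤ 1 := mul_le_one₀ h3 (by positivity) h4
    have h7 : 0 ≤ ‖n‖ * ‖n0‖⁻¹ * ‖vv x i‖⁻¹ := by positivity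
    have h8 : ‖n‖ * ‖n0‖⁻¹ * ‖vv x i‖⁻¹ ≤ ‖n‖ := by
      rw [mul_assoc]
      exact mul_le_of_le_one_right hn0.le h6
    have h9 : ‖n‖ * ‖n0‖⁻¹ * ‖vv x i‖⁻¹ * (3 * (-x)) ≤
        ‖n‖ * ‖n0‖⁻¹ * ‖vv x i‖⁻¹ * (3 * aa x (kd i)) :=
      mul_le_mul_of_nonneg_left (by linarith) h7
    have h10 : ‖n‖ * ‖n0‖⁻¹ * ‖vv x i‖⁻¹ * (3 * x) ≤ ‖n‖ * (3 * x) :=
      mul_le_mul_of_nonneg_right h8 (by linarith)
    linarith
  · rw [lt_iff9, real_inner_self_eq_norm_sq, hone j]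
    rw [hf]
    simp only
    rw [LinearIsometryEquiv.inner_map_map, inner_smul_left, inner_smul_right, conj_trivial]
    have h1 := vv_pair x hx hx1 i j hij
    have h2 : 2 * (‖vv x i‖⁻¹ * (‖vv x j‖⁻¹ * inner ℝ (vv x i) (vv x j))) =
        (2 * inner ℝ (vv x i) (vv x j)) / (‖vv x i‖ * ‖vv x j‖) := by
      field_simp
    rw [h2, one_pow, div_lt_one (mul_pos (hv i) (hv j))]
    exact h1
  · by_contra hcon
    push Not at hcon
    have e : f 6 + f 7 + f 8 = (‖vv x 6‖⁻¹ * 6) • A n0 := by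
      rw [hf]
      simp only
      rw [vv_norm_eq x 7 6 rfl, vv_norm_eq x 8 6 rfl, ← map_add, ← map_add, ← smul_add,
        ← smul_add, vv_sum, smul_smul, map_smul]
    have h1 : inner ℝ (f 6 + f 7 + f 8) m ≤ 0 := by
      rw [inner_add_left, inner_add_left]
      have := hcon 6
      have := hcon 7
      have := hcon 8
      linarith
    have h2 : 0 < inner ℝ (A n0) m := by
      rw [hAn, inner_smul_left, conj_trivial] at hm
      exact (mul_pos_iff_of_pos_left (by positivity)).1 hm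
    rw [e, inner_smul_left, conj_trivial] at h1
    have h3 : 0 < ‖vv x 6‖⁻¹ * 6 := by
      have := hv 6
      positivity
    have := mul_pos h3 h2
    linarith

/-- Nine directions. -/
theorem exists_nine (n : E3) (hn : n ≠ 0) (η : ℝ) (hη : 0 < η) : ∃ f : Fin 9 → E3,
    (∀ i, -η < inner ℝ (f i) n) ∧ (∀ i j, i ≠ j → ‖f i‖ < ‖f i - f j‖) ∧
    (∀ i, 1 ≤ ‖f i‖ ∧ ‖f i‖ ≤ 2) ∧
    (∀ m : E3, 0 < inner ℝ n m → ∃ i, 0 < inner ℝ (f i) m) := by
  obtain ⟨f, h1, h2, h3, h4⟩ := exists_nine_unit n hn η hη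
  exact ⟨f, h1, h3, fun i => by rw [h2 i]; norm_num, h4⟩

/-- Nine directions and a nearby normal `m'` for which one of them is the unique maximum (same
proof as `exists_special`). -/
theorem exists_special9 (n m : E3) (hn : n ≠ 0) (hm : 0 < inner ℝ n m) (η : ℝ) (hη : 0 < η)
    (U : Set E3) (hU : IsOpen U) (hmU : m ∈ U) : ∃ f : Fin 9 → E3, ∃ m' ∈ U, ∃ i₀ : Fin 9,
    (∀ i, -η < inner ℝ (f i) n) ∧ (∀ i j, i ≠ j → ‖f i‖ < ‖f i - f j‖) ∧
    (∀ i, 1 ≤ ‖f i‖ ∧ ‖f i‖ ≤ 2) ∧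
    0 < inner ℝ (f i₀) m' ∧ (∀ j, j ≠ i₀ → inner ℝ (f j - f i₀) m' < 0) := by
  obtain ⟨f, h1, h2, h1', h3⟩ := exists_nine n hn η hη
  obtain ⟨i₁, hi₁⟩ := h3 m hm
  obtain ⟨i₀, -, hi₀⟩ := Finset.exists_max_image (univ : Finset (Fin 9))
    (fun i => inner ℝ (f i) m) ⟨0, mem_univ _⟩
  have hpos : 0 < inner ℝ (f i₀) m := hi₁.trans_le (hi₀ i₁ (mem_univ _))
  have hcont : Continuous (fun t : ℝ => m + t • f i₀) := by fun_prop
  have hnear : ∀ᶠ t : ℝ in nhds 0, m + t • f i₀ ∈ U := by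
    apply hcont.continuousAt.eventually_mem
    rw [zero_smul, add_zero]
    exact hU.mem_nhds hmU
  obtain ⟨t, ht, ht0⟩ : ∃ t : ℝ, m + t • f i₀ ∈ U ∧ 0 < t := by
    have h4 : ∀ᶠ t : ℝ in nhdsWithin 0 (Set.Ioi 0), m + t • f i₀ ∈ U :=
      hnear.filter_mono nhdsWithin_le_nhds
    have h5 : ∀ᶠ t : ℝ in nhdsWithin 0 (Set.Ioi 0), 0 < t := self_mem_nhdsWithin
    exact (h4.and h5).exists
  have hsq : 0 < inner ℝ (f i₀) (f i₀) := by
    rw [real_inner_self_eq_norm_sq]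
    have := (h1' i₀).1
    positivity
  refine ⟨f, m + t • f i₀, ht, i₀, h1, h2, h1', ?_, fun j hj => ?_⟩
  · rw [inner_add_right, inner_smul_right]
    have := mul_pos ht0 hsq
    linarith
  · rw [inner_add_right, inner_smul_right, inner_sub_left, inner_sub_left]
    have h4 := (lt_iff9 _ _).1 (h2 j i₀ hj)
    have h5 := hi₀ j (mem_univ _)
    have h6 : t * (inner ℝ (f j) (f i₀) - inner ℝ (f i₀) (f i₀)) < 0 := by
      apply mul_neg_of_pos_of_neg ht0
      linarith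
    linarith

/-- A unit vector orthogonal to two vectors. -/
private theorem exists_orth (a b : E3) : ∃ e : E3, ‖e‖ = 1 ∧ inner ℝ e a = 0 ∧
    inner ℝ e b = 0 := by
  let L : E3 →ₗ[ℝ] ℝ × ℝ := ((innerₛₗ ℝ a) : E3 →ₗ[ℝ] ℝ).prod (innerₛₗ ℝ b)
  have hL : LinearMap.ker L ≠ ⊥ := by
    apply LinearMap.ker_ne_bot_of_finrank_lt
    simp
  obtain ⟨v, hv, hv0⟩ := Submodule.exists_mem_ne_zero_of_ne_bot hL
  have h1 : (inner ℝ a v, inner ℝ b v) = ((0 : ℝ), (0 : ℝ)) := hv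
  have h2 : inner ℝ a v = 0 := congrArg Prod.fst h1
  have h3 : inner ℝ b v = 0 := congrArg Prod.snd h1
  have hn : ‖v‖ ≠ 0 := norm_ne_zero_iff.2 hv0
  refine ⟨(‖v‖⁻¹ : ℝ) • v, ?_, ?_, ?_⟩
  · rw [norm_smul, norm_inv, norm_norm, inv_mul_cancel₀ hn]
  · rw [inner_smul_left, real_inner_comm, h2, mul_zero]
  · rw [inner_smul_left, real_inner_comm, h3, mul_zero]

/-- A unit vector orthogonal to two vectors, on a given side of a third. -/
private theorem exists_orth_side (a b d : E3) : ∃ e : E3, ‖e‖ = 1 ∧ inner ℝ e a = 0 ∧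
    inner ℝ e b = 0 ∧ 0 ≤ inner ℝ e d := by
  obtain ⟨e, h1, h2, h3⟩ := exists_orth a b
  rcases le_total 0 (inner ℝ e d) with h | h
  · exact ⟨e, h1, h2, h3, h⟩
  · refine ⟨-e, by rw [norm_neg, h1], by rw [inner_neg_left, h2, neg_zero],
      by rw [inner_neg_left, h3, neg_zero], by rw [inner_neg_left]; linarith⟩

private theorem nrm4 (v : E3) (h1 : 0 < inner ℝ v v) (h2 : inner ℝ v v ≤ 1) :
    0 < ‖v‖ ∧ ‖v‖ ≤ 2 := by
  rw [real_inner_self_eq_norm_sq] at h1 h2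
  have h3 := norm_nonneg v
  have h4 : ‖v‖ ≤ 1 := (pow_le_one_iff_of_nonneg h3 two_ne_zero).1 h2
  refine ⟨?_, by linarith⟩
  rcases h3.eq_or_lt with h | h
  · rw [← h] at h1; norm_num at h1
  · exact h

/-- Four directions in the closed wedge of two normals (any two vectors).  Take unit vectors
`e ⟂ n₁, n₂`; `g ⟂ e, n₁` with `<g,n₂> ≥ 0`; `g' ⟂ e, n₂` with `<g',n₁> ≥ 0`, and if `g' = g`
replace `g'` by `-g`.  With `κ = 1 - <g,g'> ∈ (0,2]`, `c = 1/2 - κ/4`, `s = √(3/4 - κ/4)`: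
`e, -e, c e + s g, -c e + s g'`.  (`|c e + s g|^2 = 1 - κ/2 + κ^2/16 > 2c`, and
`3c^2 - s^2(1-2κ) = κ(1 - 5κ/16) > 0`.) -/
theorem exists_four (n₁ n₂ : E3) : ∃ f : Fin 4 → E3,
    (∀ i, 0 ≤ inner ℝ (f i) n₁) ∧ (∀ i, 0 ≤ inner ℝ (f i) n₂) ∧
    (∀ i j, i ≠ j → ‖f i‖ < ‖f i - f j‖) ∧ (∀ i, 0 < ‖f i‖ ∧ ‖f i‖ ≤ 2) := by
  obtain ⟨e, e1, e2, e3⟩ := exists_orth n₁ n₂
  obtain ⟨g, g1, g2, g3, g4⟩ := exists_orth_side e n₁ n₂
  obtain ⟨g', k1, k2, k3, k4, hne⟩ : ∃ g' : E3, ‖g'‖ = 1 ∧ inner ℝ g' e = 0 ∧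
      inner ℝ g' n₂ = 0 ∧ 0 ≤ inner ℝ g' n₁ ∧ g ≠ g' := by
    obtain ⟨g', k1, k2, k3, k4⟩ := exists_orth_side e n₂ n₁
    by_cases h : g = g'
    · subst h
      refine ⟨-g, by rw [norm_neg, g1], by rw [inner_neg_left, g2, neg_zero],
        by rw [inner_neg_left, k3, neg_zero], by rw [inner_neg_left, g3, neg_zero], ?_⟩
      intro h
      have h0 : g = 0 := by
        have h1 : (2 : ℝ) • g = 0 := by
          rw [two_smul]
          nth_rewrite 2 [h]
          rw [add_neg_cancel]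
        exact (smul_eq_zero.1 h1).resolve_left (by norm_num)
      rw [h0, norm_zero] at g1
      norm_num at g1
    · exact ⟨g', k1, k2, k3, k4, h⟩
  set κ : ℝ := 1 - inner ℝ g g' with hκ
  have hκ0 : 0 < κ := by
    have := (inner_lt_one_iff_real_of_norm_eq_one g1 k1).2 hne
    rw [hκ]; linarith
  have hκ2 : κ ≤ 2 := by
    have h := abs_real_inner_le_norm g g'
    rw [g1, k1, mul_one] at h
    have := neg_abs_le (inner ℝ g g')
    rw [hκ]; linarith
  have hgg : inner ℝ g g' = 1 - κ := by rw [hκ]; ring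
  set c : ℝ := 1 / 2 - κ / 4 with hc
  have hc0 : 0 ≤ c := by rw [hc]; linarith
  obtain ⟨s, hs0, hs⟩ : ∃ s : ℝ, 0 ≤ s ∧ s ^ 2 = 3 / 4 - κ / 4 :=
    ⟨√(3 / 4 - κ / 4), Real.sqrt_nonneg _, Real.sq_sqrt (by linarith)⟩
  have ee : inner ℝ e e = 1 := by rw [real_inner_self_eq_norm_sq, e1]; norm_num
  have gg : inner ℝ g g = 1 := by rw [real_inner_self_eq_norm_sq, g1]; norm_num
  have kk : inner ℝ g' g' = 1 := by rw [real_inner_self_eq_norm_sq, k1]; norm_num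
  have eg : inner ℝ e g = 0 := by rw [real_inner_comm]; exact g2
  have ek : inner ℝ e g' = 0 := by rw [real_inner_comm]; exact k2
  have kg : inner ℝ g' g = 1 - κ := by rw [real_inner_comm]; exact hgg
  set p : E3 := c • e + s • g with hp
  set q : E3 := -c • e + s • g' with hq
  have pp : inner ℝ p p = c ^ 2 + s ^ 2 := by
    rw [hp]
    simp only [inner_add_left, inner_add_right, inner_smul_left, inner_smul_right, ee, gg, eg, g2,
      conj_trivial]
    ring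
  have qq : inner ℝ q q = c ^ 2 + s ^ 2 := by
    rw [hq]
    simp only [inner_add_left, inner_add_right, inner_smul_left, inner_smul_right, ee, kk, ek, k2,
      conj_trivial]
    ring
  have ep : inner ℝ e p = c := by
    rw [hp]
    simp only [inner_add_right, inner_smul_right, ee, eg]
    ring
  have eq' : inner ℝ e q = -c := by
    rw [hq]
    simp only [inner_add_right, inner_smul_right, ee, ek]
    ring
  have pq : inner ℝ p q = -c ^ 2 + s ^ 2 * (1 - κ) := by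
    rw [hp, hq]
    simp only [inner_add_left, inner_add_right, inner_smul_left, inner_smul_right, ee, hgg, ek, g2,
      conj_trivial]
    ring
  have pe : inner ℝ p e = c := by rw [real_inner_comm]; exact ep
  have qe : inner ℝ q e = -c := by rw [real_inner_comm]; exact eq'
  have qp : inner ℝ q p = -c ^ 2 + s ^ 2 * (1 - κ) := by rw [real_inner_comm]; exact pq
  have hcs : c ^ 2 + s ^ 2 = 1 - κ / 2 + κ ^ 2 / 16 := by rw [hs, hc]; ring
  have hpq : 2 * (-c ^ 2 + s ^ 2 * (1 - κ)) < c ^ 2 + s ^ 2 := by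
    rw [hs, hc]
    nlinarith [mul_pos hκ0 (show (0 : ℝ) < 16 - 5 * κ by linarith)]
  have hsq : 0 < κ ^ 2 := by positivity
  have h2c : 2 * c < c ^ 2 + s ^ 2 := by rw [hcs, hc]; linarith
  have h2c1 : 2 * c < 1 := by rw [hc]; linarith
  have hcs0 : 0 < c ^ 2 + s ^ 2 := by linarith
  have hcs1 : c ^ 2 + s ^ 2 ≤ 1 := by rw [hcs]; nlinarith
  refine ⟨![e, -e, p, q], fun i => ?_, fun i => ?_, fun i j hij => ?_, fun i => ?_⟩
  · fin_cases i
    · show 0 ≤ inner ℝ e n₁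
      rw [e2]
    · show 0 ≤ inner ℝ (-e) n₁
      rw [inner_neg_left, e2, neg_zero]
    · show 0 ≤ inner ℝ p n₁
      rw [hp, inner_add_left, inner_smul_left, inner_smul_left, e2, g3]
      simp
    · show 0 ≤ inner ℝ q n₁
      rw [hq, inner_add_left, inner_smul_left, inner_smul_left, e2, mul_zero, zero_add]
      exact mul_nonneg hs0 k4
  · fin_cases i
    · show 0 ≤ inner ℝ e n₂
      rw [e3]
    · show 0 ≤ inner ℝ (-e) n₂
      rw [inner_neg_left, e3, neg_zero]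
    · show 0 ≤ inner ℝ p n₂
      rw [hp, inner_add_left, inner_smul_left, inner_smul_left, e3, mul_zero, zero_add]
      exact mul_nonneg hs0 g4
    · show 0 ≤ inner ℝ q n₂
      rw [hq, inner_add_left, inner_smul_left, inner_smul_left, e3, k3]
      simp
  · rw [lt_iff9]
    fin_cases i <;> fin_cases j
    · exact absurd rfl hij
    · show 2 * inner ℝ e (-e) < inner ℝ (-e) (-e)
      rw [inner_neg_right, inner_neg_neg, ee]; norm_num
    · show 2 * inner ℝ e p < inner ℝ p p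
      rw [ep, pp]; exact h2c
    · show 2 * inner ℝ e q < inner ℝ q q
      rw [eq', qq]; linarith
    · show 2 * inner ℝ (-e) e < inner ℝ e e
      rw [inner_neg_left, ee]; norm_num
    · exact absurd rfl hij
    · show 2 * inner ℝ (-e) p < inner ℝ p p
      rw [inner_neg_left, ep, pp]; linarith
    · show 2 * inner ℝ (-e) q < inner ℝ q q
      rw [inner_neg_left, eq', qq]; linarith
    · show 2 * inner ℝ p e < inner ℝ e e
      rw [pe, ee]; exact h2c1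
    · show 2 * inner ℝ p (-e) < inner ℝ (-e) (-e)
      rw [inner_neg_right, inner_neg_neg, pe, ee]; linarith
    · exact absurd rfl hij
    · show 2 * inner ℝ p q < inner ℝ q q
      rw [pq, qq]; exact hpq
    · show 2 * inner ℝ q e < inner ℝ e e
      rw [qe, ee]; linarith
    · show 2 * inner ℝ q (-e) < inner ℝ (-e) (-e)
      rw [inner_neg_right, inner_neg_neg, qe, ee]; linarith
    · show 2 * inner ℝ q p < inner ℝ p p
      rw [qp, pp]; exact hpq
    · exact absurd rfl hij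
  · fin_cases i
    · exact nrm4 e (by rw [ee]; norm_num) (by rw [ee])
    · show 0 < ‖-e‖ ∧ ‖-e‖ ≤ 2
      rw [norm_neg]
      exact nrm4 e (by rw [ee]; norm_num) (by rw [ee])
    · exact nrm4 p (by rw [pp]; exact hcs0) (by rw [pp]; exact hcs1)
    · exact nrm4 q (by rw [qq]; exact hcs0) (by rw [qq]; exact hcs1)

end Pool.Agent.TD25
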