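import Pool.Agent.TD25.Main

/-! # TD25, module Cfg3: seven directions with the pole, six directions almost in a plane -/

set_option autoImplicit false

namespace Pool.Agent.TD25

open Finset

/-- The point with coordinates `a`. -/
private noncomputable def pt (a : Fin 3 → ℝ) : E3 := WithLp.toLp 2 a

private theorem pt_inner (a b : Fin 3 → ℝ) : inner ℝ (pt a) (pt b) = ∑ k, a k * b k := by
  unfold pt
  rw [PiLp.inner_apply]
  apply Finset.sum_congr rfl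
  intro k _
  simp [mul_comm]

private theorem lt_iff3 (a b : E3) : ‖a‖ < ‖a - b‖ ↔ 2 * inner ℝ a b < inner ℝ b b := by
  rw [real_inner_self_eq_norm_sq]
  have h := norm_sub_sq_real a b
  constructor
  · intro h1
    have h2 : ‖a‖ ^ 2 < ‖a - b‖ ^ 2 := pow_lt_pow_left₀ h1 (norm_nonneg _) (by norm_num)
    linarith
  · intro h1
    apply lt_of_pow_lt_pow_left₀ 2 (norm_nonneg _)
    linarith

/-- The pole `(20,20,20)` and six vectors in the open half space. -/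
private def v7 : Fin 7 → Fin 3 → ℤ :=
  ![![20, 20, 20], ![30, -14, 8], ![8, 30, -14], ![-14, 8, 30], ![-23, 25, 1], ![1, -23, 25],
    ![25, 1, -23]]

private theorem v7_lt : ∀ i j, i ≠ j → 2 * ∑ k, v7 i k * v7 j k < ∑ k, v7 j k * v7 j k := by
  decide

private theorem v7_pos : ∀ i, 0 < ∑ k, v7 i k * v7 0 k := by decide

private theorem v7_neg : ∀ i, i ≠ 0 → ∑ k, v7 i k * v7 0 k < ∑ k, v7 0 k * v7 0 k := by decide

private noncomputable def w7 (i : Fin 7) : E3 := pt (fun k => (v7 i k : ℝ))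

private theorem w7_inner (i j : Fin 7) :
    inner ℝ (w7 i) (w7 j) = ((∑ k, v7 i k * v7 j k : ℤ) : ℝ) := by
  unfold w7
  rw [pt_inner]
  push_cast
  rfl

/-- Seven directions in the open half space of `n`, one of them `n` itself. -/
theorem exists_seven (n : E3) (hn : n ≠ 0) : ∃ f : Fin 7 → E3, f 0 = n ∧
    (∀ i, 0 < inner ℝ (f i) n) ∧ (∀ i j, i ≠ j → ‖f i‖ < ‖f i - f j‖) ∧
    (∀ i, i ≠ 0 → inner ℝ (f i - n) n < 0) := by
  have h0 : w7 0 ≠ 0 := by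
    intro h
    have h1 : inner ℝ (w7 0) (w7 0) = 0 := by rw [h, inner_zero_left]
    rw [w7_inner] at h1
    have h2 := v7_pos 0
    have h3 : (∑ k, v7 0 k * v7 0 k : ℤ) = 0 := by exact_mod_cast h1
    omega
  obtain ⟨Q, c, hc, hQ⟩ := exists_rot (w7 0) n h0 hn
  have hn' : n = c⁻¹ • Q (w7 0) := by
    rw [hQ, smul_smul, inv_mul_cancel₀ hc.ne', one_smul]
  have hc' : 0 < c⁻¹ := inv_pos.mpr hc
  have hin : ∀ i j, inner ℝ (c⁻¹ • Q (w7 i)) (c⁻¹ • Q (w7 j))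
      = c⁻¹ * (c⁻¹ * ((∑ k, v7 i k * v7 j k : ℤ) : ℝ)) := by
    intro i j
    rw [inner_smul_left, inner_smul_right, Q.inner_map_map, w7_inner]
    simp
  refine ⟨fun i => c⁻¹ • Q (w7 i), hn'.symm, ?_, ?_, ?_⟩
  · intro i
    have h1 : inner ℝ (c⁻¹ • Q (w7 i)) n = inner ℝ (c⁻¹ • Q (w7 i)) (c⁻¹ • Q (w7 0)) := by
      rw [← hn']
    have h2 : (0 : ℝ) < ((∑ k, v7 i k * v7 0 k : ℤ) : ℝ) := by exact_mod_cast v7_pos i
    show 0 < inner ℝ (c⁻¹ • Q (w7 i)) n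
    rw [h1, hin]
    positivity
  · intro i j hij
    rw [lt_iff3, hin, hin]
    have h2 : 2 * ((∑ k, v7 i k * v7 j k : ℤ) : ℝ) < ((∑ k, v7 j k * v7 j k : ℤ) : ℝ) := by
      exact_mod_cast v7_lt i j hij
    have h3 := mul_lt_mul_of_pos_left h2 (mul_pos hc' hc')
    nlinarith
  · intro i hi
    have h1 : inner ℝ (c⁻¹ • Q (w7 i) - n) n
        = inner ℝ (c⁻¹ • Q (w7 i)) (c⁻¹ • Q (w7 0))
          - inner ℝ (c⁻¹ • Q (w7 0)) (c⁻¹ • Q (w7 0)) := by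
      rw [← hn', inner_sub_left]
    have h2 : ((∑ k, v7 i k * v7 0 k : ℤ) : ℝ) < ((∑ k, v7 0 k * v7 0 k : ℤ) : ℝ) := by
      exact_mod_cast v7_neg i hi
    show inner ℝ (c⁻¹ • Q (w7 i) - n) n < 0
    rw [h1, hin, hin]
    have h3 := mul_lt_mul_of_pos_left h2 (mul_pos hc' hc')
    nlinarith

/-- The hexagon orthogonal to `(1,1,1)`. -/
private def c6 : Fin 6 → Fin 3 → ℤ :=
  ![![1, -1, 0], ![0, 1, -1], ![-1, 0, 1], ![-1, 1, 0], ![0, -1, 1], ![1, 0, -1]]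

private def s6 : Fin 6 → ℤ := ![1, 1, 1, -1, -1, -1]

private theorem c6_sum : ∀ i, c6 i 0 + c6 i 1 + c6 i 2 = 0 := by decide

private theorem c6_in : ∀ i j, i ≠ j →
    (c6 i 0 * c6 j 0 + c6 i 1 * c6 j 1 + c6 i 2 * c6 j 2 = 1 ∧ s6 i * s6 j = -1) ∨
    (c6 i 0 * c6 j 0 + c6 i 1 * c6 j 1 + c6 i 2 * c6 j 2 ≤ -1 ∧ s6 i * s6 j ≤ 1) := by decide

private theorem c6_nn : ∀ i, c6 i 0 * c6 i 0 + c6 i 1 * c6 i 1 + c6 i 2 * c6 i 2 = 2 := by decide

private theorem s6_abs : ∀ i, s6 i = 1 ∨ s6 i = -1 := by decide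

private noncomputable def w6 (t : ℝ) (i : Fin 6) : E3 :=
  pt (fun k => t * (s6 i : ℝ) + (c6 i k : ℝ))

private noncomputable def n6 : E3 := pt (fun _ => 1)

private theorem w6_inner (t : ℝ) (i j : Fin 6) : inner ℝ (w6 t i) (w6 t j) =
    3 * t ^ 2 * ((s6 i * s6 j : ℤ) : ℝ) +
      ((c6 i 0 * c6 j 0 + c6 i 1 * c6 j 1 + c6 i 2 * c6 j 2 : ℤ) : ℝ) := by
  have h1 : (c6 i 0 : ℝ) + c6 i 1 + c6 i 2 = 0 := by exact_mod_cast c6_sum i
  have h2 : (c6 j 0 : ℝ) + c6 j 1 + c6 j 2 = 0 := by exact_mod_cast c6_sum j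
  unfold w6
  rw [pt_inner, Fin.sum_univ_three]
  push_cast
  linear_combination (t * (s6 j : ℝ)) * h1 + (t * (s6 i : ℝ)) * h2

private theorem w6_n6 (t : ℝ) (i : Fin 6) : inner ℝ (w6 t i) n6 = 3 * t * (s6 i : ℝ) := by
  have h1 : (c6 i 0 : ℝ) + c6 i 1 + c6 i 2 = 0 := by exact_mod_cast c6_sum i
  unfold w6 n6
  rw [pt_inner, Fin.sum_univ_three]
  linear_combination h1

private theorem w6_self (t : ℝ) (i : Fin 6) : inner ℝ (w6 t i) (w6 t i) = 3 * t ^ 2 + 2 := by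
  rw [w6_inner, c6_nn]
  rcases s6_abs i with h | h <;> rw [h] <;> norm_num

/-- Six directions almost in the plane orthogonal to `n`. -/
theorem exists_six (n : E3) (hn : n ≠ 0) (η : ℝ) (hη : 0 < η) : ∃ f : Fin 6 → E3,
    (∀ i, |inner ℝ (f i) n| < η) ∧ (∀ i j, i ≠ j → ‖f i‖ < ‖f i - f j‖) ∧
    (∀ i, 1 ≤ ‖f i‖ ∧ ‖f i‖ ≤ 2) := by
  have h0 : n6 ≠ 0 := by
    intro h
    have h1 : inner ℝ n6 n6 = 0 := by rw [h, inner_zero_left]
    unfold n6 at h1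
    rw [pt_inner, Fin.sum_univ_three] at h1
    norm_num at h1
  obtain ⟨Q, c, hc, hQ⟩ := exists_rot n6 n h0 hn
  have hn' : n = c⁻¹ • Q n6 := by
    rw [hQ, smul_smul, inv_mul_cancel₀ hc.ne', one_smul]
  have hc' : 0 < c⁻¹ := inv_pos.mpr hc
  obtain ⟨t, ht, ht1, ht2⟩ : ∃ t : ℝ, 0 < t ∧ t ≤ 1 / 2 ∧ c⁻¹ * (3 * t) < η := by
    refine ⟨min (1 / 2) (η * c / 6), by positivity, min_le_left _ _, ?_⟩
    have h1 : min (1 / 2) (η * c / 6) ≤ η * c / 6 := min_le_right _ _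
    have h2 : c⁻¹ * (3 * min (1 / 2) (η * c / 6)) ≤ c⁻¹ * (3 * (η * c / 6)) :=
      mul_le_mul_of_nonneg_left (by linarith) hc'.le
    have h3 : c⁻¹ * (3 * (η * c / 6)) = η / 2 := by
      field_simp
      norm_num
    linarith
  have hns : ∀ i, ‖w6 t i‖ ^ 2 = 3 * t ^ 2 + 2 := by
    intro i
    rw [← real_inner_self_eq_norm_sq, w6_self]
  refine ⟨fun i => Q (w6 t i), ?_, ?_, ?_⟩
  · intro i
    have h1 : inner ℝ (Q (w6 t i)) n = c⁻¹ * (3 * t * (s6 i : ℝ)) := by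
      rw [hn', inner_smul_right, Q.inner_map_map, w6_n6]
    show |inner ℝ (Q (w6 t i)) n| < η
    rw [h1]
    rcases s6_abs i with h | h
    · rw [h, abs_of_pos (by push_cast; positivity)]
      push_cast; linarith
    · have h2 : c⁻¹ * (3 * t * ((-1 : ℤ) : ℝ)) = -(c⁻¹ * (3 * t)) := by push_cast; ring
      rw [h, h2, abs_neg, abs_of_pos (by positivity)]
      exact ht2
  · intro i j hij
    rw [lt_iff3, Q.inner_map_map, Q.inner_map_map, w6_self, w6_inner]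
    have ht2 : 0 < t ^ 2 := by positivity
    have ht3 : t ^ 2 ≤ 1 / 4 := by nlinarith
    rcases c6_in i j hij with ⟨h1, h2⟩ | ⟨h1, h2⟩
    · rw [h1, h2]; push_cast; linarith
    · have h3 : ((c6 i 0 * c6 j 0 + c6 i 1 * c6 j 1 + c6 i 2 * c6 j 2 : ℤ) : ℝ) ≤ -1 := by
        exact_mod_cast h1
      have h4 : ((s6 i * s6 j : ℤ) : ℝ) ≤ 1 := by exact_mod_cast h2
      nlinarith
  · intro i
    rw [Q.norm_map]
    have h1 := hns i
    have ht3 : t ^ 2 ≤ 1 / 4 := by nlinarith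
    constructor
    · nlinarith [norm_nonneg (w6 t i), sq_nonneg t]
    · nlinarith [norm_nonneg (w6 t i), sq_nonneg t]

end Pool.Agent.TD25
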