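import Pool.Agent.TD25.Defs

/-! # TD25, module Star: the drawing of a star -/

set_option autoImplicit false

namespace Pool.Agent.TD25

open Finset

variable {V : Type*} [Fintype V] [DecidableEq V]

/-- The star `{c} ∪ N`, `N` a set of neighbours of `c`, drawn with `c` at `0` and the points of
`N` at `g y` (`‖g y‖ < ‖g y - g y'‖`), is a strict drawing.  Edges inside the star: `(c, par c)`
and `(y, par y = c)` for the children `y ∈ N`; no two neighbours of `c` are adjacent (depths). -/
theorem star (R : Rt V) (c : V) (N : Finset V) (hN : ∀ y ∈ N, R.Adj c y) (p : V → E3)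
    (hc : p c = 0) (h0 : ∀ y ∈ N, p y ≠ 0)
    (hd : ∀ y ∈ N, ∀ y' ∈ N, y ≠ y' → ‖p y‖ < ‖p y - p y'‖) :
    Draw R (insert c N) p := by
  refine ⟨?_, ?_⟩
  · have h1 : ∀ u ∈ N, ∀ z ∈ N, u ≠ z → p u ≠ p z := by
      intro u hu z hz hne heq
      have := hd u hu z hz hne
      rw [heq, sub_self, norm_zero] at this
      exact absurd this (not_lt.mpr (norm_nonneg _))
    intro u hu z hz hne
    rcases mem_insert.mp hu with hu | hu <;> rcases mem_insert.mp hz with hz | hz
    · exact absurd (hu.trans hz.symm) hne
    · rw [hu, hc]; exact (h0 z hz).symm
    · rw [hz, hc]; exact h0 u hu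
    · exact h1 u hu z hz hne
  · intro v hv hvr hpv u hu z hz hDu hDz
    rcases mem_insert.mp hv with hv | hv
    · -- v = c
      subst hv
      have hpN : R.par v ∈ N := by
        rcases mem_insert.mp hpv with h | h
        · exact absurd h (R.par_ne hvr)
        · exact h
      have hz' : z = R.par v := by
        rcases mem_insert.mp hz with h | h
        · rw [h] at hDz; exact absurd (R.D_refl v) hDz
        · rcases hN z h with ⟨_, h2⟩ | ⟨_, h2⟩
          · exact h2.symm
          · exact absurd (h2 ▸ R.D_par z) hDz
      rcases mem_insert.mp hu with h | h
      · right; exact ⟨h, hz'⟩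
      · left
        have hne : R.par v ≠ u := by
          intro he
          rw [← he] at hDu
          exact R.not_D_par hvr hDu
        rw [hc, hz', zero_sub, norm_neg, norm_sub_rev]
        exact hd _ hpN u h hne
    · rcases hN v hv with ⟨hcr, h2⟩ | ⟨_, h2⟩
      · -- v = par c
        exfalso
        have d1 := R.dep_par c hcr
        have d2 := R.dep_par v hvr
        rw [h2] at d1
        rcases mem_insert.mp hpv with h | h
        · rw [h] at d2; omega
        · rcases hN _ h with ⟨_, h3⟩ | ⟨h3, h4⟩
          · rw [h2] at h3
            exact R.par_ne hvr h3.symm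
          · have d3 := R.dep_par _ h3
            rw [h4] at d3
            omega
      · -- par v = c
        have hDc : ¬ R.D v c := by
          intro h
          rw [← h2] at h
          exact R.not_D_par hvr h
        have huv : u = v := by
          rcases mem_insert.mp hu with h | h
          · rw [h] at hDu; exact absurd hDu hDc
          · rcases hN u h with ⟨_, h3⟩ | ⟨_, h3⟩
            · exfalso
              rw [← h3] at hDu
              exact hDc (R.D_trans hDu (R.D_par c))
            · rcases R.D_step hDu with h4 | h4
              · exact h4.symm
              · rw [h3] at h4; exact absurd h4 hDc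
        rcases mem_insert.mp hz with h | h
        · right; exact ⟨huv, by rw [h, h2]⟩
        · left
          have hne : v ≠ z := by
            intro he
            rw [← he] at hDz; exact hDz (R.D_refl v)
          rw [h2, hc, sub_zero, huv]
          exact hd v hv z h hne

end Pool.Agent.TD25
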