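import Pool.Agent.TD25.Glue
import Pool.Agent.TD25.Star

/-! # TD25, module Glue2: gluing, uniformly in the small drawing -/

set_option autoImplicit false

namespace Pool.Agent.TD25

open Finset Filter Topology

variable {V : Type*} [Fintype V] [DecidableEq V]

theorem norm_grow2 (n f : E3) {δ : ℝ} (hδ : 0 < δ) (h : -(δ / 2) < inner ℝ f n)
    (hf : 1 ≤ ‖f‖) : ‖n‖ < ‖n + δ • f‖ := by
  have h1 : ‖n + δ • f‖ ^ 2 = ‖n‖ ^ 2 + 2 * (δ * inner ℝ f n) + (δ * ‖f‖) ^ 2 := by
    rw [norm_add_sq_real, inner_smul_right, norm_smul, Real.norm_of_nonneg hδ.le,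
      real_inner_comm]
  have h2 : -(δ * (δ / 2)) < δ * inner ℝ f n := by
    have := mul_lt_mul_of_pos_left h hδ
    linarith [this, mul_neg δ (δ / 2)]
  have h3 : δ * δ ≤ (δ * ‖f‖) ^ 2 := by
    have h4 : δ ≤ δ * ‖f‖ := le_mul_of_one_le_right hδ.le hf
    nlinarith
  have h4 : ‖n‖ ^ 2 < ‖n + δ • f‖ ^ 2 := by
    rw [h1]; linarith
  exact lt_of_pow_lt_pow_left₀ 2 (norm_nonneg _) h4

theorem norm_grow3 (n f : E3) {δ : ℝ} (hδ : 0 < δ) (h : 0 ≤ inner ℝ f n)
    (hf : 0 < ‖f‖) : ‖n‖ < ‖n + δ • f‖ := by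
  have h1 : ‖n + δ • f‖ ^ 2 = ‖n‖ ^ 2 + 2 * (δ * inner ℝ f n) + (δ * ‖f‖) ^ 2 := by
    rw [norm_add_sq_real, inner_smul_right, norm_smul, Real.norm_of_nonneg hδ.le,
      real_inner_comm]
  have h2 : 0 ≤ δ * inner ℝ f n := mul_nonneg hδ.le h
  have h3 : 0 < (δ * ‖f‖) ^ 2 := by positivity
  have h4 : ‖n‖ ^ 2 < ‖n + δ • f‖ ^ 2 := by
    rw [h1]; linarith
  exact lt_of_pow_lt_pow_left₀ 2 (norm_nonneg _) h4

/-- **Uniform gluing.** -/
theorem glue_unif (R : Rt V) {A B : Finset V} {w : V} {pA : V → E3} (hwA : w ∈ A)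
    (hwB : w ∈ B) (hAB : ∀ x ∈ A, x ∈ B → x = w)
    (hE : ∀ v ∈ A ∪ B, v ≠ R.r → R.par v ∈ A ∪ B →
      (v ∈ A ∧ R.par v ∈ A) ∨ (v ∈ B ∧ R.par v ∈ B))
    (hA : ∀ v ∈ A, v ≠ R.r → R.par v ∈ A → ∀ z ∈ B, (R.D v z ↔ R.D v w))
    (hB : ∀ v ∈ B, v ≠ R.r → R.par v ∈ B → ∀ u ∈ A, (R.D v u ↔ R.D v w))
    (dA : Draw R A pA) (C : ℝ) :
    ∀ᶠ δ in 𝓝[>] (0 : ℝ), ∀ pB : V → E3, (∀ x ∈ B, ∀ y ∈ B, ‖pB x - pB y‖ ≤ C) →
      Draw R B pB →
      (∀ a ∈ A, R.Adj a w → ∀ z ∈ B, z ≠ w →
        ‖pA w - pA a‖ < ‖(pA w - pA a) + δ • (pB z - pB w)‖) →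
      Draw R (A ∪ B) (gl A w pA pB δ) := by
  classical
  have hlim : ∀ c : ℝ, Tendsto (fun δ : ℝ => c - δ * C) (𝓝[>] (0 : ℝ)) (𝓝 c) := by
    intro c
    have hc : Continuous (fun δ : ℝ => c - δ * C) := by fun_prop
    have h := (hc.tendsto 0).mono_left (nhdsWithin_le_nhds (s := Set.Ioi (0 : ℝ)))
    simpa using h
  have hlim0 : Tendsto (fun δ : ℝ => δ * C) (𝓝[>] (0 : ℝ)) (𝓝 0) := by
    have hc : Continuous (fun δ : ℝ => δ * C) := by fun_prop
    have h := (hc.tendsto 0).mono_left (nhdsWithin_le_nhds (s := Set.Ioi (0 : ℝ)))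
    simpa using h
  have e1 : ∀ᶠ δ in 𝓝[>] (0 : ℝ), ∀ v u : V, ‖pA v - pA (R.par v)‖ < ‖pA u - pA w‖ →
      ‖pA v - pA (R.par v)‖ < ‖pA u - pA w‖ - δ * C := by
    rw [eventually_all]; intro v
    rw [eventually_all]; intro u
    by_cases h : ‖pA v - pA (R.par v)‖ < ‖pA u - pA w‖
    · filter_upwards [(hlim ‖pA u - pA w‖).eventually (lt_mem_nhds h)] with δ hδ _ using hδ
    · exact Eventually.of_forall (fun δ h' => absurd h' h)
  have e2 : ∀ᶠ δ in 𝓝[>] (0 : ℝ), ∀ u : V, pA u ≠ pA w →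
      δ * C < ‖pA u - pA w‖ - δ * C := by
    rw [eventually_all]; intro u
    by_cases h : pA u ≠ pA w
    · have h0 : 0 < ‖pA u - pA w‖ := norm_pos_iff.mpr (sub_ne_zero.mpr h)
      filter_upwards [hlim0.eventually_lt (hlim ‖pA u - pA w‖) h0] with δ hδ _ using hδ
    · exact Eventually.of_forall (fun δ h' => absurd h' h)
  filter_upwards [e1, e2, self_mem_nhdsWithin] with δ h1' h2' hδ
  intro pB hbd dB hang
  have hδ0 : (0 : ℝ) < δ := hδ
  have hlow : ∀ u : V, ∀ z ∈ B, ‖pA u - pA w‖ - δ * C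
      ≤ ‖pA u - (pA w + δ • (pB z - pB w))‖ := by
    intro u z hz
    have h3 := norm_sub_norm_le (pA u - pA w) (δ • (pB z - pB w))
    rw [norm_smul, Real.norm_of_nonneg hδ0.le] at h3
    have h4 := mul_le_mul_of_nonneg_left (hbd z hz w hwB) hδ0.le
    rw [← sub_sub]
    linarith
  have h1 : ∀ v u : V, ∀ z ∈ B, ‖pA v - pA (R.par v)‖ < ‖pA u - pA w‖ →
      ‖pA v - pA (R.par v)‖ < ‖pA u - (pA w + δ • (pB z - pB w))‖ :=
    fun v u z hz h => lt_of_lt_of_le (h1' v u h) (hlow u z hz)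
  have h2 : ∀ v ∈ B, R.par v ∈ B → ∀ u : V, ∀ z ∈ B, pA u ≠ pA w →
      δ * ‖pB v - pB (R.par v)‖ < ‖pA u - (pA w + δ • (pB z - pB w))‖ := by
    intro v hv hpv u z hz h
    have h4 := mul_le_mul_of_nonneg_left (hbd v hv _ hpv) hδ0.le
    exact lt_of_le_of_lt h4 (lt_of_lt_of_le (h2' u h) (hlow u z hz))
  have gA : ∀ x ∈ A, gl A w pA pB δ x = pA x := fun x hx => gl_A hx
  have gB : ∀ x ∈ B, gl A w pA pB δ x = pA w + δ • (pB x - pB w) :=
    fun x hx => gl_B hwA hAB hx
  have hBB : ∀ x y : V, (pA w + δ • (pB x - pB w)) - (pA w + δ • (pB y - pB w))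
      = δ • (pB x - pB y) := by
    intro x y
    rw [add_sub_add_left_eq_sub, ← smul_sub, sub_sub_sub_cancel_right]
  have hneg : ∀ a b y : E3, a - (b + δ • y) = -((b - a) + δ • y) := by
    intro a b y; abel
  have key : ∀ u ∈ A, u ≠ w → ∀ z ∈ B, 0 < ‖gl A w pA pB δ u - gl A w pA pB δ z‖ := by
    intro u hu huw z hz
    rw [gA u hu, gB z hz]
    have h3 := h2' u (dA.1 u hu w hwA huw)
    have h4 := hlow u z hz
    have h5 : 0 ≤ δ * C := by
      have := mul_le_mul_of_nonneg_left (hbd w hwB w hwB) hδ0.le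
      rw [sub_self, norm_zero, mul_zero] at this
      exact this
    linarith
  refine ⟨?_, ?_⟩
  · -- injectivity
    have both : ∀ u ∈ B, ∀ z ∈ B, u ≠ z → gl A w pA pB δ u ≠ gl A w pA pB δ z := by
      intro u hu z hz hne heq
      rw [gB u hu, gB z hz, ← sub_eq_zero, hBB, smul_eq_zero] at heq
      rcases heq with h | h
      · exact absurd h hδ0.ne'
      · exact dB.1 u hu z hz hne (sub_eq_zero.mp h)
    have mixed : ∀ u ∈ A, ∀ z ∈ B, u ≠ z → gl A w pA pB δ u ≠ gl A w pA pB δ z := by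
      intro u hu z hz hne heq
      by_cases huw : u = w
      · exact both u (huw ▸ hwB) z hz hne heq
      · have := key u hu huw z hz
        rw [heq, sub_self, norm_zero] at this
        exact lt_irrefl _ this
    intro u hu z hz hne
    rcases mem_union.mp hu with hu | hu <;> rcases mem_union.mp hz with hz | hz
    · rw [gA u hu, gA z hz]; exact dA.1 u hu z hz hne
    · exact mixed u hu z hz hne
    · exact (mixed z hz u hu hne.symm).symm
    · exact both u hu z hz hne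
  · intro v hv hvr hpv u hu z hz hDu hDz
    rcases hE v hv hvr hpv with ⟨hvA, hpA⟩ | ⟨hvB, hpB⟩
    · rw [gA v hvA, gA _ hpA]
      rcases mem_union.mp hu with hu | hu <;> rcases mem_union.mp hz with hz | hz
      · rw [gA u hu, gA z hz]; exact dA.2 v hvA hvr hpA u hu z hz hDu hDz
      · rw [gA u hu, gB z hz]
        have hDw : ¬ R.D v w := fun h => hDz ((hA v hvA hvr hpA z hz).mpr h)
        rcases dA.2 v hvA hvr hpA u hu w hwA hDu hDw with h | ⟨h, h'⟩
        · left; exact h1 v u z hz h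
        · by_cases hzw : z = w
          · right; exact ⟨h, hzw.trans h'⟩
          · left
            have hg := hang v hvA (Or.inl ⟨hvr, h'.symm⟩) z hz hzw
            rw [h, ← h', hneg, norm_neg, norm_sub_rev]
            exact hg
      · rw [gB u hu, gA z hz]
        have hDw : R.D v w := (hA v hvA hvr hpA u hu).mp hDu
        rcases dA.2 v hvA hvr hpA w hwA z hz hDw hDz with h | ⟨h, h'⟩
        · left
          rw [norm_sub_rev (pA w + δ • (pB u - pB w))]
          exact h1 v z u hu (by rwa [norm_sub_rev (pA z)])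
        · by_cases huw : u = w
          · right; exact ⟨huw.trans h, h'⟩
          · left
            have hwr : w ≠ R.r := by rw [h]; exact hvr
            have hg := hang z hz (Or.inr ⟨hwr, by rw [h]; exact h'.symm⟩) u hu huw
            rw [← h', ← h, add_sub_right_comm]
            exact hg
      · exact absurd ((hA v hvA hvr hpA z hz).mpr ((hA v hvA hvr hpA u hu).mp hDu)) hDz
    · have hle : ‖gl A w pA pB δ v - gl A w pA pB δ (R.par v)‖
          = δ * ‖pB v - pB (R.par v)‖ := by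
        rw [gB v hvB, gB _ hpB, hBB, norm_smul, Real.norm_of_nonneg hδ0.le]
      rw [hle]
      have both : u ∈ B → z ∈ B → δ * ‖pB v - pB (R.par v)‖
          < ‖gl A w pA pB δ u - gl A w pA pB δ z‖ ∨ (u = v ∧ z = R.par v) := by
        intro hu hz
        rcases dB.2 v hvB hvr hpB u hu z hz hDu hDz with h | h
        · left
          rw [gB u hu, gB z hz, hBB, norm_smul, Real.norm_of_nonneg hδ0.le]
          exact mul_lt_mul_of_pos_left h hδ0
        · right; exact h
      rcases mem_union.mp hu with hu | hu <;> rcases mem_union.mp hz with hz | hz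
      · exact absurd ((hB v hvB hvr hpB z hz).mpr ((hB v hvB hvr hpB u hu).mp hDu)) hDz
      · by_cases huw : u = w
        · exact both (huw ▸ hwB) hz
        · left
          rw [gA u hu, gB z hz]
          exact h2 v hvB hpB u z hz (dA.1 u hu w hwA huw)
      · by_cases hzw : z = w
        · exact both hu (hzw ▸ hwB)
        · left
          rw [gA z hz, gB u hu, norm_sub_rev (pA w + δ • (pB u - pB w))]
          exact h2 v hvB hpB z u hu (dA.1 z hz w hwA hzw)
      · exact both hu hz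

omit [Fintype V] in
/-- Extreme points of the union, for all `δ > 0`. -/
theorem glue_ext_all {A B : Finset V} {w x : V} {pA pB : V → E3} {m : E3} (hwA : w ∈ A)
    (hwB : w ∈ B) (hAB : ∀ x ∈ A, x ∈ B → x = w) (hx : x ∈ B) (eA : Ext A pA w m)
    (eB : Ext B pB x m) {δ : ℝ} (hδ0 : 0 < δ) :
    Ext (A ∪ B) (gl A w pA pB δ) x m := by
  intro z hz hzx
  rw [gl_B (pA := pA) (pB := pB) (δ := δ) hwA hAB hx]
  rcases mem_union.mp hz with hzA | hzB
  · by_cases hzw : z = w
    · have hwx : w ≠ x := fun h => hzx (hzw.trans h)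
      have h := eB w hwB hwx
      rw [gl_A hzA, hzw]
      have : pA w - (pA w + δ • (pB x - pB w)) = δ • (pB w - pB x) := by
        rw [sub_add_cancel_left, ← smul_neg, neg_sub]
      rw [this, inner_smul_left]
      simp only [conj_trivial]
      exact mul_neg_of_pos_of_neg hδ0 h
    · have h := eA z hzA hzw
      rw [gl_A hzA, ← sub_sub, inner_sub_left, inner_smul_left]
      simp only [conj_trivial]
      by_cases hwx : w = x
      · rw [← hwx, sub_self, inner_zero_left, mul_zero, sub_zero]; exact h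
      · have h' := eB w hwB hwx
        have h'' : inner ℝ (pB x - pB w) m = - inner ℝ (pB w - pB x) m := by
          rw [← inner_neg_left, neg_sub]
        have h3 : 0 < δ * inner ℝ (pB x - pB w) m := by
          rw [h'']; exact mul_pos hδ0 (by linarith)
        linarith
  · have h := eB z hzB hzx
    rw [gl_B (pA := pA) (pB := pB) (δ := δ) hwA hAB hzB]
    have : (pA w + δ • (pB z - pB w)) - (pA w + δ • (pB x - pB w)) = δ • (pB z - pB x) := by
      rw [add_sub_add_left_eq_sub, ← smul_sub, sub_sub_sub_cancel_right]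
    rw [this, inner_smul_left]
    simp only [conj_trivial]
    exact mul_neg_of_pos_of_neg hδ0 h

end Pool.Agent.TD25
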