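import Pool.Agent.TD25.Chain
import Pool.Agent.TD25.Glue2
import Pool.Agent.TD25.Cfg2

/-! # TD25, module Chain2: the cluster around a vertex of high degree and the path up from it,
intermediate degrees at most 10 -/

set_option autoImplicit false

namespace Pool.Agent.TD25

open Finset Filter Topology

variable {V : Type*} [Fintype V] [DecidableEq V]

/-- Star at a leaf: if `w` is a leaf of the strict drawing of `A` with extreme normal `m`, all
new neighbours `N` of `w` (at most 9) can be added so that the given `x ∈ N` is extreme. -/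
theorem chain2 (R : Rt V) (c : V) (hc : (nb R c).card ≤ 12) (i : ℕ) (hi : 1 ≤ i)
    (hr : ∀ j < i, R.par^[j] c ≠ R.r)
    (hdeg : ∀ j, 0 < j → j < i → (nb R (R.par^[j] c)).card ≤ 10) :
    ∃ p m, Draw R (SS R c i) p ∧ Ext (SS R c i) p (R.par^[i] c) m := by
  induction i, hi using Nat.le_induction with
  | base => exact chain_one R c hc (hr 0 (by omega))
  | succ i hi ih =>
    obtain ⟨pA, m, dA, eA⟩ := ih (fun j hj => hr j (by omega)) (fun j h0 hj => hdeg j h0 (by omega))
    obtain ⟨n, rfl⟩ : ∃ n, i = n + 1 := ⟨i - 1, by omega⟩
    have hcard : (nb R (R.par^[n + 1] c)).card ≤ 10 := hdeg (n + 1) (by omega) (by omega)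
    have har : R.par^[n] c ≠ R.r := hr n (by omega)
    have hwr : R.par^[n + 1] c ≠ R.r := hr (n + 1) (by omega)
    have hS := SS_succ R c (n + 1)
    have F1 : ∀ x ∈ SS R c (n + 1), R.D (R.par^[n + 1] c) x := fun x hx => SS_D hx
    have F2 : ∀ x ∈ SS R c (n + 1), x ≠ R.par^[n + 1] c → R.D (R.par^[n] c) x :=
      fun x hx h => SS_D' hx h
    have haA : R.par^[n] c ∈ SS R c (n + 1) := mem_SS.mpr ⟨n, by omega, Or.inl rfl⟩
    have hpar : R.par (R.par^[n] c) = R.par^[n + 1] c := (Function.iterate_succ_apply' _ _ _).symm
    have hwA : R.par^[n + 1] c ∈ SS R c (n + 1) :=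
      mem_SS.mpr ⟨n, by omega, Or.inr (Or.inl ⟨har, hpar⟩)⟩
    have hxx : R.par^[n + 1 + 1] c = R.par (R.par^[n + 1] c) := Function.iterate_succ_apply' _ _ _
    rw [hS, hxx]
    clear hS hxx
    generalize hA' : SS R c (n + 1) = A at *
    generalize hw' : R.par^[n + 1] c = w at *
    generalize ha' : R.par^[n] c = a at *
    have haw : a ≠ w := by rw [← hpar]; exact (R.par_ne har).symm
    have hna : ¬ R.D a w := by rw [← hpar]; exact R.not_D_par har
    have hnpw : ¬ R.D a (R.par w) := fun h => hna (R.D_trans h (R.D_par w))
    have hnw : ¬ R.D w (R.par w) := R.not_D_par hwr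
    have han : a ∈ nb R w := mem_nb.mpr (Or.inr ⟨har, hpar⟩)
    have hcN : ((nb R w).erase a).card ≤ 9 := by
      rw [card_erase_of_mem han]; omega
    have hxN : R.par w ∈ (nb R w).erase a := by
      refine mem_erase.mpr ⟨?_, mem_nb.mpr (Or.inl ⟨hwr, rfl⟩)⟩
      intro h; exact hnpw (h ▸ R.D_refl _)
    have hUn : A ∪ insert w (nb R w) = A ∪ insert w ((nb R w).erase a) := by
      ext y
      simp only [mem_union, mem_insert, mem_erase]
      by_cases hy : y = a
      · subst hy; simp [haA]
      · simp [hy]
    rw [hUn]
    have hn1 : pA w - pA a ≠ 0 := sub_ne_zero.mpr (dA.1 w hwA a haA haw.symm)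
    have hm1 : 0 < inner ℝ (pA w - pA a) m := by
      have := eA a haA haw
      rw [← neg_sub, inner_neg_left]; linarith
    have hadj : ∀ y ∈ (nb R w).erase a, R.Adj w y := fun y hy => mem_nb.mp (mem_erase.mp hy).2
    -- every vertex of the union is below w or is par w
    have hAB : ∀ y ∈ A, y ∈ insert w ((nb R w).erase a) → y = w := by
      intro y hy hyB
      rcases mem_insert.mp hyB with h | h
      · exact h
      · exfalso
        have hya : y ≠ a := (mem_erase.mp h).1
        have hyw : y ≠ w := (R.adj_ne (hadj y h)).symm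
        have hD := F2 y hy hyw
        rcases hadj y h with ⟨_, h1⟩ | ⟨_, h1⟩
        · rw [← h1] at hD; exact hnpw hD
        · rcases R.D_step hD with h2 | h2
          · exact hya h2.symm
          · rw [h1] at h2; exact hna h2
    have hpx : ∀ v, v = R.par w → v ≠ R.r → R.par v ∉ A ∪ insert w ((nb R w).erase a) := by
      intro v hv hvr hmem
      have d1 := R.dep_par w hwr
      have d2 := R.dep_par v hvr
      rw [← hv] at d1
      have hDw : ¬ R.D w (R.par v) := fun h => by
        have := R.D_dep h; omega
      rcases mem_union.mp hmem with h | h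
      · exact hDw (F1 _ h)
      · rcases mem_insert.mp h with h | h
        · exact hDw (h ▸ R.D_refl _)
        · rcases hadj _ h with ⟨_, h1⟩ | ⟨_, h1⟩
          · rw [← hv] at h1; exact R.par_ne hvr h1.symm
          · exact hDw (h1 ▸ R.D_par _)
    have hE : ∀ v ∈ A ∪ insert w ((nb R w).erase a), v ≠ R.r →
        R.par v ∈ A ∪ insert w ((nb R w).erase a) →
        (v ∈ A ∧ R.par v ∈ A) ∨
        (v ∈ insert w ((nb R w).erase a) ∧ R.par v ∈ insert w ((nb R w).erase a)) := by
      intro v hv hvr hpv
      by_cases hvw : v = w
      · right; rw [hvw]; exact ⟨mem_insert_self _ _, mem_insert_of_mem hxN⟩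
      · rcases mem_union.mp hv with h | h
        · left
          refine ⟨h, ?_⟩
          rcases mem_union.mp hpv with h1 | h1
          · exact h1
          · rcases mem_insert.mp h1 with h2 | h2
            · rw [h2]; exact hwA
            · exfalso
              have hD := F2 v h hvw
              rcases R.D_step hD with h3 | h3
              · rw [← h3, hpar] at h2
                exact R.adj_ne (hadj _ h2) rfl
              · rcases hadj _ h2 with ⟨_, h4⟩ | ⟨_, h4⟩
                · rw [← h4] at h3; exact hnpw h3
                · rcases R.D_step h3 with h5 | h5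
                  · exact (mem_erase.mp h2).1 h5.symm
                  · rw [h4] at h5; exact hna h5
        · right
          refine ⟨h, ?_⟩
          rcases mem_insert.mp h with h1 | h1
          · exact absurd h1 hvw
          · rcases hadj v h1 with ⟨_, h2⟩ | ⟨_, h2⟩
            · exact absurd hpv (hpx v h2.symm hvr)
            · rw [h2]; exact mem_insert_self _ _
    have hA : ∀ v ∈ A, v ≠ R.r → R.par v ∈ A → ∀ z ∈ insert w ((nb R w).erase a),
        (R.D v z ↔ R.D v w) := by
      intro v hv hvr hpv z hz
      have hvw : v ≠ w := by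
        rintro rfl; exact hnw (F1 _ hpv)
      rcases mem_insert.mp hz with h | h
      · rw [h]
      · rcases hadj z h with ⟨_, h1⟩ | ⟨_, h1⟩
        · constructor
          · intro h2; exact R.D_trans h2 (h1 ▸ R.D_par w)
          · intro h2
            rcases R.D_step h2 with h3 | h3
            · exact absurd h3 hvw
            · rw [← h1]; exact h3
        · constructor
          · intro h2
            rcases R.D_step h2 with h3 | h3
            · exfalso
              have : v = w := hAB v hv (h3 ▸ hz)
              exact hvw this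
            · rw [h1] at h3; exact h3
          · intro h2; exact R.D_trans h2 (h1 ▸ R.D_par z)
    have hB : ∀ v ∈ insert w ((nb R w).erase a), v ≠ R.r →
        R.par v ∈ insert w ((nb R w).erase a) → ∀ u ∈ A, (R.D v u ↔ R.D v w) := by
      intro v hv hvr hpv u hu
      rcases mem_insert.mp hv with h | h
      · rw [h]; exact iff_of_true (F1 u hu) (R.D_refl w)
      · rcases hadj v h with ⟨_, h1⟩ | ⟨_, h1⟩
        · exact absurd (mem_union_right A hpv) (hpx v h1.symm hvr)
        · have hvw : ¬ R.D v w := by rw [← h1]; exact R.not_D_par hvr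
          refine iff_of_false ?_ hvw
          intro hD
          by_cases huw : u = w
          · rw [huw] at hD; exact hvw hD
          · have h2 := F2 u hu huw
            have d1 := R.dep_par a har
            have d2 := R.dep_par v hvr
            rw [hpar] at d1
            rw [h1] at d2
            exact (mem_erase.mp h).1 (R.D_eq_of_dep hD h2 (by omega))
    have E1 := glue_unif R hwA (mem_insert_self w _) hAB hE hA hB dA 4
    obtain ⟨δ, hglue, hδ⟩ := (E1.and self_mem_nhdsWithin).exists
    have hδ0 : (0 : ℝ) < δ := hδ
    obtain ⟨f, m', hm'U, i₀, f1, f2, fb, f3, f4⟩ := exists_special9 (pA w - pA a) m hn1 hm1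
      (δ / 2) (by linarith) {m : E3 | Ext A pA w m} (isOpen_ext A pA w) eA
    obtain ⟨g, hg, hgx⟩ := exists_inj_to ((nb R w).erase a) 9 hcN (R.par w) i₀
    let pB : V → E3 := fun y => if y = w then 0 else f (g y)
    have pBw : pB w = 0 := if_pos rfl
    have pBn : ∀ y ∈ (nb R w).erase a, pB y = f (g y) := by
      intro y hy
      exact if_neg (R.adj_ne (hadj y hy)).symm
    have dB : Draw R (insert w ((nb R w).erase a)) pB := by
      refine star R w _ hadj pB pBw ?_ ?_
      · intro y hy h0
        have := (fb (g y)).1
        rw [← pBn y hy, h0, norm_zero] at this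
        linarith
      · intro y hy y' hy' hne
        rw [pBn y hy, pBn y' hy']
        exact f2 _ _ (hg y hy y' hy' hne)
    have eB : Ext (insert w ((nb R w).erase a)) pB (R.par w) m' := by
      intro z hz hzx
      rw [pBn _ hxN, hgx]
      rcases mem_insert.mp hz with h | h
      · rw [h, pBw, zero_sub, inner_neg_left]; linarith
      · rw [pBn z h]
        refine f4 _ ?_
        rw [← hgx]
        exact hg z h _ hxN hzx
    have hbn : ∀ y, ‖pB y‖ ≤ 2 := by
      intro y
      by_cases h : y = w
      · rw [h, pBw, norm_zero]; norm_num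
      · have : pB y = f (g y) := if_neg h
        rw [this]; exact (fb _).2
    have hbd : ∀ x ∈ insert w ((nb R w).erase a), ∀ y ∈ insert w ((nb R w).erase a),
        ‖pB x - pB y‖ ≤ 4 := by
      intro x _ y _
      have h1 := norm_sub_le (pB x) (pB y)
      have h2 := hbn x
      have h3 := hbn y
      linarith
    have hang : ∀ a' ∈ A, R.Adj a' w → ∀ z ∈ insert w ((nb R w).erase a), z ≠ w →
        ‖pA w - pA a'‖ < ‖(pA w - pA a') + δ • (pB z - pB w)‖ := by
      intro a' ha'A hadj' z hz hzw
      have haa : a' = a := by
        have hne : a' ≠ w := R.adj_ne hadj'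
        have h2 := F2 a' ha'A hne
        rcases hadj' with ⟨_, h1⟩ | ⟨_, h1⟩
        · rcases R.D_step h2 with h3 | h3
          · exact h3.symm
          · rw [h1] at h3; exact absurd h3 hna
        · rw [← h1] at h2; exact absurd h2 hnpw
      rcases mem_insert.mp hz with h | h
      · exact absurd h hzw
      · rw [haa, pBw, sub_zero, pBn z h]
        exact norm_grow2 _ _ hδ0 (f1 _) (fb _).1
    exact ⟨_, m', hglue pB hbd dB hang,
      glue_ext_all hwA (mem_insert_self w _) hAB (mem_insert_of_mem hxN) hm'U eB hδ0⟩

end Pool.Agent.TD25
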