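import Pool.Agent.TD25.Chain2
import Pool.Agent.TD25.Cfg3

/-! # TD25, module Chain3: straight paths up from a vertex of high degree, degrees at most 8 -/

set_option autoImplicit false

namespace Pool.Agent.TD25

open Finset Filter Topology

variable {V : Type*} [Fintype V] [DecidableEq V]

omit [Fintype V] [DecidableEq V] in
theorem ext_smul {S : Finset V} {p : V → E3} {x : V} {m : E3} (h : Ext S p x m) {δ : ℝ}
    (hδ : 0 < δ) : Ext S p x (δ • m) := by
  intro z hz hzx
  rw [inner_smul_right]
  exact mul_neg_of_pos_of_neg hδ (h z hz hzx)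

/-- The star at `c`; the normal is the direction of the last edge. -/
theorem chain8_one (R : Rt V) (c : V) (hc : (nb R c).card ≤ 12) (hr : c ≠ R.r) :
    ∃ p, Draw R (SS R c 1) p ∧ Ext (SS R c 1) p (R.par c) (p (R.par c) - p c) := by
  obtain ⟨d, d0, d1, d2⟩ := exists_twelve
  obtain ⟨g, hg⟩ := exists_inj (nb R c) 12 hc
  have hSS : SS R c 1 = insert c (nb R c) := by
    ext x; rw [mem_SS, mem_insert, mem_nb]
    constructor
    · rintro ⟨j, hj, h⟩
      have : j = 0 := by omega
      subst this; exact h
    · intro h; exact ⟨0, by omega, h⟩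
  let p : V → E3 := fun y => if y = c then 0 else d (g y)
  have pc : p c = 0 := if_pos rfl
  have pn : ∀ y ∈ nb R c, p y = d (g y) := by
    intro y hy
    exact if_neg (R.adj_ne (mem_nb.mp hy)).symm
  have hx : R.par c ∈ nb R c := mem_nb.mpr (Or.inl ⟨hr, rfl⟩)
  refine ⟨p, ?_, ?_⟩
  · rw [hSS]
    refine star R c (nb R c) (fun y hy => mem_nb.mp hy) p pc ?_ ?_
    · intro y hy; rw [pn y hy]; exact d0 _
    · intro y hy y' hy' hne
      rw [pn y hy, pn y' hy']
      exact d1 _ _ (hg y hy y' hy' hne)
  · rw [hSS]
    intro z hz hzx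
    rw [pn _ hx, pc, sub_zero]
    rcases mem_insert.mp hz with h | h
    · rw [h, pc, zero_sub, inner_neg_left]
      have := real_inner_self_pos.mpr (d0 (g (R.par c)))
      linarith
    · rw [pn z h]
      exact d2 _ _ (fun he => hg z h _ hx hzx he.symm)

/-- A straight path: the normal is the direction of the last edge. -/
theorem chain8 (R : Rt V) (c : V) (hc : (nb R c).card ≤ 12) (n : ℕ)
    (hr : ∀ j < n + 1, R.par^[j] c ≠ R.r)
    (hdeg : ∀ j, 0 < j → j < n + 1 → (nb R (R.par^[j] c)).card ≤ 8) :
    ∃ p, Draw R (SS R c (n + 1)) p ∧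
      Ext (SS R c (n + 1)) p (R.par^[n + 1] c) (p (R.par^[n + 1] c) - p (R.par^[n] c)) := by
  induction n with
  | zero => exact chain8_one R c hc (hr 0 (by omega))
  | succ n ih =>
    obtain ⟨pA, dA, eA⟩ := ih (fun j hj => hr j (by omega)) (fun j h0 hj => hdeg j h0 (by omega))
    have hcard : (nb R (R.par^[n + 1] c)).card ≤ 8 := hdeg (n + 1) (by omega) (by omega)
    have har : R.par^[n] c ≠ R.r := hr n (by omega)
    have hwr : R.par^[n + 1] c ≠ R.r := hr (n + 1) (by omega)
    have hS := SS_succ R c (n + 1)
    have F1 : ∀ x ∈ SS R c (n + 1), R.D (R.par^[n + 1] c) x := fun x hx => SS_D hx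
    have F2 : ∀ x ∈ SS R c (n + 1), x ≠ R.par^[n + 1] c → R.D (R.par^[n] c) x :=
      fun x hx h => SS_D' hx h
    have haA : R.par^[n] c ∈ SS R c (n + 1) := mem_SS.mpr ⟨n, by omega, Or.inl rfl⟩
    have hpar : R.par (R.par^[n] c) = R.par^[n + 1] c := (Function.iterate_succ_apply' _ _ _).symm
    have hwA : R.par^[n + 1] c ∈ SS R c (n + 1) :=
      mem_SS.mpr ⟨n, by omega, Or.inr (Or.inl ⟨har, hpar⟩)⟩
    have hxx : R.par^[n + 1 + 1] c = R.par (R.par^[n + 1] c) := Function.iterate_succ_apply' _ _ _
    rw [hS, hxx]
    clear hS hxx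
    generalize hA' : SS R c (n + 1) = A at *
    generalize hw' : R.par^[n + 1] c = w at *
    generalize ha' : R.par^[n] c = a at *
    have haw : a ≠ w := by rw [← hpar]; exact (R.par_ne har).symm
    have hna : ¬ R.D a w := by rw [← hpar]; exact R.not_D_par har
    have hnpw : ¬ R.D a (R.par w) := fun h => hna (R.D_trans h (R.D_par w))
    have hnw : ¬ R.D w (R.par w) := R.not_D_par hwr
    have han : a ∈ nb R w := mem_nb.mpr (Or.inr ⟨har, hpar⟩)
    have hcN : ((nb R w).erase a).card ≤ 7 := by
      rw [card_erase_of_mem han]; omega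
    have hxN : R.par w ∈ (nb R w).erase a := by
      refine mem_erase.mpr ⟨?_, mem_nb.mpr (Or.inl ⟨hwr, rfl⟩)⟩
      intro h; exact hnpw (h ▸ R.D_refl _)
    have hUn : A ∪ insert w (nb R w) = A ∪ insert w ((nb R w).erase a) := by
      ext y
      simp only [mem_union, mem_insert, mem_erase]
      by_cases hy : y = a
      · subst hy; simp [haA]
      · simp [hy]
    rw [hUn]
    have hn1 : pA w - pA a ≠ 0 := sub_ne_zero.mpr (dA.1 w hwA a haA haw.symm)
    obtain ⟨f, f0, f1, f2, f4⟩ := exists_seven (pA w - pA a) hn1
    obtain ⟨g, hg, hgx⟩ := exists_inj_to ((nb R w).erase a) 7 hcN (R.par w) 0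
    let pB : V → E3 := fun y => if y = w then 0 else f (g y)
    have pBw : pB w = 0 := if_pos rfl
    have hadj : ∀ y ∈ (nb R w).erase a, R.Adj w y := fun y hy => mem_nb.mp (mem_erase.mp hy).2
    have pBn : ∀ y ∈ (nb R w).erase a, pB y = f (g y) := by
      intro y hy
      exact if_neg (R.adj_ne (hadj y hy)).symm
    have dB : Draw R (insert w ((nb R w).erase a)) pB := by
      refine star R w _ hadj pB pBw ?_ ?_
      · intro y hy h0
        have := f1 (g y)
        rw [← pBn y hy, h0, inner_zero_left] at this
        exact lt_irrefl _ this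
      · intro y hy y' hy' hne
        rw [pBn y hy, pBn y' hy']
        exact f2 _ _ (hg y hy y' hy' hne)
    have pBx : pB (R.par w) = pA w - pA a := by rw [pBn _ hxN, hgx, f0]
    have eB : Ext (insert w ((nb R w).erase a)) pB (R.par w) (pA w - pA a) := by
      intro z hz hzx
      rw [pBx]
      rcases mem_insert.mp hz with h | h
      · rw [h, pBw, zero_sub, inner_neg_left]
        have := real_inner_self_pos.mpr hn1
        linarith
      · rw [pBn z h]
        refine f4 _ ?_
        rw [← hgx]
        exact hg z h _ hxN hzx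
    -- every vertex of the union is below w or is par w
    have hAB : ∀ y ∈ A, y ∈ insert w ((nb R w).erase a) → y = w := by
      intro y hy hyB
      rcases mem_insert.mp hyB with h | h
      · exact h
      · exfalso
        have hya : y ≠ a := (mem_erase.mp h).1
        have hyw : y ≠ w := (R.adj_ne (hadj y h)).symm
        have hD := F2 y hy hyw
        rcases hadj y h with ⟨_, h1⟩ | ⟨_, h1⟩
        · rw [← h1] at hD; exact hnpw hD
        · rcases R.D_step hD with h2 | h2
          · exact hya h2.symm
          · rw [h1] at h2; exact hna h2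
    have hpx : ∀ v, v = R.par w → v ≠ R.r → R.par v ∉ A ∪ insert w ((nb R w).erase a) := by
      intro v hv hvr hmem
      have d1 := R.dep_par w hwr
      have d2 := R.dep_par v hvr
      rw [← hv] at d1
      have hDw : ¬ R.D w (R.par v) := fun h => by
        have := R.D_dep h; omega
      rcases mem_union.mp hmem with h | h
      · exact hDw (F1 _ h)
      · rcases mem_insert.mp h with h | h
        · exact hDw (h ▸ R.D_refl _)
        · rcases hadj _ h with ⟨_, h1⟩ | ⟨_, h1⟩
          · rw [← hv] at h1; exact R.par_ne hvr h1.symm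
          · exact hDw (h1 ▸ R.D_par _)
    have hE : ∀ v ∈ A ∪ insert w ((nb R w).erase a), v ≠ R.r →
        R.par v ∈ A ∪ insert w ((nb R w).erase a) →
        (v ∈ A ∧ R.par v ∈ A) ∨
        (v ∈ insert w ((nb R w).erase a) ∧ R.par v ∈ insert w ((nb R w).erase a)) := by
      intro v hv hvr hpv
      by_cases hvw : v = w
      · right; rw [hvw]; exact ⟨mem_insert_self _ _, mem_insert_of_mem hxN⟩
      · rcases mem_union.mp hv with h | h
        · left
          refine ⟨h, ?_⟩
          rcases mem_union.mp hpv with h1 | h1
          · exact h1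
          · rcases mem_insert.mp h1 with h2 | h2
            · rw [h2]; exact hwA
            · exfalso
              have hD := F2 v h hvw
              rcases R.D_step hD with h3 | h3
              · rw [← h3, hpar] at h2
                exact R.adj_ne (hadj _ h2) rfl
              · rcases hadj _ h2 with ⟨_, h4⟩ | ⟨_, h4⟩
                · rw [← h4] at h3; exact hnpw h3
                · rcases R.D_step h3 with h5 | h5
                  · exact (mem_erase.mp h2).1 h5.symm
                  · rw [h4] at h5; exact hna h5
        · right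
          refine ⟨h, ?_⟩
          rcases mem_insert.mp h with h1 | h1
          · exact absurd h1 hvw
          · rcases hadj v h1 with ⟨_, h2⟩ | ⟨_, h2⟩
            · exact absurd hpv (hpx v h2.symm hvr)
            · rw [h2]; exact mem_insert_self _ _
    have hA : ∀ v ∈ A, v ≠ R.r → R.par v ∈ A → ∀ z ∈ insert w ((nb R w).erase a),
        (R.D v z ↔ R.D v w) := by
      intro v hv hvr hpv z hz
      have hvw : v ≠ w := by
        rintro rfl; exact hnw (F1 _ hpv)
      rcases mem_insert.mp hz with h | h
      · rw [h]
      · rcases hadj z h with ⟨_, h1⟩ | ⟨_, h1⟩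
        · constructor
          · intro h2; exact R.D_trans h2 (h1 ▸ R.D_par w)
          · intro h2
            rcases R.D_step h2 with h3 | h3
            · exact absurd h3 hvw
            · rw [← h1]; exact h3
        · constructor
          · intro h2
            rcases R.D_step h2 with h3 | h3
            · exfalso
              have : v = w := hAB v hv (h3 ▸ hz)
              exact hvw this
            · rw [h1] at h3; exact h3
          · intro h2; exact R.D_trans h2 (h1 ▸ R.D_par z)
    have hB : ∀ v ∈ insert w ((nb R w).erase a), v ≠ R.r →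
        R.par v ∈ insert w ((nb R w).erase a) → ∀ u ∈ A, (R.D v u ↔ R.D v w) := by
      intro v hv hvr hpv u hu
      rcases mem_insert.mp hv with h | h
      · rw [h]; exact iff_of_true (F1 u hu) (R.D_refl w)
      · rcases hadj v h with ⟨_, h1⟩ | ⟨_, h1⟩
        · exact absurd (mem_union_right A hpv) (hpx v h1.symm hvr)
        · have hvw : ¬ R.D v w := by rw [← h1]; exact R.not_D_par hvr
          refine iff_of_false ?_ hvw
          intro hD
          by_cases huw : u = w
          · rw [huw] at hD; exact hvw hD
          · have h2 := F2 u hu huw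
            have d1 := R.dep_par a har
            have d2 := R.dep_par v hvr
            rw [hpar] at d1
            rw [h1] at d2
            exact (mem_erase.mp h).1 (R.D_eq_of_dep hD h2 (by omega))
    have hang : ∀ a' ∈ A, R.Adj a' w → ∀ z ∈ insert w ((nb R w).erase a), z ≠ w →
        0 < inner ℝ (pB z - pB w) (pA w - pA a') := by
      intro a' ha'A hadj' z hz hzw
      have haa : a' = a := by
        have hne : a' ≠ w := R.adj_ne hadj'
        have h2 := F2 a' ha'A hne
        rcases hadj' with ⟨_, h1⟩ | ⟨_, h1⟩
        · rcases R.D_step h2 with h3 | h3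
          · exact h3.symm
          · rw [h1] at h3; exact absurd h3 hna
        · rw [← h1] at h2; exact absurd h2 hnpw
      rcases mem_insert.mp hz with h | h
      · exact absurd h hzw
      · rw [haa, pBw, sub_zero, pBn z h]; exact f1 _
    have G1 := glue R hwA (mem_insert_self w _) hAB hE hA hB dA dB hang
    obtain ⟨δ, h1, hδ⟩ := (G1.and self_mem_nhdsWithin).exists
    have hδ0 : (0 : ℝ) < δ := hδ
    have h2 := glue_ext_all hwA (mem_insert_self w _) hAB (mem_insert_of_mem hxN) eA eB hδ0
    refine ⟨_, h1, ?_⟩
    have h3 : gl A w pA pB δ (R.par w) - gl A w pA pB δ w = δ • (pA w - pA a) := by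
      rw [gl_B hwA hAB (mem_insert_of_mem hxN), gl_A hwA, pBw, pBx, sub_zero,
        add_sub_cancel_left]
    rw [h3]
    exact ext_smul h2 hδ0

end Pool.Agent.TD25
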