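import Mathlib

/-!
# TD25: definitions (trees given by parent pointers, strict drawings)

`R : Rt V` is a rooted tree on `V`: root `r`, parent function `par`, depth `dep`.
`R.D v u`: `u` is a descendant of `v` (or `v` itself).  The edge of `v ≠ r` joins `v` and
`par v`; it separates `u` and `z` iff exactly one of them is a descendant of `v`.
`Draw R S p`: `p` is a strict drawing of the part of the tree inside `S`: injective, and every
edge inside `S` is shorter than the distance of two points of `S` it separates, unless these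
are its own ends.  `Ext S p x m`: the point of `x` is the unique highest point in direction `m`.
-/

set_option autoImplicit false

namespace Pool.Agent.TD25

open Finset

/-- Euclidean space of dimension three. -/
abbrev E3 : Type := EuclideanSpace ℝ (Fin 3)

/-- A rooted tree given by its parent function. -/
structure Rt (V : Type*) where
  r : V
  par : V → V
  dep : V → ℕ
  par_r : par r = r
  dep_r : dep r = 0
  dep_par : ∀ v, v ≠ r → dep (par v) + 1 = dep v

variable {V : Type*}

/-- `u` is a descendant of `v`. -/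
def Rt.D (R : Rt V) (v u : V) : Prop := ∃ k : ℕ, R.par^[k] u = v

/-- Adjacency of the tree. -/
def Rt.Adj (R : Rt V) (x y : V) : Prop := (x ≠ R.r ∧ R.par x = y) ∨ (y ≠ R.r ∧ R.par y = x)

/-- Strict drawings. -/
def Draw (R : Rt V) (S : Finset V) (p : V → E3) : Prop :=
  (∀ u ∈ S, ∀ z ∈ S, u ≠ z → p u ≠ p z) ∧
  ∀ v ∈ S, v ≠ R.r → R.par v ∈ S → ∀ u ∈ S, ∀ z ∈ S, R.D v u → ¬ R.D v z →
    ‖p v - p (R.par v)‖ < ‖p u - p z‖ ∨ (u = v ∧ z = R.par v)

/-- The point of `x` is extreme for the normal `m`. -/
def Ext (S : Finset V) (p : V → E3) (x : V) (m : E3) : Prop :=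
  ∀ z ∈ S, z ≠ x → inner ℝ (p z - p x) m < 0

/-- The neighbours of a vertex. -/
noncomputable def nb [Fintype V] (R : Rt V) (x : V) : Finset V := by
  classical exact univ.filter (fun y => R.Adj x y)

theorem mem_nb [Fintype V] {R : Rt V} {x y : V} : y ∈ nb R x ↔ R.Adj x y := by
  classical
  unfold nb
  simp

namespace Rt

variable (R : Rt V)

theorem D_refl (v : V) : R.D v v := ⟨0, rfl⟩

theorem D_trans {a b c : V} (h : R.D a b) (h' : R.D b c) : R.D a c := by
  obtain ⟨k, hk⟩ := h
  obtain ⟨l, hl⟩ := h'
  refine ⟨k + l, ?_⟩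
  rw [Function.iterate_add_apply, hl, hk]

theorem D_par (v : V) : R.D (R.par v) v := ⟨1, rfl⟩

theorem D_step {v u : V} (h : R.D v u) : v = u ∨ R.D v (R.par u) := by
  obtain ⟨k, hk⟩ := h
  cases k with
  | zero => left; exact hk.symm
  | succ k =>
    right
    exact ⟨k, by rw [← hk, Function.iterate_succ_apply]⟩

theorem dep_par_le (v : V) : R.dep (R.par v) ≤ R.dep v := by
  by_cases h : v = R.r
  · rw [h, R.par_r]
  · have := R.dep_par v h; omega

theorem dep_iter (k : ℕ) : ∀ u : V, R.dep (R.par^[k] u) ≤ R.dep u := by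
  induction k with
  | zero => intro u; exact le_refl _
  | succ k ih =>
    intro u
    rw [Function.iterate_succ_apply]
    exact (ih _).trans (R.dep_par_le u)

theorem D_dep {v u : V} (h : R.D v u) : R.dep v ≤ R.dep u := by
  obtain ⟨k, hk⟩ := h
  rw [← hk]; exact R.dep_iter k u

/-- A descendant of the same depth is equal. -/
theorem D_eq {v u : V} (h : R.D v u) (hd : R.dep u ≤ R.dep v) : v = u := by
  rcases R.D_step h with h1 | h1
  · exact h1
  · by_cases hu : u = R.r
    · rw [hu, R.par_r] at h1
      obtain ⟨k, hk⟩ := h1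
      have : ∀ k : ℕ, R.par^[k] R.r = R.r := by
        intro k
        induction k with
        | zero => rfl
        | succ k ih => rw [Function.iterate_succ_apply, R.par_r, ih]
      rw [this] at hk
      rw [hu]; exact hk.symm
    · have h2 := R.dep_par u hu
      have h3 := R.D_dep h1
      omega

theorem D_antisymm {v u : V} (h : R.D v u) (h' : R.D u v) : v = u :=
  R.D_eq h (R.D_dep h')

/-- Two ancestors of the same vertex are comparable. -/
theorem D_total {a b u : V} (ha : R.D a u) (hb : R.D b u) : R.D a b ∨ R.D b a := by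
  obtain ⟨k, hk⟩ := ha
  obtain ⟨l, hl⟩ := hb
  rcases le_total k l with h | h
  · right
    refine ⟨l - k, ?_⟩
    rw [← hk, ← Function.iterate_add_apply, Nat.sub_add_cancel h, hl]
  · left
    refine ⟨k - l, ?_⟩
    rw [← hl, ← Function.iterate_add_apply, Nat.sub_add_cancel h, hk]

theorem D_eq_of_dep {a b u : V} (ha : R.D a u) (hb : R.D b u) (h : R.dep a = R.dep b) :
    a = b := by
  rcases R.D_total ha hb with h1 | h1
  · exact R.D_eq h1 h.ge
  · exact (R.D_eq h1 h.le).symm

theorem par_ne {v : V} (h : v ≠ R.r) : R.par v ≠ v := by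
  intro h1
  have := R.dep_par v h
  rw [h1] at this
  omega

theorem not_D_par {v : V} (h : v ≠ R.r) : ¬ R.D v (R.par v) := by
  intro h1
  have := R.D_dep h1
  have := R.dep_par v h
  omega

theorem adj_symm {x y : V} (h : R.Adj x y) : R.Adj y x := Or.symm h

theorem adj_ne {x y : V} (h : R.Adj x y) : x ≠ y := by
  rcases h with ⟨h1, h2⟩ | ⟨h1, h2⟩
  · rintro rfl; exact R.par_ne h1 h2
  · rintro rfl; exact R.par_ne h1 h2

theorem root_D (u : V) : R.D R.r u := by
  have key : ∀ n : ℕ, ∀ u : V, R.dep u = n → R.D R.r u := by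
    intro n
    induction n with
    | zero =>
      intro u hu
      by_cases h : u = R.r
      · rw [h]; exact R.D_refl _
      · have := R.dep_par u h; omega
    | succ n ih =>
      intro u hu
      by_cases h : u = R.r
      · rw [h]; exact R.D_refl _
      · have h1 := R.dep_par u h
        exact R.D_trans (ih (R.par u) (by omega)) (R.D_par u)
  exact key _ u rfl

/-- A strict descendant of `v` is a descendant of a child of `v`. -/
theorem exists_child {v u : V} (h : R.D v u) (hne : u ≠ v) :
    ∃ y, y ≠ R.r ∧ R.par y = v ∧ R.D y u := by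
  have key : ∀ k : ℕ, ∀ u : V, R.par^[k] u = v → u ≠ v →
      ∃ y, y ≠ R.r ∧ R.par y = v ∧ R.D y u := by
    intro k
    induction k with
    | zero => intro u hu hne; exact absurd hu hne
    | succ k ih =>
      intro u hu hne
      rw [Function.iterate_succ_apply] at hu
      by_cases hp : R.par u = v
      · refine ⟨u, ?_, hp, R.D_refl u⟩
        rintro rfl
        rw [R.par_r] at hp
        exact hne hp
      · obtain ⟨y, h1, h2, h3⟩ := ih _ hu hp
        exact ⟨y, h1, h2, R.D_trans h3 (R.D_par u)⟩
  obtain ⟨k, hk⟩ := h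
  exact key k u hk hne

end Rt

end Pool.Agent.TD25
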