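import Pool.Agent.TD25.Defs

/-! # TD25, module Glue: gluing two strict drawings at a vertex (see docstrings) -/

set_option autoImplicit false

namespace Pool.Agent.TD25

open Finset Filter Topology

variable {V : Type*} [Fintype V] [DecidableEq V]

/-- `pA` on `A`, and `pA w + δ (pB - pB w)` outside `A`. -/
noncomputable def gl (A : Finset V) (w : V) (pA pB : V → E3) (δ : ℝ) (x : V) : E3 :=
  if x ∈ A then pA x else pA w + δ • (pB x - pB w)

omit [Fintype V] in
theorem gl_A {A : Finset V} {w : V} {pA pB : V → E3} {δ : ℝ} {x : V} (h : x ∈ A) :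
    gl A w pA pB δ x = pA x := by
  unfold gl; rw [if_pos h]

omit [Fintype V] in
theorem gl_B {A B : Finset V} {w : V} (_hwA : w ∈ A) (hAB : ∀ x ∈ A, x ∈ B → x = w)
    {pA pB : V → E3} {δ : ℝ} {x : V} (h : x ∈ B) :
    gl A w pA pB δ x = pA w + δ • (pB x - pB w) := by
  by_cases hx : x ∈ A
  · rw [gl_A hx, hAB x hx h]; simp
  · unfold gl; rw [if_neg hx]

/-- The norm of the difference grows when moving away. -/
theorem norm_grow (x y : E3) (hxy : inner ℝ x y < 0) {δ : ℝ} (hδ : 0 < δ) :
    ‖x‖ < ‖x - δ • y‖ := by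
  have h1 : ‖x - δ • y‖ ^ 2 = ‖x‖ ^ 2 - 2 * (δ * inner ℝ x y) + ‖δ • y‖ ^ 2 := by
    rw [norm_sub_sq_real, inner_smul_right]
  have h2 : 0 < -(δ * inner ℝ x y) := by
    have := mul_pos hδ (neg_pos.mpr hxy)
    linarith [this, mul_neg δ (inner ℝ x y)]
  have h3 : 0 ≤ ‖δ • y‖ ^ 2 := sq_nonneg _
  have h4 : ‖x‖ ^ 2 < ‖x - δ • y‖ ^ 2 := by
    rw [h1]; linarith
  exact lt_of_pow_lt_pow_left₀ 2 (norm_nonneg _) h4

/-- **Gluing.**  Proof: for fixed `v, u, z` every inequality holds for small `δ > 0` (finitely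
many, `Filter.eventually_all`).  Edge in `A`: both `u, z` in `A` clear; `u ∈ A`, `z ∈ B`:
`D v z ↔ D v w`, so the edge separates `u` and `w`; either strict (continuity at `δ = 0`) or
`{u, w}` is the edge, and `‖x - δ y‖ > ‖x‖` for `⟨x, y⟩ < 0` (hypothesis `hang`); both in `B`:
not separated.  Edge in `B`: both in `B`: scaling; `u ∈ A \ {w}`, `z ∈ B`: left side tends to
`0`, right side to `‖pA u - pA w‖ > 0`; both in `A`: not separated. -/
theorem glue (R : Rt V) {A B : Finset V} {w : V} {pA pB : V → E3} (hwA : w ∈ A) (hwB : w ∈ B)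
    (hAB : ∀ x ∈ A, x ∈ B → x = w)
    (hE : ∀ v ∈ A ∪ B, v ≠ R.r → R.par v ∈ A ∪ B →
      (v ∈ A ∧ R.par v ∈ A) ∨ (v ∈ B ∧ R.par v ∈ B))
    (hA : ∀ v ∈ A, v ≠ R.r → R.par v ∈ A → ∀ z ∈ B, (R.D v z ↔ R.D v w))
    (hB : ∀ v ∈ B, v ≠ R.r → R.par v ∈ B → ∀ u ∈ A, (R.D v u ↔ R.D v w))
    (dA : Draw R A pA) (dB : Draw R B pB)
    (hang : ∀ a ∈ A, R.Adj a w → ∀ z ∈ B, z ≠ w → 0 < inner ℝ (pB z - pB w) (pA w - pA a)) :
    ∀ᶠ δ in 𝓝[>] (0 : ℝ), Draw R (A ∪ B) (gl A w pA pB δ) := by
  classical
  have hlim : ∀ u z : V, Tendsto (fun δ : ℝ => ‖pA u - (pA w + δ • (pB z - pB w))‖) (𝓝[>] (0 : ℝ))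
      (𝓝 ‖pA u - pA w‖) := by
    intro u z
    have hc : Continuous (fun δ : ℝ => ‖pA u - (pA w + δ • (pB z - pB w))‖) := by fun_prop
    have h := (hc.tendsto 0).mono_left (nhdsWithin_le_nhds (s := Set.Ioi (0 : ℝ)))
    simpa using h
  have e1 : ∀ᶠ δ in 𝓝[>] (0 : ℝ), ∀ v u z : V, ‖pA v - pA (R.par v)‖ < ‖pA u - pA w‖ →
      ‖pA v - pA (R.par v)‖ < ‖pA u - (pA w + δ • (pB z - pB w))‖ := by
    rw [eventually_all]; intro v
    rw [eventually_all]; intro u
    rw [eventually_all]; intro z
    by_cases h : ‖pA v - pA (R.par v)‖ < ‖pA u - pA w‖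
    · filter_upwards [(hlim u z).eventually (lt_mem_nhds h)] with δ hδ _ using hδ
    · exact Eventually.of_forall (fun δ h' => absurd h' h)
  have e2 : ∀ᶠ δ in 𝓝[>] (0 : ℝ), ∀ v u z : V, pA u ≠ pA w →
      δ * ‖pB v - pB (R.par v)‖ < ‖pA u - (pA w + δ • (pB z - pB w))‖ := by
    rw [eventually_all]; intro v
    rw [eventually_all]; intro u
    rw [eventually_all]; intro z
    by_cases h : pA u ≠ pA w
    · have h0 : 0 < ‖pA u - pA w‖ := norm_pos_iff.mpr (sub_ne_zero.mpr h)
      have hl : Tendsto (fun δ : ℝ => δ * ‖pB v - pB (R.par v)‖) (𝓝[>] (0 : ℝ)) (𝓝 0) := by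
        have hc : Continuous (fun δ : ℝ => δ * ‖pB v - pB (R.par v)‖) := by fun_prop
        have h := (hc.tendsto 0).mono_left (nhdsWithin_le_nhds (s := Set.Ioi (0 : ℝ)))
        simpa using h
      filter_upwards [hl.eventually_lt (hlim u z) h0] with δ hδ _ using hδ
    · exact Eventually.of_forall (fun δ h' => absurd h' h)
  filter_upwards [e1, e2, self_mem_nhdsWithin] with δ h1 h2 hδ
  have hδ0 : (0 : ℝ) < δ := hδ
  have gA : ∀ x ∈ A, gl A w pA pB δ x = pA x := fun x hx => gl_A hx
  have gB : ∀ x ∈ B, gl A w pA pB δ x = pA w + δ • (pB x - pB w) :=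
    fun x hx => gl_B hwA hAB hx
  have hBB : ∀ x y : V, (pA w + δ • (pB x - pB w)) - (pA w + δ • (pB y - pB w))
      = δ • (pB x - pB y) := by
    intro x y
    rw [add_sub_add_left_eq_sub, ← smul_sub, sub_sub_sub_cancel_right]
  -- points of A other than w and points of B
  have key : ∀ u ∈ A, u ≠ w → ∀ z ∈ B, 0 < ‖gl A w pA pB δ u - gl A w pA pB δ z‖ := by
    intro u hu huw z hz
    rw [gA u hu, gB z hz]
    have h := h2 w u z (dA.1 u hu w hwA huw)
    exact lt_of_le_of_lt (mul_nonneg hδ0.le (norm_nonneg _)) h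
  refine ⟨?_, ?_⟩
  · -- injectivity
    have both : ∀ u ∈ B, ∀ z ∈ B, u ≠ z → gl A w pA pB δ u ≠ gl A w pA pB δ z := by
      intro u hu z hz hne heq
      rw [gB u hu, gB z hz, ← sub_eq_zero, hBB, smul_eq_zero] at heq
      rcases heq with h | h
      · exact absurd h hδ0.ne'
      · exact dB.1 u hu z hz hne (sub_eq_zero.mp h)
    have mixed : ∀ u ∈ A, ∀ z ∈ B, u ≠ z → gl A w pA pB δ u ≠ gl A w pA pB δ z := by
      intro u hu z hz hne heq
      by_cases huw : u = w
      · exact both u (huw ▸ hwB) z hz hne heq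
      · have := key u hu huw z hz
        rw [heq, sub_self, norm_zero] at this
        exact lt_irrefl _ this
    intro u hu z hz hne
    rcases mem_union.mp hu with hu | hu <;> rcases mem_union.mp hz with hz | hz
    · rw [gA u hu, gA z hz]; exact dA.1 u hu z hz hne
    · exact mixed u hu z hz hne
    · exact (mixed z hz u hu hne.symm).symm
    · exact both u hu z hz hne
  · intro v hv hvr hpv u hu z hz hDu hDz
    rcases hE v hv hvr hpv with ⟨hvA, hpA⟩ | ⟨hvB, hpB⟩
    · rw [gA v hvA, gA _ hpA]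
      rcases mem_union.mp hu with hu | hu <;> rcases mem_union.mp hz with hz | hz
      · rw [gA u hu, gA z hz]; exact dA.2 v hvA hvr hpA u hu z hz hDu hDz
      · rw [gA u hu, gB z hz]
        have hDw : ¬ R.D v w := fun h => hDz ((hA v hvA hvr hpA z hz).mpr h)
        rcases dA.2 v hvA hvr hpA u hu w hwA hDu hDw with h | ⟨h, h'⟩
        · left; exact h1 v u z h
        · by_cases hzw : z = w
          · right; exact ⟨h, hzw.trans h'⟩
          · left
            have hg := hang v hvA (Or.inl ⟨hvr, h'.symm⟩) z hz hzw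
            rw [h, ← h', ← sub_sub]
            refine norm_grow _ _ ?_ hδ0
            rw [real_inner_comm]
            have : inner ℝ (pB z - pB w) (pA v - pA w) = - inner ℝ (pB z - pB w) (pA w - pA v) := by
              rw [← inner_neg_right, neg_sub]
            rw [this]; linarith
      · rw [gB u hu, gA z hz]
        have hDw : R.D v w := (hA v hvA hvr hpA u hu).mp hDu
        rcases dA.2 v hvA hvr hpA w hwA z hz hDw hDz with h | ⟨h, h'⟩
        · left
          rw [norm_sub_rev (pA w + δ • (pB u - pB w))]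
          exact h1 v z u (by rwa [norm_sub_rev (pA z)])
        · by_cases huw : u = w
          · right; exact ⟨huw.trans h, h'⟩
          · left
            have hwr : w ≠ R.r := by rw [h]; exact hvr
            have hg := hang z hz (Or.inr ⟨hwr, by rw [h]; exact h'.symm⟩) u hu huw
            rw [← h', ← h, norm_sub_rev (pA w), norm_sub_rev (pA w + δ • (pB u - pB w)),
              ← sub_sub]
            refine norm_grow _ _ ?_ hδ0
            rw [real_inner_comm]
            have : inner ℝ (pB u - pB w) (pA z - pA w) = - inner ℝ (pB u - pB w) (pA w - pA z) := by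
              rw [← inner_neg_right, neg_sub]
            rw [this]; linarith
      · exact absurd ((hA v hvA hvr hpA z hz).mpr ((hA v hvA hvr hpA u hu).mp hDu)) hDz
    · have hle : ‖gl A w pA pB δ v - gl A w pA pB δ (R.par v)‖
          = δ * ‖pB v - pB (R.par v)‖ := by
        rw [gB v hvB, gB _ hpB, hBB, norm_smul, Real.norm_of_nonneg hδ0.le]
      rw [hle]
      have both : u ∈ B → z ∈ B → δ * ‖pB v - pB (R.par v)‖
          < ‖gl A w pA pB δ u - gl A w pA pB δ z‖ ∨ (u = v ∧ z = R.par v) := by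
        intro hu hz
        rcases dB.2 v hvB hvr hpB u hu z hz hDu hDz with h | h
        · left
          rw [gB u hu, gB z hz, hBB, norm_smul, Real.norm_of_nonneg hδ0.le]
          exact mul_lt_mul_of_pos_left h hδ0
        · right; exact h
      rcases mem_union.mp hu with hu | hu <;> rcases mem_union.mp hz with hz | hz
      · exact absurd ((hB v hvB hvr hpB z hz).mpr ((hB v hvB hvr hpB u hu).mp hDu)) hDz
      · by_cases huw : u = w
        · exact both (huw ▸ hwB) hz
        · left
          rw [gA u hu, gB z hz]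
          exact h2 v u z (dA.1 u hu w hwA huw)
      · by_cases hzw : z = w
        · exact both hu (hzw ▸ hwB)
        · left
          rw [gA z hz, gB u hu, norm_sub_rev (pA w + δ • (pB u - pB w))]
          exact h2 v z u (dA.1 z hz w hwA hzw)
      · exact both hu hz

/-- Extreme points of the union. -/
theorem glue_ext {A B : Finset V} {w x : V} {pA pB : V → E3} {m : E3} (hwA : w ∈ A)
    (hwB : w ∈ B) (hAB : ∀ x ∈ A, x ∈ B → x = w) (hx : x ∈ B) (eA : Ext A pA w m)
    (eB : Ext B pB x m) :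
    ∀ᶠ δ in 𝓝[>] (0 : ℝ), Ext (A ∪ B) (gl A w pA pB δ) x m := by
  filter_upwards [self_mem_nhdsWithin] with δ hδ
  have hδ0 : (0 : ℝ) < δ := hδ
  intro z hz hzx
  rw [gl_B (pA := pA) (pB := pB) (δ := δ) hwA hAB hx]
  rcases mem_union.mp hz with hzA | hzB
  · by_cases hzw : z = w
    · have hwx : w ≠ x := fun h => hzx (hzw.trans h)
      have h := eB w hwB hwx
      rw [gl_A hzA, hzw]
      have : pA w - (pA w + δ • (pB x - pB w)) = δ • (pB w - pB x) := by
        rw [sub_add_cancel_left, ← smul_neg, neg_sub]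
      rw [this, inner_smul_left]
      simp only [conj_trivial]
      exact mul_neg_of_pos_of_neg hδ0 h
    · have h := eA z hzA hzw
      rw [gl_A hzA, ← sub_sub, inner_sub_left, inner_smul_left]
      simp only [conj_trivial]
      by_cases hwx : w = x
      · rw [← hwx, sub_self, inner_zero_left, mul_zero, sub_zero]; exact h
      · have h' := eB w hwB hwx
        have h'' : inner ℝ (pB x - pB w) m = - inner ℝ (pB w - pB x) m := by
          rw [← inner_neg_left, neg_sub]
        have h3 : 0 < δ * inner ℝ (pB x - pB w) m := by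
          rw [h'']; exact mul_pos hδ0 (by linarith)
        linarith
  · have h := eB z hzB hzx
    rw [gl_B (pA := pA) (pB := pB) (δ := δ) hwA hAB hzB]
    have : (pA w + δ • (pB z - pB w)) - (pA w + δ • (pB x - pB w)) = δ • (pB z - pB x) := by
      rw [add_sub_add_left_eq_sub, ← smul_sub, sub_sub_sub_cancel_right]
    rw [this, inner_smul_left]
    simp only [conj_trivial]
    exact mul_neg_of_pos_of_neg hδ0 h

end Pool.Agent.TD25
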