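import Pool.Agent.TD25.Chain

/-! # TD25, module Main: the drawing of the whole tree, from the root downwards -/

set_option autoImplicit false

namespace Pool.Agent.TD25

open Finset Filter Topology

variable {V : Type*} [Fintype V] [DecidableEq V]

/-- Gluing a drawing of descendants of `b` at the leaf `b`. -/
theorem glue_below (R : Rt V) {S B : Finset V} {b : V} {pA pB : V → E3} (hbS : b ∈ S)
    (hbB : b ∈ B) (hanc : ∀ x ∈ S, R.par x ∈ S)
    (honly : ∀ x ∈ S, R.D b x → x = b) (hbelow : ∀ z ∈ B, R.D b z) (hbr : b ≠ R.r)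
    (dA : Draw R S pA) (dB : Draw R B pB)
    (hang : ∀ z ∈ B, z ≠ b → 0 < inner ℝ (pB z - pB b) (pA b - pA (R.par b))) :
    ∃ p, Draw R (S ∪ B) p := by
  have hAB : ∀ x ∈ S, x ∈ B → x = b := fun x hx hx' => honly x hx (hbelow x hx')
  have hE : ∀ v ∈ S ∪ B, v ≠ R.r → R.par v ∈ S ∪ B →
      (v ∈ S ∧ R.par v ∈ S) ∨ (v ∈ B ∧ R.par v ∈ B) := by
    intro v hv hvr hpv
    by_cases hvS : v ∈ S
    · left; exact ⟨hvS, hanc v hvS⟩
    · right
      have hvB : v ∈ B := (mem_union.mp hv).resolve_left hvS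
      refine ⟨hvB, ?_⟩
      rcases mem_union.mp hpv with h | h
      · rcases R.D_step (hbelow v hvB) with h1 | h1
        · exact absurd (h1 ▸ hbS) hvS
        · rw [honly _ h h1]; exact hbB
      · exact h
  have hA : ∀ v ∈ S, v ≠ R.r → R.par v ∈ S → ∀ z ∈ B, (R.D v z ↔ R.D v b) := by
    intro v hv _ _ z hz
    constructor
    · intro h
      rcases R.D_total h (hbelow z hz) with h1 | h1
      · exact h1
      · rw [honly v hv h1]; exact R.D_refl b
    · intro h; exact R.D_trans h (hbelow z hz)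
  have hB : ∀ v ∈ B, v ≠ R.r → R.par v ∈ B → ∀ u ∈ S, (R.D v u ↔ R.D v b) := by
    intro v hv hvr hpv u hu
    have hvb : v ≠ b := by
      rintro rfl; exact R.not_D_par hvr (hbelow _ hpv)
    have h1 : ¬ R.D v b := fun h => hvb (R.D_antisymm h (hbelow v hv))
    refine iff_of_false (fun h => ?_) h1
    have h2 := honly u hu (R.D_trans (hbelow v hv) h)
    rw [h2] at h
    exact h1 h
  have hang' : ∀ a ∈ S, R.Adj a b → ∀ z ∈ B, z ≠ b →
      0 < inner ℝ (pB z - pB b) (pA b - pA a) := by
    intro a ha hadj z hz hzb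
    rcases hadj with ⟨_, h1⟩ | ⟨_, h1⟩
    · exfalso
      have h2 : a = b := honly a ha (h1 ▸ R.D_par a)
      subst h2
      exact R.par_ne hbr h1
    · rw [← h1]; exact hang z hz hzb
  obtain ⟨δ, h⟩ := (glue R hbS hbB hAB hE hA hB dA dB hang').exists
  exact ⟨_, h⟩

omit [Fintype V] [DecidableEq V] in
theorem draw_map {R : Rt V} {S : Finset V} {p : V → E3} (Q : E3 ≃ₗᵢ[ℝ] E3)
    (h : Draw R S p) : Draw R S (fun x => Q (p x)) := by
  refine ⟨fun u hu z hz hne heq => h.1 u hu z hz hne (Q.injective heq), ?_⟩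
  intro v hv hvr hpv u hu z hz h1 h2
  have key : ∀ a b : V, ‖Q (p a) - Q (p b)‖ = ‖p a - p b‖ := by
    intro a b; rw [← map_sub, Q.norm_map]
  show ‖Q (p v) - Q (p (R.par v))‖ < ‖Q (p u) - Q (p z)‖ ∨ _
  rw [key, key]
  exact h.2 v hv hvr hpv u hu z hz h1 h2

theorem exists_rot (m n : E3) (hm : m ≠ 0) (hn : n ≠ 0) :
    ∃ Q : E3 ≃ₗᵢ[ℝ] E3, ∃ c : ℝ, 0 < c ∧ Q m = c • n := by
  have hm' : 0 < ‖m‖ := norm_pos_iff.mpr hm
  have hn' : 0 < ‖n‖ := norm_pos_iff.mpr hn
  have heq : ‖‖n‖ • m‖ = ‖‖m‖ • n‖ := by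
    rw [norm_smul, norm_smul, norm_norm, norm_norm, mul_comm]
  refine ⟨(ℝ ∙ (‖n‖ • m - ‖m‖ • n))ᗮ.reflection, ‖m‖ / ‖n‖, div_pos hm' hn', ?_⟩
  have h := Submodule.reflection_sub heq
  rw [map_smul] at h
  have h2 : (‖n‖)⁻¹ • (‖n‖ • (ℝ ∙ (‖n‖ • m - ‖m‖ • n))ᗮ.reflection m) = (‖n‖)⁻¹ • (‖m‖ • n) := by
    rw [h]
  rw [smul_smul, inv_mul_cancel₀ hn'.ne', one_smul, smul_smul] at h2
  rw [h2, div_eq_inv_mul]

omit [Fintype V] [DecidableEq V] in
theorem closed_D {R : Rt V} {S : Finset V} (hanc : ∀ x ∈ S, R.par x ∈ S) {y x : V}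
    (h : R.D y x) (hx : x ∈ S) : y ∈ S := by
  obtain ⟨k, hk⟩ := h
  rw [← hk]
  clear hk
  induction k with
  | zero => exact hx
  | succ k ih => rw [Function.iterate_succ_apply']; exact hanc _ ih

/-- A boundary vertex. -/
def Bd (R : Rt V) (S : Finset V) (b : V) : Prop :=
  b ≠ R.r ∧ (∀ y, y ≠ R.r → R.par y = b → y ∉ S) ∧ (nb R b).card ≤ 9 ∧
    ∀ c, 10 ≤ (nb R c).card → R.D b c → ∃ w, (nb R w).card = 2 ∧ R.D b w ∧ R.D w c ∧ w ≠ c

/-- The invariant. -/
def Inv (R : Rt V) (S : Finset V) : Prop :=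
  R.r ∈ S ∧ (∀ x ∈ S, R.par x ∈ S) ∧
    ∀ b ∈ S, (∀ y, y ≠ R.r → R.par y = b → y ∈ S) ∨ Bd R S b

theorem only_below {R : Rt V} {S : Finset V} {b : V} (hanc : ∀ x ∈ S, R.par x ∈ S)
    (hb : ∀ y, y ≠ R.r → R.par y = b → y ∉ S) : ∀ x ∈ S, R.D b x → x = b := by
  intro x hx hD
  by_contra hne
  obtain ⟨y, h1, h2, h3⟩ := R.exists_child hD hne
  exact hb y h1 h2 (closed_D hanc h3 hx)

/-- The start: the star of the root. -/
theorem init (R : Rt V) (h12 : ∀ v, (nb R v).card ≤ 12)
    (hroot : ∀ v, 10 ≤ (nb R v).card → 10 ≤ (nb R R.r).card)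
    (hsep : ∀ u v, u ≠ v → 10 ≤ (nb R u).card → 10 ≤ (nb R v).card →
      ∃ w, w ≠ u ∧ w ≠ v ∧ (nb R w).card = 2 ∧
        ((R.D w u ∧ ¬ R.D w v) ∨ (¬ R.D w u ∧ R.D w v))) :
    ∃ S, Inv R S ∧ ∃ p, Draw R S p := by
  have hch : ∀ y ∈ nb R R.r, y ≠ R.r ∧ R.par y = R.r := by
    intro y hy
    rcases mem_nb.mp hy with ⟨h, _⟩ | ⟨h, h'⟩
    · exact absurd rfl h
    · exact ⟨h, h'⟩
  refine ⟨insert R.r (nb R R.r), ⟨mem_insert_self _ _, ?_, ?_⟩, ?_⟩
  · intro x hx
    rcases mem_insert.mp hx with h | h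
    · rw [h, R.par_r]; exact mem_insert_self _ _
    · rw [(hch x h).2]; exact mem_insert_self _ _
  · intro b hb
    rcases mem_insert.mp hb with h | h
    · left
      intro y hy hpy
      rw [h] at hpy
      exact mem_insert_of_mem (mem_nb.mpr (Or.inr ⟨hy, hpy⟩))
    · right
      obtain ⟨hbr, hpb⟩ := hch b h
      have hDr : ∀ w, R.D w R.r → w = R.r := fun w hw => R.D_antisymm hw (R.root_D w)
      refine ⟨hbr, ?_, ?_, ?_⟩
      · intro y hy hpy hmem
        rcases mem_insert.mp hmem with h1 | h1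
        · exact hy h1
        · rw [(hch y h1).2] at hpy; exact hbr hpy.symm
      · by_contra hcon
        have hb10 : 10 ≤ (nb R b).card := by omega
        obtain ⟨w, hw1, hw2, _, h3 | h3⟩ := hsep R.r b hbr.symm (hroot b hb10) hb10
        · exact hw1 (hDr w h3.1)
        · rcases R.D_step h3.2 with h4 | h4
          · exact hw2 h4
          · rw [hpb] at h4; exact hw1 (hDr w h4)
      · intro c hc hDc
        have hcr : c ≠ R.r := by
          rintro rfl; exact hbr (hDr b hDc)
        obtain ⟨w, hw1, hw2, hw3, h3 | h3⟩ := hsep R.r c hcr.symm (hroot c hc) hc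
        · exact absurd (hDr w h3.1) hw1
        · refine ⟨w, hw3, ?_, h3.2, hw2⟩
          rcases R.D_total hDc h3.2 with h4 | h4
          · exact h4
          · rcases R.D_step h4 with h5 | h5
            · rw [h5]; exact R.D_refl b
            · rw [hpb] at h5; exact absurd (hDr w h5) hw1
  · obtain ⟨d, d0, d1, _⟩ := exists_twelve
    obtain ⟨g, hg⟩ := exists_inj (nb R R.r) 12 (h12 R.r)
    let p : V → E3 := fun y => if y = R.r then 0 else d (g y)
    have pn : ∀ y ∈ nb R R.r, p y = d (g y) := by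
      intro y hy
      exact if_neg (hch y hy).1
    refine ⟨p, star R R.r (nb R R.r) (fun y hy => mem_nb.mp hy) p (if_pos rfl) ?_ ?_⟩
    · intro y hy; rw [pn y hy]; exact d0 _
    · intro y hy y' hy' hne
      rw [pn y hy, pn y' hy']
      exact d1 _ _ (hg y hy y' hy' hne)

/-- Case 1: the children of `b`. -/
theorem step1 (R : Rt V) {S : Finset V} {b : V} (hI : Inv R S) (hbS : b ∈ S) (hb : Bd R S b)
    (hc : ∀ c, 10 ≤ (nb R c).card → R.D b c →
      ∃ w, (nb R w).card = 2 ∧ R.D b w ∧ R.D w c ∧ w ≠ c ∧ w ≠ b)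
    (hd : ∃ p, Draw R S p) (y₀ : V) (hy₀ : y₀ ≠ R.r) (hpy₀ : R.par y₀ = b) :
    ∃ S', Inv R S' ∧ S ⊂ S' ∧ ∃ p, Draw R S' p := by
  obtain ⟨hr, hanc, hbd⟩ := hI
  obtain ⟨hbr, hno, h9, _⟩ := hb
  obtain ⟨pA, dA⟩ := hd
  have honly := only_below hanc hno
  have hpb : R.par b ∈ nb R b := mem_nb.mpr (Or.inl ⟨hbr, rfl⟩)
  have hcN : ((nb R b).erase (R.par b)).card ≤ 8 := by
    rw [card_erase_of_mem hpb]; omega
  have hN : ∀ y, y ∈ (nb R b).erase (R.par b) ↔ y ≠ R.r ∧ R.par y = b := by
    intro y
    rw [mem_erase, mem_nb]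
    constructor
    · rintro ⟨h1, ⟨_, h3⟩ | ⟨h2, h3⟩⟩
      · exact absurd h3.symm h1
      · exact ⟨h2, h3⟩
    · rintro ⟨h1, h2⟩
      refine ⟨?_, Or.inr ⟨h1, h2⟩⟩
      intro h3
      have d1 := R.dep_par b hbr
      have d2 := R.dep_par y h1
      rw [h2] at d2; rw [h3] at d2; omega
  generalize hNN : (nb R b).erase (R.par b) = N at hcN hN
  have hn0 : pA b - pA (R.par b) ≠ 0 :=
    sub_ne_zero.mpr (dA.1 b hbS _ (hanc b hbS) (R.par_ne hbr).symm)
  obtain ⟨f, f1, f2, _⟩ := exists_eight (pA b - pA (R.par b)) hn0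
  obtain ⟨g, hg⟩ := exists_inj N 8 hcN
  let pB : V → E3 := fun y => if y = b then 0 else f (g y)
  have pBb : pB b = 0 := if_pos rfl
  have hadj : ∀ y ∈ N, R.Adj b y := fun y hy => Or.inr ((hN y).mp hy)
  have pBn : ∀ y ∈ N, pB y = f (g y) := fun y hy => if_neg (R.adj_ne (hadj y hy)).symm
  have dB : Draw R (insert b N) pB := by
    refine star R b N hadj pB pBb ?_ ?_
    · intro y hy h0
      have := f1 (g y)
      rw [← pBn y hy, h0, inner_zero_left] at this
      exact lt_irrefl _ this
    · intro y hy y' hy' hne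
      rw [pBn y hy, pBn y' hy']
      exact f2 _ _ (hg y hy y' hy' hne)
  have hy₀N : y₀ ∈ N := (hN y₀).mpr ⟨hy₀, hpy₀⟩
  refine ⟨S ∪ insert b N, ⟨mem_union_left _ hr, ?_, ?_⟩, ?_, ?_⟩
  · intro x hx
    rcases mem_union.mp hx with h | h
    · exact mem_union_left _ (hanc x h)
    · rcases mem_insert.mp h with h1 | h1
      · rw [h1]; exact mem_union_left _ (hanc b hbS)
      · rw [((hN x).mp h1).2]; exact mem_union_left _ hbS
  · intro b' hb'
    by_cases hbb : b' = b
    · left
      intro y hy hpy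
      rw [hbb] at hpy
      exact mem_union_right _ (mem_insert_of_mem ((hN y).mpr ⟨hy, hpy⟩))
    · rcases mem_union.mp hb' with h | h
      · rcases hbd b' h with h1 | ⟨h1, h2, h3, h4⟩
        · left; intro y hy hpy; exact mem_union_left _ (h1 y hy hpy)
        · right
          refine ⟨h1, ?_, h3, h4⟩
          intro y hy hpy hmem
          rcases mem_union.mp hmem with h5 | h5
          · exact h2 y hy hpy h5
          · rcases mem_insert.mp h5 with h6 | h6
            · exact h2 y hy hpy (h6 ▸ hbS)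
            · rw [((hN y).mp h6).2] at hpy; exact hbb hpy.symm
      · have h1 : b' ∈ N := (mem_insert.mp h).resolve_left hbb
        obtain ⟨hb'r, hpb'⟩ := (hN b').mp h1
        right
        refine ⟨hb'r, ?_, ?_, ?_⟩
        · intro y hy hpy hmem
          rcases mem_union.mp hmem with h5 | h5
          · have := hanc y h5
            rw [hpy] at this
            exact hno b' hb'r hpb' this
          · rcases mem_insert.mp h5 with h6 | h6
            · rw [h6] at hpy
              have d1 := R.dep_par b hbr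
              have d2 := R.dep_par b' hb'r
              rw [hpy] at d1; rw [hpb'] at d2; omega
            · rw [((hN y).mp h6).2] at hpy; exact hbb hpy.symm
        · by_contra hcon
          have hb10 : 10 ≤ (nb R b').card := by omega
          obtain ⟨w, _, h2, h3, h4, h5⟩ := hc b' hb10 (hpb' ▸ R.D_par b')
          rcases R.D_step h3 with h6 | h6
          · exact h4 h6
          · rw [hpb'] at h6; exact h5 (R.D_antisymm h6 h2)
        · intro c hc10 hDc
          obtain ⟨w, hw2, h2, h3, h4, h5⟩ := hc c hc10 (R.D_trans (hpb' ▸ R.D_par b') hDc)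
          refine ⟨w, hw2, ?_, h3, h4⟩
          rcases R.D_total hDc h3 with h6 | h6
          · exact h6
          · rcases R.D_step h6 with h7 | h7
            · rw [h7]; exact R.D_refl _
            · rw [hpb'] at h7; exact absurd (R.D_antisymm h7 h2) h5
  · refine ⟨subset_union_left, ?_⟩
    intro hsub
    exact hno y₀ hy₀ hpy₀ (hsub (mem_union_right _ (mem_insert_of_mem hy₀N)))
  · refine glue_below R hbS (mem_insert_self b N) hanc honly ?_ hbr dA dB ?_
    · intro z hz
      rcases mem_insert.mp hz with h | h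
      · rw [h]; exact R.D_refl b
      · exact ((hN z).mp h).2 ▸ R.D_par z
    · intro z hz hzb
      have hzN : z ∈ N := (mem_insert.mp hz).resolve_left hzb
      rw [pBb, sub_zero, pBn z hzN]
      exact f1 _

/-- Case 2: the cluster of a vertex `c` of high degree with no other separator below `b`. -/
theorem step2 (R : Rt V) (h12 : ∀ v, (nb R v).card ≤ 12)
    (hsep : ∀ u v, u ≠ v → 10 ≤ (nb R u).card → 10 ≤ (nb R v).card →
      ∃ w, w ≠ u ∧ w ≠ v ∧ (nb R w).card = 2 ∧
        ((R.D w u ∧ ¬ R.D w v) ∨ (¬ R.D w u ∧ R.D w v)))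
    {S : Finset V} {b : V} (hI : Inv R S) (hbS : b ∈ S) (hb : Bd R S b)
    (hb2 : (nb R b).card = 2) {c : V} (hc10 : 10 ≤ (nb R c).card) (hDbc : R.D b c)
    (hns : ∀ w, (nb R w).card = 2 → R.D b w → R.D w c → w = b)
    (hd : ∃ p, Draw R S p) :
    ∃ S', Inv R S' ∧ S ⊂ S' ∧ ∃ p, Draw R S' p := by
  classical
  obtain ⟨hr, hanc, hbd⟩ := hI
  obtain ⟨hbr, hno, h9, _⟩ := hb
  obtain ⟨pA, dA⟩ := hd
  have honly := only_below hanc hno
  have hcb : c ≠ b := by
    rintro rfl; omega
  have hDbr : ¬ R.D b R.r := fun h => hbr (R.D_antisymm h (R.root_D b))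
  -- the minimal k
  obtain ⟨k, hk, hkmin⟩ : ∃ k, R.par^[k] c = b ∧ ∀ j < k, R.par^[j] c ≠ b :=
    ⟨Nat.find hDbc, Nat.find_spec hDbc, fun j hj => Nat.find_min hDbc hj⟩
  have hk1 : 1 ≤ k := by
    rcases Nat.eq_zero_or_pos k with h | h
    · rw [h] at hk; exact absurd hk hcb
    · exact h
  have hDbk : ∀ j ≤ k, R.D b (R.par^[j] c) := fun j hj => hk ▸ D_iter R c hj
  have hDkc : ∀ j, R.D (R.par^[j] c) c := fun j => ⟨j, rfl⟩
  have hkr : ∀ j < k, R.par^[j] c ≠ R.r := by
    intro j hj h
    have := hDbk j hj.le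
    rw [h] at this; exact hDbr this
  have hcr : c ≠ R.r := hkr 0 (by omega)
  have hkc : ∀ j, 0 < j → R.par^[j] c ≠ c := by
    intro j hj h
    obtain ⟨i, rfl⟩ : ∃ i, j = i + 1 := ⟨j - 1, by omega⟩
    rw [Function.iterate_succ_apply] at h
    exact R.not_D_par hcr ⟨i, h⟩
  have hdeg : ∀ j, 0 < j → j < k → (nb R (R.par^[j] c)).card ≤ 9 := by
    intro j hj0 hjk
    by_contra hcon
    obtain ⟨w, hw1, hw2, hw3, h3 | h3⟩ := hsep (R.par^[j] c) c (hkc j hj0) (by omega) hc10
    · exact h3.2 (R.D_trans h3.1 (hDkc j))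
    · rcases R.D_total h3.2 (hDkc j) with h4 | h4
      · exact h3.1 h4
      · have h5 := hns w hw3 (R.D_trans (hDbk j hjk.le) h4) h3.2
        rw [h5] at h4
        exact hkmin j hjk (R.D_antisymm h4 (hDbk j hjk.le))
  obtain ⟨pB, m, dB, eB⟩ := chain R c (h12 c) k hk1 hkr hdeg
  rw [hk] at eB
  -- the set B
  have hBD : ∀ z ∈ SS R c k, R.D b z := fun z hz => hk ▸ SS_D hz
  have hKB : ∀ j < k, R.par^[j] c ∈ SS R c k := fun j hj => mem_SS.mpr ⟨j, hj, Or.inl rfl⟩
  have hNB : ∀ j < k, ∀ x, R.Adj (R.par^[j] c) x → x ∈ SS R c k :=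
    fun j hj x hx => mem_SS.mpr ⟨j, hj, Or.inr hx⟩
  have hsuc : ∀ j, R.par (R.par^[j] c) = R.par^[j + 1] c :=
    fun j => (Function.iterate_succ_apply' _ _ _).symm
  have hbB : b ∈ SS R c k := by
    obtain ⟨i, rfl⟩ : ∃ i, k = i + 1 := ⟨k - 1, by omega⟩
    refine hNB i (by omega) b (Or.inl ⟨hkr i (by omega), ?_⟩)
    rw [hsuc, hk]
  have hcB : c ∈ SS R c k := hKB 0 (by omega)
  have hcS : c ∉ S := fun h => hcb (honly c h hDbc)
  -- structure of B
  have hL : ∀ x ∈ SS R c k, (∃ j < k, x = R.par^[j] c) ∨ x = b ∨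
      (x ≠ R.r ∧ ∃ j < k, R.par x = R.par^[j] c) := by
    intro x hx
    obtain ⟨j, hj, h | ⟨h, h'⟩ | ⟨h, h'⟩⟩ := mem_SS.mp hx
    · left; exact ⟨j, hj, h⟩
    · rw [hsuc] at h'
      by_cases hjk : j + 1 < k
      · left; exact ⟨j + 1, hjk, h'.symm⟩
      · right; left
        have : j + 1 = k := by omega
        rw [← h', this, hk]
    · right; right; exact ⟨h, j, hj, h'⟩
  have hm0 : m ≠ 0 := by
    rintro rfl
    have := eB c hcB hcb
    rw [inner_zero_right] at this
    exact lt_irrefl _ this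
  have hn0 : -(pA b - pA (R.par b)) ≠ 0 :=
    neg_ne_zero.mpr (sub_ne_zero.mpr (dA.1 b hbS _ (hanc b hbS) (R.par_ne hbr).symm))
  obtain ⟨Q, t, ht, hQ⟩ := exists_rot m _ hm0 hn0
  refine ⟨S ∪ SS R c k, ⟨mem_union_left _ hr, ?_, ?_⟩, ?_, ?_⟩
  · intro x hx
    rcases mem_union.mp hx with h | h
    · exact mem_union_left _ (hanc x h)
    · have hKp : ∀ j < k, R.par (R.par^[j] c) ∈ SS R c k := fun j hj =>
        hNB j hj _ (Or.inl ⟨hkr j hj, rfl⟩)
      rcases hL x h with ⟨j, hj, h1⟩ | h1 | ⟨_, j, hj, h1⟩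
      · rw [h1]; exact mem_union_right _ (hKp j hj)
      · rw [h1]; exact mem_union_left _ (hanc b hbS)
      · rw [h1]; exact mem_union_right _ (hKB j hj)
  · intro b' hb'
    by_cases hbb : b' = b
    · -- the only child of b
      left
      intro y hy hpy
      rw [hbb] at hpy
      obtain ⟨i, rfl⟩ : ∃ i, k = i + 1 := ⟨k - 1, by omega⟩
      by_cases hyk : y = R.par^[i] c
      · rw [hyk]; exact mem_union_right _ (hKB i (by omega))
      · exfalso
        have m1 : R.par b ∈ nb R b := mem_nb.mpr (Or.inl ⟨hbr, rfl⟩)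
        have m2 : R.par^[i] c ∈ nb R b :=
          mem_nb.mpr (Or.inr ⟨hkr i (by omega), by rw [hsuc, hk]⟩)
        have m3 : y ∈ nb R b := mem_nb.mpr (Or.inr ⟨hy, hpy⟩)
        have n1 : ∀ z, z ≠ R.r → R.par z = b → R.par b ≠ z := by
          intro z hz hpz h
          have d1 := R.dep_par b hbr
          have d2 := R.dep_par z hz
          rw [hpz] at d2; rw [h] at d1; omega
        have n2 := n1 _ (hkr i (by omega)) (by rw [hsuc, hk])
        have n3 := n1 y hy hpy
        have hsub : ({R.par b, R.par^[i] c, y} : Finset V) ⊆ nb R b := by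
          intro z hz
          simp only [mem_insert, mem_singleton] at hz
          rcases hz with h | h | h
          · rw [h]; exact m1
          · rw [h]; exact m2
          · rw [h]; exact m3
        have h3 : ({R.par b, R.par^[i] c, y} : Finset V).card = 3 := by
          rw [card_insert_of_notMem, card_insert_of_notMem, card_singleton]
          · simpa using fun h : R.par^[i] c = y => hyk h.symm
          · simp only [mem_insert, mem_singleton, not_or]
            exact ⟨n2, n3⟩
        have := card_le_card hsub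
        omega
    · by_cases hK : ∃ j < k, b' = R.par^[j] c
      · left
        obtain ⟨j, hj, h⟩ := hK
        intro y hy hpy
        exact mem_union_right _ (hNB j hj y (Or.inr ⟨hy, hpy.trans h⟩))
      · by_cases hb'S : b' ∈ S
        · rcases hbd b' hb'S with h1 | ⟨h1, h2, h3, h4⟩
          · left; intro y hy hpy; exact mem_union_left _ (h1 y hy hpy)
          · right
            refine ⟨h1, ?_, h3, h4⟩
            intro y hy hpy hmem
            rcases mem_union.mp hmem with h5 | h5
            · exact h2 y hy hpy h5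
            · rcases R.D_step (hBD y h5) with h6 | h6
              · exact h2 y hy hpy (h6 ▸ hbS)
              · rw [hpy] at h6; exact hbb (honly b' hb'S h6)
        · right
          have hb'B : b' ∈ SS R c k := (mem_union.mp hb').resolve_left hb'S
          obtain ⟨hb'r, j, hj, hq⟩ : b' ≠ R.r ∧ ∃ j < k, R.par b' = R.par^[j] c := by
            rcases hL b' hb'B with h | h | h
            · exact absurd h hK
            · exact absurd h hbb
            · exact h
          have hDq : R.D (R.par^[j] c) b' := hq ▸ R.D_par b'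
          have hDbq := hDbk j hj.le
          have hqb := hkmin j hj
          -- a separator of c from something below b' is not above q
          have hw : ∀ w, (nb R w).card = 2 → R.D w c → ¬ R.D w b' → False := by
            intro w hw2 hwc hwb
            rcases R.D_total hwc (hDkc j) with h | h
            · exact hwb (R.D_trans h hDq)
            · have h5 := hns w hw2 (R.D_trans hDbq h) hwc
              rw [h5] at h
              exact hqb (R.D_antisymm h hDbq)
          have hw' : ∀ w, R.D w b' → ¬ R.D w c → w = b' := by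
            intro w hwb hwc
            rcases R.D_step hwb with h | h
            · exact h
            · rw [hq] at h; exact absurd (R.D_trans h (hDkc j)) hwc
          have hnb'c : ¬ R.D b' c := by
            rintro ⟨i, hi⟩
            rcases lt_or_ge i k with h | h
            · exact hK ⟨i, h, hi.symm⟩
            · have h1 : R.D b' b := by
                have := D_iter R c h
                rw [hi, hk] at this; exact this
              exact hbb (R.D_antisymm h1 (hBD b' hb'B))
          refine ⟨hb'r, ?_, ?_, ?_⟩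
          · intro y hy hpy hmem
            rcases mem_union.mp hmem with h5 | h5
            · have := hanc y h5
              rw [hpy] at this; exact hb'S this
            · rcases hL y h5 with ⟨i, hi, h6⟩ | h6 | ⟨_, i, hi, h6⟩
              · rw [h6, hsuc] at hpy
                by_cases hik : i + 1 < k
                · exact hK ⟨i + 1, hik, hpy.symm⟩
                · have : i + 1 = k := by omega
                  rw [this, hk] at hpy; exact hbb hpy.symm
              · rw [h6] at hpy
                rw [← hpy] at hb'B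
                exact R.not_D_par hbr (hBD _ hb'B)
              · rw [hpy] at h6; exact hK ⟨i, hi, h6⟩
          · by_contra hcon
            have hb10 : 10 ≤ (nb R b').card := by omega
            have hb'c : b' ≠ c := by
              rintro rfl; exact hnb'c (R.D_refl _)
            obtain ⟨w, hw1, hw2, hw3, h3 | h3⟩ := hsep b' c hb'c hb10 hc10
            · exact hw1 (hw' w h3.1 h3.2)
            · exact hw w hw3 h3.2 h3.1
          · intro c' hc'10 hDc'
            have hcc : c' ≠ c := by
              rintro rfl; exact hnb'c hDc'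
            obtain ⟨w, hw1, hw2, hw3, h3 | h3⟩ := hsep c' c hcc hc'10 hc10
            · refine ⟨w, hw3, ?_, h3.1, hw1⟩
              rcases R.D_total hDc' h3.1 with h6 | h6
              · exact h6
              · rw [hw' w h6 h3.2]; exact R.D_refl _
            · exact absurd (hw w hw3 h3.2 (fun h => h3.1 (R.D_trans h hDc'))) id
  · refine ⟨subset_union_left, ?_⟩
    intro hsub
    exact hcS (hsub (mem_union_right _ hcB))
  · refine glue_below R hbS hbB hanc honly hBD hbr dA (draw_map Q dB) ?_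
    intro z hz hzb
    have h1 := eB z hz hzb
    rw [← Q.inner_map_map, hQ, map_sub, inner_smul_right, inner_neg_right] at h1
    by_contra hcon
    have h2 : 0 ≤ -inner ℝ (Q (pB z) - Q (pB b)) (pA b - pA (R.par b)) := by
      have := not_lt.mp hcon
      linarith
    have := mul_nonneg ht.le h2
    linarith

theorem main (R : Rt V) (h12 : ∀ v, (nb R v).card ≤ 12)
    (hroot : ∀ v, 10 ≤ (nb R v).card → 10 ≤ (nb R R.r).card)
    (hsep : ∀ u v, u ≠ v → 10 ≤ (nb R u).card → 10 ≤ (nb R v).card →
      ∃ w, w ≠ u ∧ w ≠ v ∧ (nb R w).card = 2 ∧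
        ((R.D w u ∧ ¬ R.D w v) ∨ (¬ R.D w u ∧ R.D w v))) :
    ∃ p, Draw R univ p := by
  classical
  have key : ∀ n : ℕ, ∀ S : Finset V, Sᶜ.card ≤ n → Inv R S → (∃ p, Draw R S p) →
      ∃ p, Draw R univ p := by
    intro n
    induction n with
    | zero =>
      intro S hS _ hd
      have : S = univ := by
        rw [← compl_eq_empty_iff, ← card_eq_zero]; omega
      rw [← this]; exact hd
    | succ n ih =>
      intro S hS hI hd
      by_cases hu : S = univ
      · rw [← hu]; exact hd
      · suffices h : ∃ S', Inv R S' ∧ S ⊂ S' ∧ ∃ p, Draw R S' p by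
          obtain ⟨S', h1, h2, h3⟩ := h
          refine ih S' ?_ h1 h3
          have := card_lt_card (compl_ssubset_compl.mpr h2)
          omega
        -- a vertex outside S of minimal depth
        have hne : (Sᶜ : Finset V).Nonempty := by
          rw [nonempty_iff_ne_empty]
          intro h; exact hu (compl_eq_empty_iff S |>.mp h)
        obtain ⟨y, hy, hmin⟩ := exists_min_image (Sᶜ : Finset V) R.dep hne
        have hyS : y ∉ S := mem_compl.mp hy
        have hyr : y ≠ R.r := by
          rintro rfl; exact hyS hI.1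
        have hbS : R.par y ∈ S := by
          by_contra hcon
          have := hmin _ (mem_compl.mpr hcon)
          have := R.dep_par y hyr
          omega
        have hb : Bd R S (R.par y) := by
          rcases hI.2.2 _ hbS with h | h
          · exact absurd (h y hyr rfl) hyS
          · exact h
        by_cases hcase : (nb R (R.par y)).card = 2 ∧ ∃ c, 10 ≤ (nb R c).card ∧
            R.D (R.par y) c ∧ ∀ w, (nb R w).card = 2 → R.D (R.par y) w → R.D w c → w = R.par y
        · obtain ⟨h2, c, hc10, hDc, hns⟩ := hcase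
          exact step2 R h12 hsep hI hbS hb h2 hc10 hDc hns hd
        · refine step1 R hI hbS hb ?_ hd y hyr rfl
          intro c hc10 hDc
          obtain ⟨w, hw2, h2, h3, h4⟩ := hb.2.2.2 c hc10 hDc
          by_cases hwb : w = R.par y
          · by_contra hcon
            refine hcase ⟨hwb ▸ hw2, c, hc10, hDc, ?_⟩
            intro w' hw'2 h2' h3'
            by_contra hne'
            refine hcon ⟨w', hw'2, h2', h3', ?_, hne'⟩
            rintro rfl; omega
          · exact ⟨w, hw2, h2, h3, h4, hwb⟩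
  obtain ⟨S, hI, hd⟩ := init R h12 hroot hsep
  exact key _ S le_rfl hI hd

end Pool.Agent.TD25
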