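import Pool.Agent.TD25.Main
import Pool.Agent.TD25.Chain2
import Pool.Agent.TD25.Defs2

/-! # TD25, module Main2: the drawing of the whole tree, from the root downwards -/

set_option autoImplicit false

namespace Pool.Agent.TD25

open Finset Filter Topology

variable {V : Type*} [Fintype V] [DecidableEq V]

/-- Adding new children `N` of `w` to a drawing of a part closed under parents. -/
theorem add_star (R : Rt V) {A N : Finset V} {w : V} {pA : V → E3} (hwA : w ∈ A)
    (hanc : ∀ x ∈ A, R.par x ∈ A) (hN : ∀ y ∈ N, y ≠ R.r ∧ R.par y = w ∧ y ∉ A)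
    (dA : Draw R A pA) (k : ℕ) [NeZero k] (hk : N.card ≤ k)
    (hf : ∀ δ : ℝ, 0 < δ → ∃ f : Fin k → E3, (∀ i j, i ≠ j → ‖f i‖ < ‖f i - f j‖) ∧
      (∀ i, 0 < ‖f i‖ ∧ ‖f i‖ ≤ 2) ∧
      ∀ a ∈ A, R.Adj a w → ∀ i, ‖pA w - pA a‖ < ‖(pA w - pA a) + δ • f i‖) :
    ∃ p, Draw R (A ∪ insert w N) p := by
  have hAB : ∀ x ∈ A, x ∈ insert w N → x = w := by
    intro x hx hxN
    rcases mem_insert.mp hxN with h | h
    · exact h
    · exact absurd hx (hN x h).2.2
  have hE : ∀ v ∈ A ∪ insert w N, v ≠ R.r → R.par v ∈ A ∪ insert w N →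
      (v ∈ A ∧ R.par v ∈ A) ∨ (v ∈ insert w N ∧ R.par v ∈ insert w N) := by
    intro v hv _ _
    by_cases hvA : v ∈ A
    · left; exact ⟨hvA, hanc v hvA⟩
    · right
      have h1 := (mem_union.mp hv).resolve_left hvA
      refine ⟨h1, ?_⟩
      rcases mem_insert.mp h1 with h | h
      · exact absurd (h ▸ hwA) hvA
      · rw [(hN v h).2.1]; exact mem_insert_self _ _
  have hA : ∀ v ∈ A, v ≠ R.r → R.par v ∈ A → ∀ z ∈ insert w N, (R.D v z ↔ R.D v w) := by
    intro v hv _ _ z hz
    rcases mem_insert.mp hz with h | h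
    · rw [h]
    · obtain ⟨_, h1, h2⟩ := hN z h
      constructor
      · intro h3
        rcases R.D_step h3 with h4 | h4
        · exact absurd (h4 ▸ hv) h2
        · rw [h1] at h4; exact h4
      · intro h3; exact R.D_trans h3 (h1 ▸ R.D_par z)
  have hB : ∀ v ∈ insert w N, v ≠ R.r → R.par v ∈ insert w N → ∀ u ∈ A,
      (R.D v u ↔ R.D v w) := by
    intro v hv hvr hpv u hu
    rcases mem_insert.mp hv with h | h
    · exfalso
      rw [h] at hpv hvr
      rcases mem_insert.mp hpv with h1 | h1
      · exact R.par_ne hvr h1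
      · exact (hN _ h1).2.2 (hanc w hwA)
    · obtain ⟨h0, h1, h2⟩ := hN v h
      have h3 : ¬ R.D v w := by
        have := R.not_D_par h0
        rwa [h1] at this
      refine iff_of_false ?_ h3
      intro h4
      exact h2 (closed_D hanc h4 hu)
  have E1 := glue_unif R hwA (mem_insert_self w N) hAB hE hA hB dA 4
  obtain ⟨δ, hglue, hδ⟩ := (E1.and self_mem_nhdsWithin).exists
  have hδ0 : (0 : ℝ) < δ := hδ
  obtain ⟨f, f2, fb, fh⟩ := hf δ hδ0
  obtain ⟨g, hg⟩ := exists_inj N k hk
  let pB : V → E3 := fun y => if y = w then 0 else f (g y)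
  have pBw : pB w = 0 := if_pos rfl
  have hadj : ∀ y ∈ N, R.Adj w y := fun y hy => Or.inr ⟨(hN y hy).1, (hN y hy).2.1⟩
  have pBn : ∀ y ∈ N, pB y = f (g y) := fun y hy => if_neg (R.adj_ne (hadj y hy)).symm
  have dB : Draw R (insert w N) pB := by
    refine star R w N hadj pB pBw ?_ ?_
    · intro y hy h0
      have := (fb (g y)).1
      rw [← pBn y hy, h0, norm_zero] at this
      exact lt_irrefl _ this
    · intro y hy y' hy' hne
      rw [pBn y hy, pBn y' hy']
      exact f2 _ _ (hg y hy y' hy' hne)
  have hbn : ∀ y, ‖pB y‖ ≤ 2 := by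
    intro y
    by_cases h : y = w
    · rw [h, pBw, norm_zero]; norm_num
    · have : pB y = f (g y) := if_neg h
      rw [this]; exact (fb _).2
  have hbd : ∀ x ∈ insert w N, ∀ y ∈ insert w N, ‖pB x - pB y‖ ≤ 4 := by
    intro x _ y _
    have h1 := norm_sub_le (pB x) (pB y)
    have h2 := hbn x
    have h3 := hbn y
    linarith
  refine ⟨_, hglue pB hbd dB ?_⟩
  intro a ha hadj' z hz hzw
  have hzN : z ∈ N := (mem_insert.mp hz).resolve_left hzw
  rw [pBw, sub_zero, pBn z hzN]
  exact fh a ha hadj' _

/-- A boundary vertex. -/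
def Bd2 (R : Rt V) (S : Finset V) (b : V) : Prop :=
  b ≠ R.r ∧ (∀ y, y ≠ R.r → R.par y = b → y ∉ S) ∧ (nb R b).card ≤ 10 ∧
    ∀ c, 11 ≤ (nb R c).card → R.D b c → ∃ w, Good R w ∧ R.D b w ∧ R.D w c ∧ w ≠ c

/-- The invariant. -/
def Inv2 (R : Rt V) (S : Finset V) : Prop :=
  R.r ∈ S ∧ (∀ x ∈ S, R.par x ∈ S) ∧
    ∀ b ∈ S, (∀ y, y ≠ R.r → R.par y = b → y ∈ S) ∨ Bd2 R S b

/-- The start: the star of the root. -/
theorem init2 (R : Rt V) (h12 : ∀ v, (nb R v).card ≤ 12)
    (hroot : ∀ v, 11 ≤ (nb R v).card → 11 ≤ (nb R R.r).card)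
    (hsep : ∀ u v, u ≠ v → 11 ≤ (nb R u).card → 11 ≤ (nb R v).card →
      ∃ w, w ≠ u ∧ w ≠ v ∧ Good R w ∧ ¬ SameC R w u v) :
    ∃ S, Inv2 R S ∧ ∃ p, Draw R S p := by
  have hch : ∀ y ∈ nb R R.r, y ≠ R.r ∧ R.par y = R.r := by
    intro y hy
    rcases mem_nb.mp hy with ⟨h, _⟩ | ⟨h, h'⟩
    · exact absurd rfl h
    · exact ⟨h, h'⟩
  have hDr : ∀ w, R.D w R.r → w = R.r := fun w hw => R.D_antisymm hw (R.root_D w)
  have hs : ∀ v, R.r ≠ v → 11 ≤ (nb R v).card →
      ∃ w, w ≠ R.r ∧ w ≠ v ∧ Good R w ∧ R.D w v := by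
    intro v hv h11
    obtain ⟨w, hw1, hw2, hw3, h3⟩ := hsep R.r v hv (hroot v h11) h11
    refine ⟨w, hw1, hw2, hw3, ?_⟩
    by_contra hcon
    exact h3 (Or.inl ⟨fun h => hw1 (hDr w h), hcon⟩)
  refine ⟨insert R.r (nb R R.r), ⟨mem_insert_self _ _, ?_, ?_⟩, ?_⟩
  · intro x hx
    rcases mem_insert.mp hx with h | h
    · rw [h, R.par_r]; exact mem_insert_self _ _
    · rw [(hch x h).2]; exact mem_insert_self _ _
  · intro b hb
    rcases mem_insert.mp hb with h | h
    · left
      intro y hy hpy
      rw [h] at hpy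
      exact mem_insert_of_mem (mem_nb.mpr (Or.inr ⟨hy, hpy⟩))
    · right
      obtain ⟨hbr, hpb⟩ := hch b h
      refine ⟨hbr, ?_, ?_, ?_⟩
      · intro y hy hpy hmem
        rcases mem_insert.mp hmem with h1 | h1
        · exact hy h1
        · rw [(hch y h1).2] at hpy; exact hbr hpy.symm
      · by_contra hcon
        obtain ⟨w, hw1, hw2, _, h3⟩ := hs b hbr.symm (by omega)
        rcases R.D_step h3 with h4 | h4
        · exact hw2 h4
        · rw [hpb] at h4; exact hw1 (hDr w h4)
      · intro c hc hDc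
        have hcr : c ≠ R.r := by
          rintro rfl; exact hbr (hDr b hDc)
        obtain ⟨w, hw1, hw2, hw3, h3⟩ := hs c hcr.symm hc
        refine ⟨w, hw3, ?_, h3, hw2⟩
        rcases R.D_total hDc h3 with h4 | h4
        · exact h4
        · rcases R.D_step h4 with h5 | h5
          · rw [h5]; exact R.D_refl b
          · rw [hpb] at h5; exact absurd (hDr w h5) hw1
  · obtain ⟨d, d0, d1, _⟩ := exists_twelve
    obtain ⟨g, hg⟩ := exists_inj (nb R R.r) 12 (h12 R.r)
    let p : V → E3 := fun y => if y = R.r then 0 else d (g y)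
    have pn : ∀ y ∈ nb R R.r, p y = d (g y) := by
      intro y hy
      exact if_neg (hch y hy).1
    refine ⟨p, star R R.r (nb R R.r) (fun y hy => mem_nb.mp hy) p (if_pos rfl) ?_ ?_⟩
    · intro y hy; rw [pn y hy]; exact d0 _
    · intro y hy y' hy' hne
      rw [pn y hy, pn y' hy']
      exact d1 _ _ (hg y hy y' hy' hne)

theorem mem_children (R : Rt V) {b : V} (hbr : b ≠ R.r) (y : V) :
    y ∈ (nb R b).erase (R.par b) ↔ y ≠ R.r ∧ R.par y = b := by
  rw [mem_erase, mem_nb]
  constructor
  · rintro ⟨h1, ⟨_, h3⟩ | ⟨h2, h3⟩⟩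
    · exact absurd h3.symm h1
    · exact ⟨h2, h3⟩
  · rintro ⟨h1, h2⟩
    refine ⟨?_, Or.inr ⟨h1, h2⟩⟩
    intro h3
    have d1 := R.dep_par b hbr
    have d2 := R.dep_par y h1
    rw [h2] at d2; rw [h3] at d2; omega

/-- Case 1: the children of `b`. -/
theorem step1' (R : Rt V) {S : Finset V} {b : V} (hI : Inv2 R S) (hbS : b ∈ S) (hb : Bd2 R S b)
    (hc : ∀ c, 11 ≤ (nb R c).card → R.D b c →
      ∃ w, Good R w ∧ R.D b w ∧ R.D w c ∧ w ≠ c ∧ w ≠ b)
    (hd : ∃ p, Draw R S p) (y₀ : V) (hy₀ : y₀ ≠ R.r) (hpy₀ : R.par y₀ = b) :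
    ∃ S', Inv2 R S' ∧ S ⊂ S' ∧ ∃ p, Draw R S' p := by
  obtain ⟨hr, hanc, hbd⟩ := hI
  obtain ⟨hbr, hno, h9, _⟩ := hb
  obtain ⟨pA, dA⟩ := hd
  have hpb : R.par b ∈ nb R b := mem_nb.mpr (Or.inl ⟨hbr, rfl⟩)
  have hcN : ((nb R b).erase (R.par b)).card ≤ 9 := by
    rw [card_erase_of_mem hpb]; omega
  have hN := mem_children R hbr
  generalize hNN : (nb R b).erase (R.par b) = N at hcN hN
  have hn0 : pA b - pA (R.par b) ≠ 0 :=
    sub_ne_zero.mpr (dA.1 b hbS _ (hanc b hbS) (R.par_ne hbr).symm)
  have hy₀N : y₀ ∈ N := (hN y₀).mpr ⟨hy₀, hpy₀⟩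
  refine ⟨S ∪ insert b N, ⟨mem_union_left _ hr, ?_, ?_⟩, ?_, ?_⟩
  · intro x hx
    rcases mem_union.mp hx with h | h
    · exact mem_union_left _ (hanc x h)
    · rcases mem_insert.mp h with h1 | h1
      · rw [h1]; exact mem_union_left _ (hanc b hbS)
      · rw [((hN x).mp h1).2]; exact mem_union_left _ hbS
  · intro b' hb'
    by_cases hbb : b' = b
    · left
      intro y hy hpy
      rw [hbb] at hpy
      exact mem_union_right _ (mem_insert_of_mem ((hN y).mpr ⟨hy, hpy⟩))
    · rcases mem_union.mp hb' with h | h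
      · rcases hbd b' h with h1 | ⟨h1, h2, h3, h4⟩
        · left; intro y hy hpy; exact mem_union_left _ (h1 y hy hpy)
        · right
          refine ⟨h1, ?_, h3, h4⟩
          intro y hy hpy hmem
          rcases mem_union.mp hmem with h5 | h5
          · exact h2 y hy hpy h5
          · rcases mem_insert.mp h5 with h6 | h6
            · exact h2 y hy hpy (h6 ▸ hbS)
            · rw [((hN y).mp h6).2] at hpy; exact hbb hpy.symm
      · have h1 : b' ∈ N := (mem_insert.mp h).resolve_left hbb
        obtain ⟨hb'r, hpb'⟩ := (hN b').mp h1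
        right
        refine ⟨hb'r, ?_, ?_, ?_⟩
        · intro y hy hpy hmem
          rcases mem_union.mp hmem with h5 | h5
          · have := hanc y h5
            rw [hpy] at this
            exact hno b' hb'r hpb' this
          · rcases mem_insert.mp h5 with h6 | h6
            · rw [h6] at hpy
              have d1 := R.dep_par b hbr
              have d2 := R.dep_par b' hb'r
              rw [hpy] at d1; rw [hpb'] at d2; omega
            · rw [((hN y).mp h6).2] at hpy; exact hbb hpy.symm
        · by_contra hcon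
          obtain ⟨w, _, h2, h3, h4, h5⟩ := hc b' (by omega) (hpb' ▸ R.D_par b')
          rcases R.D_step h3 with h6 | h6
          · exact h4 h6
          · rw [hpb'] at h6; exact h5 (R.D_antisymm h6 h2)
        · intro c hc10 hDc
          obtain ⟨w, hw2, h2, h3, h4, h5⟩ := hc c hc10 (R.D_trans (hpb' ▸ R.D_par b') hDc)
          refine ⟨w, hw2, ?_, h3, h4⟩
          rcases R.D_total hDc h3 with h6 | h6
          · exact h6
          · rcases R.D_step h6 with h7 | h7
            · rw [h7]; exact R.D_refl _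
            · rw [hpb'] at h7; exact absurd (R.D_antisymm h7 h2) h5
  · refine ⟨subset_union_left, ?_⟩
    intro hsub
    exact hno y₀ hy₀ hpy₀ (hsub (mem_union_right _ (mem_insert_of_mem hy₀N)))
  · refine add_star R hbS hanc ?_ dA 9 hcN ?_
    · intro y hy
      obtain ⟨h1, h2⟩ := (hN y).mp hy
      exact ⟨h1, h2, hno y h1 h2⟩
    · intro δ hδ
      obtain ⟨f, f1, f2, fb, _⟩ := exists_nine (pA b - pA (R.par b)) hn0 (δ / 2) (by linarith)
      refine ⟨f, f2, fun i => ⟨by linarith [(fb i).1], (fb i).2⟩, ?_⟩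
      intro a ha hadj i
      have hab : a = R.par b := by
        rcases hadj with ⟨h1, h2⟩ | ⟨_, h2⟩
        · exact absurd ha (hno a h1 h2)
        · exact h2.symm
      rw [hab]
      exact norm_grow2 _ _ hδ (f1 i) (fb i).1

/-- Case 2: the cluster of a vertex `c` of high degree with no other separator below `b`. -/
theorem step2' (R : Rt V) (h12 : ∀ v, (nb R v).card ≤ 12)
    (hsep : ∀ u v, u ≠ v → 11 ≤ (nb R u).card → 11 ≤ (nb R v).card →
      ∃ w, w ≠ u ∧ w ≠ v ∧ Good R w ∧ ¬ SameC R w u v)
    {S : Finset V} {b : V} (hI : Inv2 R S) (hbS : b ∈ S) (hb : Bd2 R S b)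
    (hb2 : Good R b) {c : V} (hc10 : 11 ≤ (nb R c).card) (hDbc : R.D b c)
    (hns : ∀ w, Good R w → R.D b w → R.D w c → w = b)
    (hd : ∃ p, Draw R S p) :
    ∃ S', Inv2 R S' ∧ S ⊂ S' ∧ ∃ p, Draw R S' p := by
  classical
  obtain ⟨hr, hanc, hbd⟩ := hI
  obtain ⟨hbr, hno, h9, _⟩ := hb
  obtain ⟨pA, dA⟩ := hd
  have honly := only_below hanc hno
  have hb6 : (nb R b).card ≤ 6 := hb2.1
  have hcb : c ≠ b := by
    rintro rfl; omega
  have hDbr : ¬ R.D b R.r := fun h => hbr (R.D_antisymm h (R.root_D b))
  -- the minimal k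
  obtain ⟨k, hk, hkmin⟩ : ∃ k, R.par^[k] c = b ∧ ∀ j < k, R.par^[j] c ≠ b :=
    ⟨Nat.find hDbc, Nat.find_spec hDbc, fun j hj => Nat.find_min hDbc hj⟩
  have hk1 : 1 ≤ k := by
    rcases Nat.eq_zero_or_pos k with h | h
    · rw [h] at hk; exact absurd hk hcb
    · exact h
  have hDbk : ∀ j ≤ k, R.D b (R.par^[j] c) := fun j hj => hk ▸ D_iter R c hj
  have hDkc : ∀ j, R.D (R.par^[j] c) c := fun j => ⟨j, rfl⟩
  have hkr : ∀ j < k, R.par^[j] c ≠ R.r := by
    intro j hj h
    have := hDbk j hj.le
    rw [h] at this; exact hDbr this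
  have hcr : c ≠ R.r := hkr 0 (by omega)
  have hkc : ∀ j, 0 < j → R.par^[j] c ≠ c := by
    intro j hj h
    obtain ⟨i, rfl⟩ : ∃ i, j = i + 1 := ⟨j - 1, by omega⟩
    rw [Function.iterate_succ_apply] at h
    exact R.not_D_par hcr ⟨i, h⟩
  -- a good vertex on the path from `k_j` to `c` is excluded
  have hnogood : ∀ j < k, ∀ w, Good R w → R.D (R.par^[j] c) w → R.D w c → False := by
    intro j hj w hw h1 h2
    have h5 := hns w hw (R.D_trans (hDbk j hj.le) h1) h2
    rw [h5] at h1
    exact hkmin j hj (R.D_antisymm h1 (hDbk j hj.le))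
  have hdeg : ∀ j, 0 < j → j < k → (nb R (R.par^[j] c)).card ≤ 10 := by
    intro j hj0 hjk
    by_contra hcon
    obtain ⟨w, hw1, hw2, hw3, h3⟩ := hsep (R.par^[j] c) c (hkc j hj0) (by omega) hc10
    have h4 : ¬ R.D w (R.par^[j] c) := by
      intro h
      obtain ⟨y, hy1, hy2, hy3⟩ := R.exists_child h (Ne.symm hw1)
      exact h3 (Or.inr ⟨y, hy1, hy2, hy3, R.D_trans hy3 (hDkc j)⟩)
    have h5 : R.D w c := by
      by_contra h
      exact h3 (Or.inl ⟨h4, h⟩)
    rcases R.D_total h5 (hDkc j) with h6 | h6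
    · exact h4 h6
    · exact hnogood j hjk w hw3 h6 h5
  obtain ⟨pB, m, dB, eB⟩ := chain2 R c (h12 c) k hk1 hkr hdeg
  rw [hk] at eB
  -- the set B
  have hBD : ∀ z ∈ SS R c k, R.D b z := fun z hz => hk ▸ SS_D hz
  have hKB : ∀ j < k, R.par^[j] c ∈ SS R c k := fun j hj => mem_SS.mpr ⟨j, hj, Or.inl rfl⟩
  have hNB : ∀ j < k, ∀ x, R.Adj (R.par^[j] c) x → x ∈ SS R c k :=
    fun j hj x hx => mem_SS.mpr ⟨j, hj, Or.inr hx⟩
  have hsuc : ∀ j, R.par (R.par^[j] c) = R.par^[j + 1] c :=
    fun j => (Function.iterate_succ_apply' _ _ _).symm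
  obtain ⟨i₁, hi₁⟩ : ∃ i, k = i + 1 := ⟨k - 1, by omega⟩
  -- the child of b on the path
  have hq1 : R.par^[i₁] c ≠ R.r := hkr i₁ (by omega)
  have hq2 : R.par (R.par^[i₁] c) = b := by rw [hsuc, ← hi₁, hk]
  have hbB : b ∈ SS R c k := hNB i₁ (by omega) b (Or.inl ⟨hq1, hq2⟩)
  have hcB : c ∈ SS R c k := hKB 0 (by omega)
  have hcS : c ∉ S := fun h => hcb (honly c h hDbc)
  have hq3 : ∀ x ∈ SS R c k, x ≠ b → R.D (R.par^[i₁] c) x := by
    intro x hx hxb
    rw [hi₁] at hx
    refine SS_D' hx ?_
    rw [← hi₁, hk]; exact hxb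
  -- structure of B
  have hL : ∀ x ∈ SS R c k, (∃ j < k, x = R.par^[j] c) ∨ x = b ∨
      (x ≠ R.r ∧ ∃ j < k, R.par x = R.par^[j] c) := by
    intro x hx
    obtain ⟨j, hj, h | ⟨h, h'⟩ | ⟨h, h'⟩⟩ := mem_SS.mp hx
    · left; exact ⟨j, hj, h⟩
    · rw [hsuc] at h'
      by_cases hjk : j + 1 < k
      · left; exact ⟨j + 1, hjk, h'.symm⟩
      · right; left
        have : j + 1 = k := by omega
        rw [← h', this, hk]
    · right; right; exact ⟨h, j, hj, h'⟩
  have hm0 : m ≠ 0 := by
    rintro rfl
    have := eB c hcB hcb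
    rw [inner_zero_right] at this
    exact lt_irrefl _ this
  have hn0 : -(pA b - pA (R.par b)) ≠ 0 :=
    neg_ne_zero.mpr (sub_ne_zero.mpr (dA.1 b hbS _ (hanc b hbS) (R.par_ne hbr).symm))
  obtain ⟨Q, t, ht, hQ⟩ := exists_rot m _ hm0 hn0
  -- the first gluing
  obtain ⟨p₁, d₁⟩ : ∃ p, Draw R (S ∪ SS R c k) p := by
    refine glue_below R hbS hbB hanc honly hBD hbr dA (draw_map Q dB) ?_
    intro z hz hzb
    have h1 := eB z hz hzb
    rw [← Q.inner_map_map, hQ, map_sub, inner_smul_right, inner_neg_right] at h1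
    by_contra hcon
    have h2 : 0 ≤ -inner ℝ (Q (pB z) - Q (pB b)) (pA b - pA (R.par b)) := by
      have := not_lt.mp hcon
      linarith
    have := mul_nonneg ht.le h2
    linarith
  have hanc₁ : ∀ x ∈ S ∪ SS R c k, R.par x ∈ S ∪ SS R c k := by
    intro x hx
    rcases mem_union.mp hx with h | h
    · exact mem_union_left _ (hanc x h)
    · have hKp : ∀ j < k, R.par (R.par^[j] c) ∈ SS R c k := fun j hj =>
        hNB j hj _ (Or.inl ⟨hkr j hj, rfl⟩)
      rcases hL x h with ⟨j, hj, h1⟩ | h1 | ⟨_, j, hj, h1⟩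
      · rw [h1]; exact mem_union_right _ (hKp j hj)
      · rw [h1]; exact mem_union_left _ (hanc b hbS)
      · rw [h1]; exact mem_union_right _ (hKB j hj)
  -- the other children of b
  have hNm : ∀ y, y ∈ ((nb R b).erase (R.par b)).erase (R.par^[i₁] c) ↔
      (y ≠ R.r ∧ R.par y = b) ∧ y ≠ R.par^[i₁] c := by
    intro y
    rw [mem_erase, mem_children R hbr]
    exact and_comm
  have hpb : R.par b ∈ nb R b := mem_nb.mpr (Or.inl ⟨hbr, rfl⟩)
  have hcN : (((nb R b).erase (R.par b)).erase (R.par^[i₁] c)).card ≤ 4 := by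
    rw [card_erase_of_mem ((mem_children R hbr _).mpr ⟨hq1, hq2⟩), card_erase_of_mem hpb]
    omega
  generalize hNN : ((nb R b).erase (R.par b)).erase (R.par^[i₁] c) = N at hNm hcN
  have hNout : ∀ y ∈ N, y ∉ S ∪ SS R c k := by
    intro y hy hmem
    obtain ⟨⟨h1, h2⟩, h3⟩ := (hNm y).mp hy
    rcases mem_union.mp hmem with h | h
    · exact hno y h1 h2 h
    · have hyb : y ≠ b := by
        rintro rfl; exact R.par_ne h1 h2
      rcases R.D_step (hq3 y h hyb) with h4 | h4
      · exact h3 h4.symm
      · rw [h2, ← hq2] at h4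
        exact R.not_D_par hq1 h4
  refine ⟨S ∪ SS R c k ∪ insert b N, ⟨mem_union_left _ (mem_union_left _ hr), ?_, ?_⟩, ?_, ?_⟩
  · intro x hx
    rcases mem_union.mp hx with h | h
    · exact mem_union_left _ (hanc₁ x h)
    · rcases mem_insert.mp h with h1 | h1
      · rw [h1]; exact mem_union_left _ (hanc₁ b (mem_union_left _ hbS))
      · rw [((hNm x).mp h1).1.2]; exact mem_union_left _ (mem_union_left _ hbS)
  · intro b' hb'
    by_cases hbb : b' = b
    · -- all children of b are drawn
      left
      intro y hy hpy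
      rw [hbb] at hpy
      by_cases hyk : y = R.par^[i₁] c
      · rw [hyk]; exact mem_union_left _ (mem_union_right _ (hKB i₁ (by omega)))
      · exact mem_union_right _ (mem_insert_of_mem ((hNm y).mpr ⟨⟨hy, hpy⟩, hyk⟩))
    · -- children of b' are not in insert b N
      have hnN : ∀ y, R.par y = b' → y ∈ insert b N → y = b := by
        intro y hpy hmem
        rcases mem_insert.mp hmem with h | h
        · exact h
        · exfalso
          rw [((hNm y).mp h).1.2] at hpy; exact hbb hpy.symm
      by_cases hK : ∃ j < k, b' = R.par^[j] c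
      · left
        obtain ⟨j, hj, h⟩ := hK
        intro y hy hpy
        exact mem_union_left _ (mem_union_right _ (hNB j hj y (Or.inr ⟨hy, hpy.trans h⟩)))
      · by_cases hb'S : b' ∈ S
        · rcases hbd b' hb'S with h1 | ⟨h1, h2, h3, h4⟩
          · left; intro y hy hpy; exact mem_union_left _ (mem_union_left _ (h1 y hy hpy))
          · right
            refine ⟨h1, ?_, h3, h4⟩
            intro y hy hpy hmem
            rcases mem_union.mp hmem with h | h
            · rcases mem_union.mp h with h5 | h5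
              · exact h2 y hy hpy h5
              · rcases R.D_step (hBD y h5) with h6 | h6
                · exact h2 y hy hpy (h6 ▸ hbS)
                · rw [hpy] at h6; exact hbb (honly b' hb'S h6)
            · exact h2 y hy hpy ((hnN y hpy h) ▸ hbS)
        · right
          by_cases hb'N : b' ∈ N
          · obtain ⟨⟨hb'r, hb'p⟩, hb'k⟩ := (hNm b').mp hb'N
            -- b' and the path child of b are different children of b
            have hnb'c : ¬ R.D b' c := by
              intro h
              have d1 := R.dep_par b' hb'r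
              have d2 := R.dep_par _ hq1
              rw [hb'p] at d1; rw [hq2] at d2
              exact hb'k (R.D_eq_of_dep h (hDkc i₁) (by omega))
            have hchild : ∀ z, 11 ≤ (nb R z).card → ¬ R.D b' z := by
              intro z hz hDz
              have hDbz : R.D b z := R.D_trans (hb'p ▸ R.D_par b') hDz
              obtain ⟨y, hy1, hy2, hy3, hy4⟩ := hb2.2 z c hz hc10 hDbz hDbc
              have d1 := R.dep_par b' hb'r
              have d2 := R.dep_par y hy1
              rw [hb'p] at d1; rw [hy2] at d2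
              have := R.D_eq_of_dep hDz hy3 (by omega)
              rw [this] at hnb'c; exact hnb'c hy4
            refine ⟨hb'r, ?_, ?_, ?_⟩
            · intro y hy hpy hmem
              rcases mem_union.mp hmem with h | h
              · have := hanc₁ y h
                rw [hpy] at this
                exact hNout b' hb'N this
              · have h5 := hnN y hpy h
                rw [h5] at hpy
                have d1 := R.dep_par b' hb'r
                have d2 := R.dep_par b hbr
                rw [hb'p] at d1; rw [hpy] at d2; omega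
            · by_contra hcon
              exact hchild b' (by omega) (R.D_refl b')
            · intro c' hc' hDc'
              exact absurd hDc' (hchild c' hc')
          · have hb'B : b' ∈ SS R c k := by
              rcases mem_union.mp hb' with h | h
              · exact (mem_union.mp h).resolve_left hb'S
              · rcases mem_insert.mp h with h1 | h1
                · exact absurd h1 hbb
                · exact absurd h1 hb'N
            obtain ⟨hb'r, j, hj, hq⟩ : b' ≠ R.r ∧ ∃ j < k, R.par b' = R.par^[j] c := by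
              rcases hL b' hb'B with h | h | h
              · exact absurd h hK
              · exact absurd h hbb
              · exact h
            have hDq : R.D (R.par^[j] c) b' := hq ▸ R.D_par b'
            have hnb'c : ¬ R.D b' c := by
              rintro ⟨i, hi⟩
              rcases lt_or_ge i k with h | h
              · exact hK ⟨i, h, hi.symm⟩
              · have h1 : R.D b' b := by
                  have := D_iter R c h
                  rw [hi, hk] at this; exact this
                exact hbb (R.D_antisymm h1 (hBD b' hb'B))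
            -- a good vertex that separates `c` and a vertex `c'` below `b'` lies below `b'`
            have hmain : ∀ c' w, R.D b' c' → w ≠ c' → w ≠ c → Good R w → ¬ SameC R w c' c →
                R.D b' w ∧ R.D w c' := by
              intro c' w hbc' hwc' hwc hg hs
              have hD1 : R.D w c' := by
                by_contra h
                have h5 : R.D w c := by
                  by_contra h'
                  exact hs (Or.inl ⟨h, h'⟩)
                rcases R.D_total h5 (hDkc j) with h6 | h6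
                · exact h (R.D_trans h6 (R.D_trans hDq hbc'))
                · exact hnogood j hj w hg h6 h5
              refine ⟨?_, hD1⟩
              rcases R.D_total hbc' hD1 with h6 | h6
              · exact h6
              · rcases R.D_step h6 with h7 | h7
                · rw [h7]; exact R.D_refl _
                · exfalso
                  rw [hq] at h7
                  by_cases hwq : w = R.par^[j] c
                  · exact hnogood j hj w hg (hwq ▸ R.D_refl _) (hwq ▸ hDkc j)
                  · obtain ⟨y, hy1, hy2, hy3⟩ := R.exists_child h7 (Ne.symm hwq)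
                    exact hs (Or.inr ⟨y, hy1, hy2, R.D_trans hy3 (R.D_trans hDq hbc'),
                      R.D_trans hy3 (hDkc j)⟩)
            refine ⟨hb'r, ?_, ?_, ?_⟩
            · intro y hy hpy hmem
              have key : y ≠ b := by
                rintro rfl
                rw [← hpy] at hb'B
                exact R.not_D_par hbr (hBD _ hb'B)
              rcases mem_union.mp hmem with h | h
              · rcases mem_union.mp h with h5 | h5
                · have := hanc y h5
                  rw [hpy] at this; exact hb'S this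
                · rcases hL y h5 with ⟨i, hi, h6⟩ | h6 | ⟨_, i, hi, h6⟩
                  · rw [h6, hsuc] at hpy
                    by_cases hik : i + 1 < k
                    · exact hK ⟨i + 1, hik, hpy.symm⟩
                    · have : i + 1 = k := by omega
                      rw [this, hk] at hpy; exact hbb hpy.symm
                  · exact key h6
                  · rw [hpy] at h6; exact hK ⟨i, hi, h6⟩
              · exact key (hnN y hpy h)
            · by_contra hcon
              have hb'c : b' ≠ c := by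
                rintro rfl; exact hnb'c (R.D_refl _)
              obtain ⟨w, hw1, hw2, hw3, h3⟩ := hsep b' c hb'c (by omega) hc10
              obtain ⟨h4, h5⟩ := hmain b' w (R.D_refl _) hw1 hw2 hw3 h3
              exact hw1 (R.D_antisymm h5 h4)
            · intro c' hc'10 hDc'
              have hcc : c' ≠ c := by
                rintro rfl; exact hnb'c hDc'
              obtain ⟨w, hw1, hw2, hw3, h3⟩ := hsep c' c hcc hc'10 hc10
              obtain ⟨h4, h5⟩ := hmain c' w hDc' hw1 hw2 hw3 h3
              exact ⟨w, hw3, h4, h5, hw1⟩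
  · refine ⟨fun x hx => mem_union_left _ (mem_union_left _ hx), ?_⟩
    intro hsub
    exact hcS (hsub (mem_union_left _ (mem_union_right _ hcB)))
  · refine add_star R (mem_union_left _ hbS) hanc₁ ?_ d₁ 4 hcN ?_
    · intro y hy
      obtain ⟨⟨h1, h2⟩, _⟩ := (hNm y).mp hy
      exact ⟨h1, h2, hNout y hy⟩
    · intro δ hδ
      obtain ⟨f, f1, f2, f3, fb⟩ := exists_four (p₁ b - p₁ (R.par b)) (p₁ b - p₁ (R.par^[i₁] c))
      refine ⟨f, f3, fb, ?_⟩
      intro a ha hadj i
      rcases hadj with ⟨h1, h2⟩ | ⟨_, h2⟩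
      · have hak : a = R.par^[i₁] c := by
          by_contra hne
          exact hNout a ((hNm a).mpr ⟨⟨h1, h2⟩, hne⟩) ha
        rw [hak]
        exact norm_grow3 _ _ hδ (f2 i) (fb i).1
      · rw [← h2]
        exact norm_grow3 _ _ hδ (f1 i) (fb i).1

theorem main2 (R : Rt V) (h12 : ∀ v, (nb R v).card ≤ 12)
    (hroot : ∀ v, 11 ≤ (nb R v).card → 11 ≤ (nb R R.r).card)
    (hsep : ∀ u v, u ≠ v → 11 ≤ (nb R u).card → 11 ≤ (nb R v).card →
      ∃ w, w ≠ u ∧ w ≠ v ∧ Good R w ∧ ¬ SameC R w u v) :
    ∃ p, Draw R univ p := by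
  classical
  have key : ∀ n : ℕ, ∀ S : Finset V, Sᶜ.card ≤ n → Inv2 R S → (∃ p, Draw R S p) →
      ∃ p, Draw R univ p := by
    intro n
    induction n with
    | zero =>
      intro S hS _ hd
      have : S = univ := by
        rw [← compl_eq_empty_iff, ← card_eq_zero]; omega
      rw [← this]; exact hd
    | succ n ih =>
      intro S hS hI hd
      by_cases hu : S = univ
      · rw [← hu]; exact hd
      · suffices h : ∃ S', Inv2 R S' ∧ S ⊂ S' ∧ ∃ p, Draw R S' p by
          obtain ⟨S', h1, h2, h3⟩ := h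
          refine ih S' ?_ h1 h3
          have := card_lt_card (compl_ssubset_compl.mpr h2)
          omega
        -- a vertex outside S of minimal depth
        have hne : (Sᶜ : Finset V).Nonempty := by
          rw [nonempty_iff_ne_empty]
          intro h; exact hu (compl_eq_empty_iff S |>.mp h)
        obtain ⟨y, hy, hmin⟩ := exists_min_image (Sᶜ : Finset V) R.dep hne
        have hyS : y ∉ S := mem_compl.mp hy
        have hyr : y ≠ R.r := by
          rintro rfl; exact hyS hI.1
        have hbS : R.par y ∈ S := by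
          by_contra hcon
          have := hmin _ (mem_compl.mpr hcon)
          have := R.dep_par y hyr
          omega
        have hb : Bd2 R S (R.par y) := by
          rcases hI.2.2 _ hbS with h | h
          · exact absurd (h y hyr rfl) hyS
          · exact h
        by_cases hcase : Good R (R.par y) ∧ ∃ c, 11 ≤ (nb R c).card ∧
            R.D (R.par y) c ∧ ∀ w, Good R w → R.D (R.par y) w → R.D w c → w = R.par y
        · obtain ⟨h2, c, hc10, hDc, hns⟩ := hcase
          exact step2' R h12 hsep hI hbS hb h2 hc10 hDc hns hd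
        · refine step1' R hI hbS hb ?_ hd y hyr rfl
          intro c hc10 hDc
          obtain ⟨w, hw2, h2, h3, h4⟩ := hb.2.2.2 c hc10 hDc
          by_cases hwb : w = R.par y
          · by_contra hcon
            refine hcase ⟨hwb ▸ hw2, c, hc10, hDc, ?_⟩
            intro w' hw'2 h2' h3'
            by_contra hne'
            refine hcon ⟨w', hw'2, h2', h3', ?_, hne'⟩
            rintro rfl
            have := hw'2.1
            omega
          · exact ⟨w, hw2, h2, h3, h4, hwb⟩
  obtain ⟨S, hI, hd⟩ := init2 R h12 hroot hsep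
  exact key _ S le_rfl hI hd

end Pool.Agent.TD25
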