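import Pool.Agent.TD25.Main2
import Pool.Agent.TD25.Chain3

/-! # TD25, module Main3: separators of degree at most 8 on paths of degrees at most 8 -/

set_option autoImplicit false

namespace Pool.Agent.TD25

open Finset Filter Topology

variable {V : Type*} [Fintype V] [DecidableEq V]

/-- All vertices of degree at least 11 below `w` are below the same child of `w`. -/
def Two (R : Rt V) (w : V) : Prop :=
  ∀ z z', 11 ≤ (nb R z).card → 11 ≤ (nb R z').card → R.D w z → R.D w z' →
    ∃ y, y ≠ R.r ∧ R.par y = w ∧ R.D y z ∧ R.D y z'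

/-- `w` is a separator above `c`. -/
def Sep3 (R : Rt V) (w c : V) : Prop :=
  Two R w ∧ ((nb R w).card ≤ 6 ∨ ∀ x, R.D w x → R.D x c → x ≠ c → (nb R x).card ≤ 8)

omit [DecidableEq V] in
theorem two_not_heavy {R : Rt V} {w : V} (h : Two R w) : ¬ 11 ≤ (nb R w).card := by
  intro h11
  obtain ⟨y, h1, h2, h3, _⟩ := h w w h11 h11 (R.D_refl w) (R.D_refl w)
  rw [← h2] at h3
  exact R.not_D_par h1 h3

/-- The hypothesis in rooted form. -/
def Hsep (R : Rt V) : Prop :=
  ∀ u v, u ≠ v → 11 ≤ (nb R u).card → 11 ≤ (nb R v).card →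
    (∀ x, 11 ≤ (nb R x).card → x ≠ u → x ≠ v → SameC R x u v) →
    ∃ w, w ≠ u ∧ w ≠ v ∧ Two R w ∧ ¬ SameC R w u v ∧
      ((nb R w).card ≤ 6 ∨ ∀ x, x ≠ u → x ≠ v → ¬ SameC R x u v → (nb R x).card ≤ 8)

omit [DecidableEq V] in
theorem hsep_lower {R : Rt V} {u v w : V} (h1 : ¬ R.D w u) (ht : Two R w)
    (h : (nb R w).card ≤ 6 ∨ ∀ x, x ≠ u → x ≠ v → ¬ SameC R x u v → (nb R x).card ≤ 8) :
    Sep3 R w v := by
  refine ⟨ht, ?_⟩
  rcases h with h | h
  · exact Or.inl h
  · right
    intro x hwx hxv hne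
    refine h x ?_ hne ?_
    · rintro rfl; exact h1 hwx
    · rintro (⟨_, h4⟩ | ⟨y, h4, h5, h6, _⟩)
      · exact h4 hxv
      · exact h1 (R.D_trans hwx (R.D_trans (h5 ▸ R.D_par y) h6))

omit [DecidableEq V] in
theorem hsep_cases {R : Rt V} (hs : Hsep R) {u v : V} (huv : u ≠ v) (hu : 11 ≤ (nb R u).card)
    (hv : 11 ≤ (nb R v).card)
    (hcons : ∀ x, 11 ≤ (nb R x).card → x ≠ u → x ≠ v → SameC R x u v) :
    (∃ w, w ≠ v ∧ ¬ R.D w u ∧ R.D w v ∧ Sep3 R w v) ∨
    (∃ w, w ≠ u ∧ ¬ R.D w v ∧ R.D w u ∧ Sep3 R w u) := by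
  obtain ⟨w, h1, h2, h3, h4, h5⟩ := hs u v huv hu hv hcons
  by_cases hwu : R.D w u
  · by_cases hwv : R.D w v
    · exfalso
      exact h4 (Or.inr (h3 u v hu hv hwu hwv))
    · right
      refine ⟨w, h1, hwv, hwu, hsep_lower (u := v) hwv h3 ?_⟩
      rcases h5 with h | h
      · exact Or.inl h
      · right
        intro x hx1 hx2 hx3
        refine h x hx2 hx1 (fun hc => hx3 ?_)
        rcases hc with ⟨a, b⟩ | ⟨y, a, b, c, d⟩
        · exact Or.inl ⟨b, a⟩
        · exact Or.inr ⟨y, a, b, d, c⟩
  · by_cases hwv : R.D w v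
    · left
      exact ⟨w, h2, hwu, hwv, hsep_lower hwu h3 h5⟩
    · exact absurd (Or.inl ⟨hwu, hwv⟩) h4

omit [DecidableEq V] in
/-- Between a vertex `c` of degree at least 11 and an ancestor `u₀` of degree at least 11 there is
a separator above `c`. -/
theorem sep_anc {R : Rt V} (hs : Hsep R) {u₀ c : V} (hu : 11 ≤ (nb R u₀).card)
    (hc : 11 ≤ (nb R c).card) (hD : R.D u₀ c) (hne : u₀ ≠ c) :
    ∃ w, Sep3 R w c ∧ R.D u₀ w ∧ w ≠ u₀ ∧ R.D w c ∧ w ≠ c := by
  classical
  let P : Finset V := univ.filter (fun x => 11 ≤ (nb R x).card ∧ R.D x c ∧ x ≠ c)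
  have hP : ∀ x, x ∈ P ↔ 11 ≤ (nb R x).card ∧ R.D x c ∧ x ≠ c := by
    intro x; simp [P]
  obtain ⟨u, huP, hmax⟩ := exists_max_image P R.dep ⟨u₀, (hP u₀).mpr ⟨hu, hD, hne⟩⟩
  obtain ⟨hu11, huc, hunc⟩ := (hP u).mp huP
  have hu0u : R.D u₀ u := by
    rcases R.D_total hD huc with h | h
    · exact h
    · have h2 := hmax u₀ ((hP u₀).mpr ⟨hu, hD, hne⟩)
      rw [R.D_eq h h2]; exact R.D_refl _
  have hcons : ∀ x, 11 ≤ (nb R x).card → x ≠ u → x ≠ c → SameC R x u c := by
    intro x hx hxu hxc
    by_cases hxD : R.D x c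
    · have h1 := hmax x ((hP x).mpr ⟨hx, hxD, hxc⟩)
      rcases R.D_total hxD huc with h | h
      · obtain ⟨y, hy1, hy2, hy3⟩ := R.exists_child h (Ne.symm hxu)
        exact Or.inr ⟨y, hy1, hy2, hy3, R.D_trans hy3 huc⟩
      · exact absurd (R.D_eq h h1).symm hxu
    · exact Or.inl ⟨fun h => hxD (R.D_trans h huc), hxD⟩
  rcases hsep_cases hs hunc hu11 hc hcons with ⟨w, h1, h2, h3, h4⟩ | ⟨w, _, h2, h3, _⟩
  · have huw : R.D u w := by
      rcases R.D_total h3 huc with h | h
      · exact absurd h h2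
      · exact h
    refine ⟨w, h4, R.D_trans hu0u huw, ?_, h3, h1⟩
    rintro rfl; exact h2 hu0u
  · exact absurd (R.D_trans h3 huc) h2

/-- Gluing a drawing of descendants of `b` at the leaf `b`, explicit form. -/
theorem glue_below' (R : Rt V) {S B : Finset V} {b : V} {pA pB : V → E3} (hbS : b ∈ S)
    (hbB : b ∈ B) (hanc : ∀ x ∈ S, R.par x ∈ S)
    (honly : ∀ x ∈ S, R.D b x → x = b) (hbelow : ∀ z ∈ B, R.D b z) (hbr : b ≠ R.r)
    (dA : Draw R S pA) (dB : Draw R B pB)
    (hang : ∀ z ∈ B, z ≠ b → 0 < inner ℝ (pB z - pB b) (pA b - pA (R.par b))) :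
    ∃ δ : ℝ, 0 < δ ∧ Draw R (S ∪ B) (gl S b pA pB δ) := by
  have hAB : ∀ x ∈ S, x ∈ B → x = b := fun x hx hx' => honly x hx (hbelow x hx')
  have hE : ∀ v ∈ S ∪ B, v ≠ R.r → R.par v ∈ S ∪ B →
      (v ∈ S ∧ R.par v ∈ S) ∨ (v ∈ B ∧ R.par v ∈ B) := by
    intro v hv hvr hpv
    by_cases hvS : v ∈ S
    · left; exact ⟨hvS, hanc v hvS⟩
    · right
      have hvB : v ∈ B := (mem_union.mp hv).resolve_left hvS
      refine ⟨hvB, ?_⟩
      rcases mem_union.mp hpv with h | h
      · rcases R.D_step (hbelow v hvB) with h1 | h1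
        · exact absurd (h1 ▸ hbS) hvS
        · rw [honly _ h h1]; exact hbB
      · exact h
  have hA : ∀ v ∈ S, v ≠ R.r → R.par v ∈ S → ∀ z ∈ B, (R.D v z ↔ R.D v b) := by
    intro v hv _ _ z hz
    constructor
    · intro h
      rcases R.D_total h (hbelow z hz) with h1 | h1
      · exact h1
      · rw [honly v hv h1]; exact R.D_refl b
    · intro h; exact R.D_trans h (hbelow z hz)
  have hB : ∀ v ∈ B, v ≠ R.r → R.par v ∈ B → ∀ u ∈ S, (R.D v u ↔ R.D v b) := by
    intro v hv hvr hpv u hu
    have hvb : v ≠ b := by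
      rintro rfl; exact R.not_D_par hvr (hbelow _ hpv)
    have h1 : ¬ R.D v b := fun h => hvb (R.D_antisymm h (hbelow v hv))
    refine iff_of_false (fun h => ?_) h1
    have h2 := honly u hu (R.D_trans (hbelow v hv) h)
    rw [h2] at h
    exact h1 h
  have hang' : ∀ a ∈ S, R.Adj a b → ∀ z ∈ B, z ≠ b →
      0 < inner ℝ (pB z - pB b) (pA b - pA a) := by
    intro a ha hadj z hz hzb
    rcases hadj with ⟨_, h1⟩ | ⟨_, h1⟩
    · exfalso
      have h2 : a = b := honly a ha (h1 ▸ R.D_par a)
      subst h2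
      exact R.par_ne hbr h1
    · rw [← h1]; exact hang z hz hzb
  obtain ⟨δ, h, hδ⟩ := ((glue R hbS hbB hAB hE hA hB dA dB hang').and
    self_mem_nhdsWithin).exists
  exact ⟨δ, hδ, h⟩

/-- A boundary vertex. -/
def Bd3 (R : Rt V) (S : Finset V) (b : V) : Prop :=
  b ≠ R.r ∧ (∀ y, y ≠ R.r → R.par y = b → y ∉ S) ∧ (nb R b).card ≤ 10 ∧
    ∀ c, 11 ≤ (nb R c).card → R.D b c → ∃ w, Sep3 R w c ∧ R.D b w ∧ R.D w c ∧ w ≠ c

/-- The invariant. -/
def Inv3 (R : Rt V) (S : Finset V) : Prop :=
  R.r ∈ S ∧ (∀ x ∈ S, R.par x ∈ S) ∧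
    ∀ b ∈ S, (∀ y, y ≠ R.r → R.par y = b → y ∈ S) ∨ Bd3 R S b

/-- The start: the star of the root. -/
theorem init3 (R : Rt V) (h12 : ∀ v, (nb R v).card ≤ 12)
    (hroot : ∀ v, 11 ≤ (nb R v).card → 11 ≤ (nb R R.r).card)
    (hsep : Hsep R) :
    ∃ S, Inv3 R S ∧ ∃ p, Draw R S p := by
  have hch : ∀ y ∈ nb R R.r, y ≠ R.r ∧ R.par y = R.r := by
    intro y hy
    rcases mem_nb.mp hy with ⟨h, _⟩ | ⟨h, h'⟩
    · exact absurd rfl h
    · exact ⟨h, h'⟩
  have hDr : ∀ w, R.D w R.r → w = R.r := fun w hw => R.D_antisymm hw (R.root_D w)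
  have hs : ∀ v, R.r ≠ v → 11 ≤ (nb R v).card →
      ∃ w, w ≠ R.r ∧ w ≠ v ∧ Sep3 R w v ∧ R.D w v := by
    intro v hv h11
    obtain ⟨w, h1, _, h2, h3, h4⟩ := sep_anc hsep (hroot v h11) h11 (R.root_D v) hv
    exact ⟨w, h2, h4, h1, h3⟩
  refine ⟨insert R.r (nb R R.r), ⟨mem_insert_self _ _, ?_, ?_⟩, ?_⟩
  · intro x hx
    rcases mem_insert.mp hx with h | h
    · rw [h, R.par_r]; exact mem_insert_self _ _
    · rw [(hch x h).2]; exact mem_insert_self _ _
  · intro b hb
    rcases mem_insert.mp hb with h | h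
    · left
      intro y hy hpy
      rw [h] at hpy
      exact mem_insert_of_mem (mem_nb.mpr (Or.inr ⟨hy, hpy⟩))
    · right
      obtain ⟨hbr, hpb⟩ := hch b h
      refine ⟨hbr, ?_, ?_, ?_⟩
      · intro y hy hpy hmem
        rcases mem_insert.mp hmem with h1 | h1
        · exact hy h1
        · rw [(hch y h1).2] at hpy; exact hbr hpy.symm
      · by_contra hcon
        obtain ⟨w, hw1, hw2, _, h3⟩ := hs b hbr.symm (by omega)
        rcases R.D_step h3 with h4 | h4
        · exact hw2 h4
        · rw [hpb] at h4; exact hw1 (hDr w h4)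
      · intro c hc hDc
        have hcr : c ≠ R.r := by
          rintro rfl; exact hbr (hDr b hDc)
        obtain ⟨w, hw1, hw2, hw3, h3⟩ := hs c hcr.symm hc
        refine ⟨w, hw3, ?_, h3, hw2⟩
        rcases R.D_total hDc h3 with h4 | h4
        · exact h4
        · rcases R.D_step h4 with h5 | h5
          · rw [h5]; exact R.D_refl b
          · rw [hpb] at h5; exact absurd (hDr w h5) hw1
  · obtain ⟨d, d0, d1, _⟩ := exists_twelve
    obtain ⟨g, hg⟩ := exists_inj (nb R R.r) 12 (h12 R.r)
    let p : V → E3 := fun y => if y = R.r then 0 else d (g y)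
    have pn : ∀ y ∈ nb R R.r, p y = d (g y) := by
      intro y hy
      exact if_neg (hch y hy).1
    refine ⟨p, star R R.r (nb R R.r) (fun y hy => mem_nb.mp hy) p (if_pos rfl) ?_ ?_⟩
    · intro y hy; rw [pn y hy]; exact d0 _
    · intro y hy y' hy' hne
      rw [pn y hy, pn y' hy']
      exact d1 _ _ (hg y hy y' hy' hne)

/-- Case 1: the children of `b`. -/
theorem step1'' (R : Rt V) {S : Finset V} {b : V} (hI : Inv3 R S) (hbS : b ∈ S) (hb : Bd3 R S b)
    (hc : ∀ c, 11 ≤ (nb R c).card → R.D b c →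
      ∃ w, Sep3 R w c ∧ R.D b w ∧ R.D w c ∧ w ≠ c ∧ w ≠ b)
    (hd : ∃ p, Draw R S p) (y₀ : V) (hy₀ : y₀ ≠ R.r) (hpy₀ : R.par y₀ = b) :
    ∃ S', Inv3 R S' ∧ S ⊂ S' ∧ ∃ p, Draw R S' p := by
  obtain ⟨hr, hanc, hbd⟩ := hI
  obtain ⟨hbr, hno, h9, _⟩ := hb
  obtain ⟨pA, dA⟩ := hd
  have hpb : R.par b ∈ nb R b := mem_nb.mpr (Or.inl ⟨hbr, rfl⟩)
  have hcN : ((nb R b).erase (R.par b)).card ≤ 9 := by
    rw [card_erase_of_mem hpb]; omega
  have hN := mem_children R hbr
  generalize hNN : (nb R b).erase (R.par b) = N at hcN hN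
  have hn0 : pA b - pA (R.par b) ≠ 0 :=
    sub_ne_zero.mpr (dA.1 b hbS _ (hanc b hbS) (R.par_ne hbr).symm)
  have hy₀N : y₀ ∈ N := (hN y₀).mpr ⟨hy₀, hpy₀⟩
  refine ⟨S ∪ insert b N, ⟨mem_union_left _ hr, ?_, ?_⟩, ?_, ?_⟩
  · intro x hx
    rcases mem_union.mp hx with h | h
    · exact mem_union_left _ (hanc x h)
    · rcases mem_insert.mp h with h1 | h1
      · rw [h1]; exact mem_union_left _ (hanc b hbS)
      · rw [((hN x).mp h1).2]; exact mem_union_left _ hbS
  · intro b' hb'
    by_cases hbb : b' = b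
    · left
      intro y hy hpy
      rw [hbb] at hpy
      exact mem_union_right _ (mem_insert_of_mem ((hN y).mpr ⟨hy, hpy⟩))
    · rcases mem_union.mp hb' with h | h
      · rcases hbd b' h with h1 | ⟨h1, h2, h3, h4⟩
        · left; intro y hy hpy; exact mem_union_left _ (h1 y hy hpy)
        · right
          refine ⟨h1, ?_, h3, h4⟩
          intro y hy hpy hmem
          rcases mem_union.mp hmem with h5 | h5
          · exact h2 y hy hpy h5
          · rcases mem_insert.mp h5 with h6 | h6
            · exact h2 y hy hpy (h6 ▸ hbS)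
            · rw [((hN y).mp h6).2] at hpy; exact hbb hpy.symm
      · have h1 : b' ∈ N := (mem_insert.mp h).resolve_left hbb
        obtain ⟨hb'r, hpb'⟩ := (hN b').mp h1
        right
        refine ⟨hb'r, ?_, ?_, ?_⟩
        · intro y hy hpy hmem
          rcases mem_union.mp hmem with h5 | h5
          · have := hanc y h5
            rw [hpy] at this
            exact hno b' hb'r hpb' this
          · rcases mem_insert.mp h5 with h6 | h6
            · rw [h6] at hpy
              have d1 := R.dep_par b hbr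
              have d2 := R.dep_par b' hb'r
              rw [hpy] at d1; rw [hpb'] at d2; omega
            · rw [((hN y).mp h6).2] at hpy; exact hbb hpy.symm
        · by_contra hcon
          obtain ⟨w, _, h2, h3, h4, h5⟩ := hc b' (by omega) (hpb' ▸ R.D_par b')
          rcases R.D_step h3 with h6 | h6
          · exact h4 h6
          · rw [hpb'] at h6; exact h5 (R.D_antisymm h6 h2)
        · intro c hc10 hDc
          obtain ⟨w, hw2, h2, h3, h4, h5⟩ := hc c hc10 (R.D_trans (hpb' ▸ R.D_par b') hDc)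
          refine ⟨w, hw2, ?_, h3, h4⟩
          rcases R.D_total hDc h3 with h6 | h6
          · exact h6
          · rcases R.D_step h6 with h7 | h7
            · rw [h7]; exact R.D_refl _
            · rw [hpb'] at h7; exact absurd (R.D_antisymm h7 h2) h5
  · refine ⟨subset_union_left, ?_⟩
    intro hsub
    exact hno y₀ hy₀ hpy₀ (hsub (mem_union_right _ (mem_insert_of_mem hy₀N)))
  · refine add_star R hbS hanc ?_ dA 9 hcN ?_
    · intro y hy
      obtain ⟨h1, h2⟩ := (hN y).mp hy
      exact ⟨h1, h2, hno y h1 h2⟩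
    · intro δ hδ
      obtain ⟨f, f1, f2, fb, _⟩ := exists_nine (pA b - pA (R.par b)) hn0 (δ / 2) (by linarith)
      refine ⟨f, f2, fun i => ⟨by linarith [(fb i).1], (fb i).2⟩, ?_⟩
      intro a ha hadj i
      have hab : a = R.par b := by
        rcases hadj with ⟨h1, h2⟩ | ⟨_, h2⟩
        · exact absurd ha (hno a h1 h2)
        · exact h2.symm
      rw [hab]
      exact norm_grow2 _ _ hδ (f1 i) (fb i).1

/-- Case 2: the cluster of a vertex `c` of high degree with no other separator below `b`. -/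
theorem step2'' (R : Rt V) (h12 : ∀ v, (nb R v).card ≤ 12)
    (hsep : Hsep R)
    {S : Finset V} {b : V} (hI : Inv3 R S) (hbS : b ∈ S) (hb : Bd3 R S b)
    {c : V} (hb2 : Sep3 R b c) (hc10 : 11 ≤ (nb R c).card) (hDbc : R.D b c)
    (hns : ∀ w, Sep3 R w c → R.D b w → R.D w c → w = b)
    (hd : ∃ p, Draw R S p) :
    ∃ S', Inv3 R S' ∧ S ⊂ S' ∧ ∃ p, Draw R S' p := by
  classical
  obtain ⟨hr, hanc, hbd⟩ := hI
  obtain ⟨hbr, hno, h9, _⟩ := hb
  obtain ⟨pA, dA⟩ := hd
  have honly := only_below hanc hno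
  have hcb : c ≠ b := by
    rintro rfl; exact two_not_heavy hb2.1 hc10
  have hDbr : ¬ R.D b R.r := fun h => hbr (R.D_antisymm h (R.root_D b))
  -- the minimal k
  obtain ⟨k, hk, hkmin⟩ : ∃ k, R.par^[k] c = b ∧ ∀ j < k, R.par^[j] c ≠ b :=
    ⟨Nat.find hDbc, Nat.find_spec hDbc, fun j hj => Nat.find_min hDbc hj⟩
  have hk1 : 1 ≤ k := by
    rcases Nat.eq_zero_or_pos k with h | h
    · rw [h] at hk; exact absurd hk hcb
    · exact h
  have hDbk : ∀ j ≤ k, R.D b (R.par^[j] c) := fun j hj => hk ▸ D_iter R c hj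
  have hDkc : ∀ j, R.D (R.par^[j] c) c := fun j => ⟨j, rfl⟩
  have hkr : ∀ j < k, R.par^[j] c ≠ R.r := by
    intro j hj h
    have := hDbk j hj.le
    rw [h] at this; exact hDbr this
  have hcr : c ≠ R.r := hkr 0 (by omega)
  have hkc : ∀ j, 0 < j → R.par^[j] c ≠ c := by
    intro j hj h
    obtain ⟨i, rfl⟩ : ∃ i, j = i + 1 := ⟨j - 1, by omega⟩
    rw [Function.iterate_succ_apply] at h
    exact R.not_D_par hcr ⟨i, h⟩
  -- a good vertex on the path from `k_j` to `c` is excluded
  have hnogood : ∀ j < k, ∀ w, Sep3 R w c → R.D (R.par^[j] c) w → R.D w c → False := by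
    intro j hj w hw h1 h2
    have h5 := hns w hw (R.D_trans (hDbk j hj.le) h1) h2
    rw [h5] at h1
    exact hkmin j hj (R.D_antisymm h1 (hDbk j hj.le))
  have hdeg : ∀ j, 0 < j → j < k → (nb R (R.par^[j] c)).card ≤ 10 := by
    intro j hj0 hjk
    by_contra hcon
    obtain ⟨w, h1, h2, _, h3, _⟩ := sep_anc hsep (by omega) hc10 (hDkc j) (hkc j hj0)
    exact hnogood j hjk w h1 h2 h3
  -- the set B
  have hBD : ∀ z ∈ SS R c k, R.D b z := fun z hz => hk ▸ SS_D hz
  have hKB : ∀ j < k, R.par^[j] c ∈ SS R c k := fun j hj => mem_SS.mpr ⟨j, hj, Or.inl rfl⟩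
  have hNB : ∀ j < k, ∀ x, R.Adj (R.par^[j] c) x → x ∈ SS R c k :=
    fun j hj x hx => mem_SS.mpr ⟨j, hj, Or.inr hx⟩
  have hsuc : ∀ j, R.par (R.par^[j] c) = R.par^[j + 1] c :=
    fun j => (Function.iterate_succ_apply' _ _ _).symm
  obtain ⟨i₁, hi₁⟩ : ∃ i, k = i + 1 := ⟨k - 1, by omega⟩
  -- the child of b on the path
  have hq1 : R.par^[i₁] c ≠ R.r := hkr i₁ (by omega)
  have hq2 : R.par (R.par^[i₁] c) = b := by rw [hsuc, ← hi₁, hk]
  have hbB : b ∈ SS R c k := hNB i₁ (by omega) b (Or.inl ⟨hq1, hq2⟩)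
  have hcB : c ∈ SS R c k := hKB 0 (by omega)
  have hcS : c ∉ S := fun h => hcb (honly c h hDbc)
  have hq3 : ∀ x ∈ SS R c k, x ≠ b → R.D (R.par^[i₁] c) x := by
    intro x hx hxb
    rw [hi₁] at hx
    refine SS_D' hx ?_
    rw [← hi₁, hk]; exact hxb
  -- structure of B
  have hL : ∀ x ∈ SS R c k, (∃ j < k, x = R.par^[j] c) ∨ x = b ∨
      (x ≠ R.r ∧ ∃ j < k, R.par x = R.par^[j] c) := by
    intro x hx
    obtain ⟨j, hj, h | ⟨h, h'⟩ | ⟨h, h'⟩⟩ := mem_SS.mp hx
    · left; exact ⟨j, hj, h⟩
    · rw [hsuc] at h'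
      by_cases hjk : j + 1 < k
      · left; exact ⟨j + 1, hjk, h'.symm⟩
      · right; left
        have : j + 1 = k := by omega
        rw [← h', this, hk]
    · right; right; exact ⟨h, j, hj, h'⟩
  have hanc₁ : ∀ x ∈ S ∪ SS R c k, R.par x ∈ S ∪ SS R c k := by
    intro x hx
    rcases mem_union.mp hx with h | h
    · exact mem_union_left _ (hanc x h)
    · have hKp : ∀ j < k, R.par (R.par^[j] c) ∈ SS R c k := fun j hj =>
        hNB j hj _ (Or.inl ⟨hkr j hj, rfl⟩)
      rcases hL x h with ⟨j, hj, h1⟩ | h1 | ⟨_, j, hj, h1⟩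
      · rw [h1]; exact mem_union_right _ (hKp j hj)
      · rw [h1]; exact mem_union_left _ (hanc b hbS)
      · rw [h1]; exact mem_union_right _ (hKB j hj)
  -- the other children of b
  have hNm : ∀ y, y ∈ ((nb R b).erase (R.par b)).erase (R.par^[i₁] c) ↔
      (y ≠ R.r ∧ R.par y = b) ∧ y ≠ R.par^[i₁] c := by
    intro y
    rw [mem_erase, mem_children R hbr]
    exact and_comm
  have hpb : R.par b ∈ nb R b := mem_nb.mpr (Or.inl ⟨hbr, rfl⟩)
  have hcN : (((nb R b).erase (R.par b)).erase (R.par^[i₁] c)).card + 2 = (nb R b).card := by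
    have h1 := card_erase_of_mem ((mem_children R hbr _).mpr ⟨hq1, hq2⟩)
    have h2 := card_erase_of_mem hpb
    have h3 : 0 < ((nb R b).erase (R.par b)).card :=
      card_pos.mpr ⟨_, (mem_children R hbr _).mpr ⟨hq1, hq2⟩⟩
    omega
  generalize hNN : ((nb R b).erase (R.par b)).erase (R.par^[i₁] c) = N at hNm hcN
  -- the first gluing, with room for the other children of b
  obtain ⟨p₁, d₁, kk, hkk0, hkk, hroom⟩ : ∃ p₁, Draw R (S ∪ SS R c k) p₁ ∧
      ∃ (kk : ℕ) (_ : NeZero kk), N.card ≤ kk ∧ ∀ δ : ℝ, 0 < δ → ∃ f : Fin kk → E3,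
        (∀ i j, i ≠ j → ‖f i‖ < ‖f i - f j‖) ∧ (∀ i, 0 < ‖f i‖ ∧ ‖f i‖ ≤ 2) ∧
        (∀ i, ‖p₁ b - p₁ (R.par b)‖ < ‖(p₁ b - p₁ (R.par b)) + δ • f i‖) ∧
        (∀ i, ‖p₁ b - p₁ (R.par^[i₁] c)‖ < ‖(p₁ b - p₁ (R.par^[i₁] c)) + δ • f i‖) := by
    have hn1 : pA b - pA (R.par b) ≠ 0 :=
      sub_ne_zero.mpr (dA.1 b hbS _ (hanc b hbS) (R.par_ne hbr).symm)
    have hn0 : -(pA b - pA (R.par b)) ≠ 0 := neg_ne_zero.mpr hn1
    have hangle : ∀ (pB : V → E3) (m : E3) (Q : E3 ≃ₗᵢ[ℝ] E3) (t : ℝ), 0 < t →
        Ext (SS R c k) pB b m → Q m = t • (-(pA b - pA (R.par b))) → ∀ z ∈ SS R c k, z ≠ b →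
        0 < inner ℝ (Q (pB z) - Q (pB b)) (pA b - pA (R.par b)) := by
      intro pB m Q t ht eB hQ z hz hzb
      have h1 := eB z hz hzb
      rw [← Q.inner_map_map, hQ, map_sub, inner_smul_right, inner_neg_right] at h1
      by_contra hcon
      have h2 : 0 ≤ -inner ℝ (Q (pB z) - Q (pB b)) (pA b - pA (R.par b)) := by
        have := not_lt.mp hcon
        linarith
      have := mul_nonneg ht.le h2
      linarith
    have hm0 : ∀ (pB : V → E3) (m : E3), Ext (SS R c k) pB b m → m ≠ 0 := by
      rintro pB m eB rfl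
      have := eB c hcB hcb
      rw [inner_zero_right] at this
      exact lt_irrefl _ this
    rcases hb2.2 with h6 | h8
    · obtain ⟨pB, m, dB, eB⟩ := chain2 R c (h12 c) k hk1 hkr hdeg
      rw [hk] at eB
      obtain ⟨Q, t, ht, hQ⟩ := exists_rot m _ (hm0 pB m eB) hn0
      obtain ⟨p₁, d₁⟩ := glue_below R hbS hbB hanc honly hBD hbr dA (draw_map Q dB)
        (hangle pB m Q t ht eB hQ)
      refine ⟨p₁, d₁, 4, ⟨by norm_num⟩, by omega, ?_⟩
      intro δ hδ
      obtain ⟨f, f1, f2, f3, fb⟩ := exists_four (p₁ b - p₁ (R.par b)) (p₁ b - p₁ (R.par^[i₁] c))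
      exact ⟨f, f3, fb, fun i => norm_grow3 _ _ hδ (f1 i) (fb i).1,
        fun i => norm_grow3 _ _ hδ (f2 i) (fb i).1⟩
    · have hb8 : (nb R b).card ≤ 8 := h8 b (R.D_refl b) hDbc hcb.symm
      have hdeg8 : ∀ j, 0 < j → j < i₁ + 1 → (nb R (R.par^[j] c)).card ≤ 8 :=
        fun j hj0 hj => h8 _ (hDbk j (by omega)) (hDkc j) (hkc j hj0)
      obtain ⟨pB, dB, eB⟩ := chain8 R c (h12 c) i₁ (fun j hj => hkr j (by omega)) hdeg8
      rw [← hi₁, hk] at eB
      rw [← hi₁] at dB
      obtain ⟨Q, t, ht, hQ⟩ := exists_rot _ _ (hm0 pB _ eB) hn0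
      obtain ⟨ε, hε, d₁⟩ := glue_below' R hbS hbB hanc honly hBD hbr dA (draw_map Q dB)
        (hangle pB _ Q t ht eB hQ)
      have e1 : gl S b pA (fun x => Q (pB x)) ε b = pA b := gl_A hbS
      have e2 : gl S b pA (fun x => Q (pB x)) ε (R.par b) = pA (R.par b) := gl_A (hanc b hbS)
      have hqS : R.par^[i₁] c ∉ S := hno _ hq1 hq2
      have e3 : gl S b pA (fun x => Q (pB x)) ε (R.par^[i₁] c)
          = pA b + ε • (Q (pB (R.par^[i₁] c)) - Q (pB b)) := by
        unfold gl; rw [if_neg hqS]
      have e4 : pA b - (pA b + ε • (Q (pB (R.par^[i₁] c)) - Q (pB b)))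
          = -((ε * t) • (pA b - pA (R.par b))) := by
        have h9 : Q (pB (R.par^[i₁] c)) - Q (pB b) = -(Q (pB b - pB (R.par^[i₁] c))) := by
          rw [map_sub]; abel
        rw [h9, hQ, sub_add_cancel_left, smul_neg, neg_neg, smul_smul, smul_neg]
      refine ⟨_, d₁, 6, ⟨by norm_num⟩, by omega, ?_⟩
      intro δ hδ
      have hεt : 0 < ε * t := mul_pos hε ht
      obtain ⟨f, f1, f2, fb⟩ := exists_six (pA b - pA (R.par b)) hn1
        (min (δ / 2) (δ / 2 / (ε * t))) (lt_min (by linarith) (by positivity))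
      refine ⟨f, f2, fun i => ⟨by linarith [(fb i).1], (fb i).2⟩, ?_, ?_⟩
      · intro i
        rw [e1, e2]
        refine norm_grow2 _ _ hδ ?_ (fb i).1
        have h1 := (abs_lt.mp (f1 i)).1
        have h2 := min_le_left (δ / 2) (δ / 2 / (ε * t))
        linarith
      · intro i
        rw [e1, e3, e4]
        refine norm_grow2 _ _ hδ ?_ (fb i).1
        rw [inner_neg_right, inner_smul_right]
        have h1 := (abs_lt.mp (f1 i)).2
        have h2 := min_le_right (δ / 2) (δ / 2 / (ε * t))
        have h3 : inner ℝ (f i) (pA b - pA (R.par b)) < δ / 2 / (ε * t) := lt_of_lt_of_le h1 h2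
        rw [lt_div_iff₀ hεt, mul_comm] at h3
        linarith
  have hNout : ∀ y ∈ N, y ∉ S ∪ SS R c k := by
    intro y hy hmem
    obtain ⟨⟨h1, h2⟩, h3⟩ := (hNm y).mp hy
    rcases mem_union.mp hmem with h | h
    · exact hno y h1 h2 h
    · have hyb : y ≠ b := by
        rintro rfl; exact R.par_ne h1 h2
      rcases R.D_step (hq3 y h hyb) with h4 | h4
      · exact h3 h4.symm
      · rw [h2, ← hq2] at h4
        exact R.not_D_par hq1 h4
  refine ⟨S ∪ SS R c k ∪ insert b N, ⟨mem_union_left _ (mem_union_left _ hr), ?_, ?_⟩, ?_, ?_⟩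
  · intro x hx
    rcases mem_union.mp hx with h | h
    · exact mem_union_left _ (hanc₁ x h)
    · rcases mem_insert.mp h with h1 | h1
      · rw [h1]; exact mem_union_left _ (hanc₁ b (mem_union_left _ hbS))
      · rw [((hNm x).mp h1).1.2]; exact mem_union_left _ (mem_union_left _ hbS)
  · intro b' hb'
    by_cases hbb : b' = b
    · -- all children of b are drawn
      left
      intro y hy hpy
      rw [hbb] at hpy
      by_cases hyk : y = R.par^[i₁] c
      · rw [hyk]; exact mem_union_left _ (mem_union_right _ (hKB i₁ (by omega)))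
      · exact mem_union_right _ (mem_insert_of_mem ((hNm y).mpr ⟨⟨hy, hpy⟩, hyk⟩))
    · -- children of b' are not in insert b N
      have hnN : ∀ y, R.par y = b' → y ∈ insert b N → y = b := by
        intro y hpy hmem
        rcases mem_insert.mp hmem with h | h
        · exact h
        · exfalso
          rw [((hNm y).mp h).1.2] at hpy; exact hbb hpy.symm
      by_cases hK : ∃ j < k, b' = R.par^[j] c
      · left
        obtain ⟨j, hj, h⟩ := hK
        intro y hy hpy
        exact mem_union_left _ (mem_union_right _ (hNB j hj y (Or.inr ⟨hy, hpy.trans h⟩)))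
      · by_cases hb'S : b' ∈ S
        · rcases hbd b' hb'S with h1 | ⟨h1, h2, h3, h4⟩
          · left; intro y hy hpy; exact mem_union_left _ (mem_union_left _ (h1 y hy hpy))
          · right
            refine ⟨h1, ?_, h3, h4⟩
            intro y hy hpy hmem
            rcases mem_union.mp hmem with h | h
            · rcases mem_union.mp h with h5 | h5
              · exact h2 y hy hpy h5
              · rcases R.D_step (hBD y h5) with h6 | h6
                · exact h2 y hy hpy (h6 ▸ hbS)
                · rw [hpy] at h6; exact hbb (honly b' hb'S h6)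
            · exact h2 y hy hpy ((hnN y hpy h) ▸ hbS)
        · right
          by_cases hb'N : b' ∈ N
          · obtain ⟨⟨hb'r, hb'p⟩, hb'k⟩ := (hNm b').mp hb'N
            -- b' and the path child of b are different children of b
            have hnb'c : ¬ R.D b' c := by
              intro h
              have d1 := R.dep_par b' hb'r
              have d2 := R.dep_par _ hq1
              rw [hb'p] at d1; rw [hq2] at d2
              exact hb'k (R.D_eq_of_dep h (hDkc i₁) (by omega))
            have hchild : ∀ z, 11 ≤ (nb R z).card → ¬ R.D b' z := by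
              intro z hz hDz
              have hDbz : R.D b z := R.D_trans (hb'p ▸ R.D_par b') hDz
              obtain ⟨y, hy1, hy2, hy3, hy4⟩ := hb2.1 z c hz hc10 hDbz hDbc
              have d1 := R.dep_par b' hb'r
              have d2 := R.dep_par y hy1
              rw [hb'p] at d1; rw [hy2] at d2
              have := R.D_eq_of_dep hDz hy3 (by omega)
              rw [this] at hnb'c; exact hnb'c hy4
            refine ⟨hb'r, ?_, ?_, ?_⟩
            · intro y hy hpy hmem
              rcases mem_union.mp hmem with h | h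
              · have := hanc₁ y h
                rw [hpy] at this
                exact hNout b' hb'N this
              · have h5 := hnN y hpy h
                rw [h5] at hpy
                have d1 := R.dep_par b' hb'r
                have d2 := R.dep_par b hbr
                rw [hb'p] at d1; rw [hpy] at d2; omega
            · by_contra hcon
              exact hchild b' (by omega) (R.D_refl b')
            · intro c' hc' hDc'
              exact absurd hDc' (hchild c' hc')
          · have hb'B : b' ∈ SS R c k := by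
              rcases mem_union.mp hb' with h | h
              · exact (mem_union.mp h).resolve_left hb'S
              · rcases mem_insert.mp h with h1 | h1
                · exact absurd h1 hbb
                · exact absurd h1 hb'N
            obtain ⟨hb'r, j, hj, hq⟩ : b' ≠ R.r ∧ ∃ j < k, R.par b' = R.par^[j] c := by
              rcases hL b' hb'B with h | h | h
              · exact absurd h hK
              · exact absurd h hbb
              · exact h
            have hDq : R.D (R.par^[j] c) b' := hq ▸ R.D_par b'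
            have hnb'c : ¬ R.D b' c := by
              rintro ⟨i, hi⟩
              rcases lt_or_ge i k with h | h
              · exact hK ⟨i, h, hi.symm⟩
              · have h1 : R.D b' b := by
                  have := D_iter R c h
                  rw [hi, hk] at this; exact this
                exact hbb (R.D_antisymm h1 (hBD b' hb'B))
            -- no vertex of degree at least 11 on the path from `par b'` to `c` except `c`
            have hchain : ∀ x, 11 ≤ (nb R x).card → R.D (R.par^[j] c) x → R.D x c → x = c := by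
              intro x hx h1 h2
              by_contra hne
              obtain ⟨w, h3, h4, _, h5, _⟩ := sep_anc hsep hx hc10 h2 hne
              exact hnogood j hj w h3 (R.D_trans h1 h4) h5
            have hcase : ∀ c', 11 ≤ (nb R c').card → R.D b' c' →
                ∃ w, w ≠ c' ∧ Sep3 R w c' ∧ R.D b' w ∧ R.D w c' := by
              intro c' hc' hDc'
              have hcc : c' ≠ c := by
                rintro rfl; exact hnb'c hDc'
              by_cases hex : ∃ x, 11 ≤ (nb R x).card ∧ R.D b' x ∧ R.D x c' ∧ x ≠ c'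
              · obtain ⟨x, hx1, hx2, hx3, hx4⟩ := hex
                obtain ⟨w, h1, h2, _, h3, h4⟩ := sep_anc hsep hx1 hc' hx3 hx4
                exact ⟨w, h4, h1, R.D_trans hx2 h2, h3⟩
              · have hcons : ∀ x, 11 ≤ (nb R x).card → x ≠ c' → x ≠ c → SameC R x c' c := by
                  intro x hx hxc' hxc
                  by_cases h1 : R.D x c'
                  · rcases R.D_total hDc' h1 with h2 | h2
                    · exact absurd ⟨x, hx, h2, h1, hxc'⟩ hex
                    · rcases R.D_step h2 with h3 | h3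
                      · exact absurd ⟨x, hx, by rw [h3]; exact R.D_refl _, h1, hxc'⟩ hex
                      · rw [hq] at h3
                        by_cases hxq : x = R.par^[j] c
                        · exact absurd (hchain x hx (hxq ▸ R.D_refl _)
                            (R.D_trans h3 (hDkc j))) hxc
                        · obtain ⟨y, hy1, hy2, hy3⟩ := R.exists_child h3 (Ne.symm hxq)
                          exact Or.inr ⟨y, hy1, hy2, R.D_trans hy3 (R.D_trans hDq hDc'),
                            R.D_trans hy3 (hDkc j)⟩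
                  · refine Or.inl ⟨h1, fun h2 => ?_⟩
                    rcases R.D_total h2 (hDkc j) with h3 | h3
                    · exact h1 (R.D_trans h3 (R.D_trans hDq hDc'))
                    · exact hxc (hchain x hx h3 h2)
                rcases hsep_cases hsep hcc hc' hc10 hcons with
                  ⟨w, _, h2, h3, h4⟩ | ⟨w, h1, h2, h3, h4⟩
                · exfalso
                  rcases R.D_total h3 (hDkc j) with h6 | h6
                  · exact h2 (R.D_trans h6 (R.D_trans hDq hDc'))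
                  · exact hnogood j hj w h4 h6 h3
                · refine ⟨w, h1, h4, ?_, h3⟩
                  rcases R.D_total hDc' h3 with h6 | h6
                  · exact h6
                  · rcases R.D_step h6 with h7 | h7
                    · rw [h7]; exact R.D_refl _
                    · rw [hq] at h7; exact absurd (R.D_trans h7 (hDkc j)) h2
            refine ⟨hb'r, ?_, ?_, ?_⟩
            · intro y hy hpy hmem
              have key : y ≠ b := by
                rintro rfl
                rw [← hpy] at hb'B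
                exact R.not_D_par hbr (hBD _ hb'B)
              rcases mem_union.mp hmem with h | h
              · rcases mem_union.mp h with h5 | h5
                · have := hanc y h5
                  rw [hpy] at this; exact hb'S this
                · rcases hL y h5 with ⟨i, hi, h6⟩ | h6 | ⟨_, i, hi, h6⟩
                  · rw [h6, hsuc] at hpy
                    by_cases hik : i + 1 < k
                    · exact hK ⟨i + 1, hik, hpy.symm⟩
                    · have : i + 1 = k := by omega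
                      rw [this, hk] at hpy; exact hbb hpy.symm
                  · exact key h6
                  · rw [hpy] at h6; exact hK ⟨i, hi, h6⟩
              · exact key (hnN y hpy h)
            · by_contra hcon
              obtain ⟨w, hw1, _, h4, h5⟩ := hcase b' (by omega) (R.D_refl _)
              exact hw1 (R.D_antisymm h5 h4)
            · intro c' hc'10 hDc'
              obtain ⟨w, hw1, hw3, h4, h5⟩ := hcase c' hc'10 hDc'
              exact ⟨w, hw3, h4, h5, hw1⟩
  · refine ⟨fun x hx => mem_union_left _ (mem_union_left _ hx), ?_⟩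
    intro hsub
    exact hcS (hsub (mem_union_left _ (mem_union_right _ hcB)))
  · refine add_star R (mem_union_left _ hbS) hanc₁ ?_ d₁ kk hkk ?_
    · intro y hy
      obtain ⟨⟨h1, h2⟩, _⟩ := (hNm y).mp hy
      exact ⟨h1, h2, hNout y hy⟩
    · intro δ hδ
      obtain ⟨f, f3, fb, g1, g2⟩ := hroom δ hδ
      refine ⟨f, f3, fb, ?_⟩
      intro a ha hadj i
      rcases hadj with ⟨h1, h2⟩ | ⟨_, h2⟩
      · have hak : a = R.par^[i₁] c := by
          by_contra hne
          exact hNout a ((hNm a).mpr ⟨⟨h1, h2⟩, hne⟩) ha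
        rw [hak]
        exact g2 i
      · rw [← h2]
        exact g1 i

theorem main3 (R : Rt V) (h12 : ∀ v, (nb R v).card ≤ 12)
    (hroot : ∀ v, 11 ≤ (nb R v).card → 11 ≤ (nb R R.r).card)
    (hsep : Hsep R) :
    ∃ p, Draw R univ p := by
  classical
  have key : ∀ n : ℕ, ∀ S : Finset V, Sᶜ.card ≤ n → Inv3 R S → (∃ p, Draw R S p) →
      ∃ p, Draw R univ p := by
    intro n
    induction n with
    | zero =>
      intro S hS _ hd
      have : S = univ := by
        rw [← compl_eq_empty_iff, ← card_eq_zero]; omega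
      rw [← this]; exact hd
    | succ n ih =>
      intro S hS hI hd
      by_cases hu : S = univ
      · rw [← hu]; exact hd
      · suffices h : ∃ S', Inv3 R S' ∧ S ⊂ S' ∧ ∃ p, Draw R S' p by
          obtain ⟨S', h1, h2, h3⟩ := h
          refine ih S' ?_ h1 h3
          have := card_lt_card (compl_ssubset_compl.mpr h2)
          omega
        -- a vertex outside S of minimal depth
        have hne : (Sᶜ : Finset V).Nonempty := by
          rw [nonempty_iff_ne_empty]
          intro h; exact hu (compl_eq_empty_iff S |>.mp h)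
        obtain ⟨y, hy, hmin⟩ := exists_min_image (Sᶜ : Finset V) R.dep hne
        have hyS : y ∉ S := mem_compl.mp hy
        have hyr : y ≠ R.r := by
          rintro rfl; exact hyS hI.1
        have hbS : R.par y ∈ S := by
          by_contra hcon
          have := hmin _ (mem_compl.mpr hcon)
          have := R.dep_par y hyr
          omega
        have hb : Bd3 R S (R.par y) := by
          rcases hI.2.2 _ hbS with h | h
          · exact absurd (h y hyr rfl) hyS
          · exact h
        by_cases hcase : ∃ c, Sep3 R (R.par y) c ∧ 11 ≤ (nb R c).card ∧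
            R.D (R.par y) c ∧ ∀ w, Sep3 R w c → R.D (R.par y) w → R.D w c → w = R.par y
        · obtain ⟨c, h2, hc10, hDc, hns⟩ := hcase
          exact step2'' R h12 hsep hI hbS hb h2 hc10 hDc hns hd
        · refine step1'' R hI hbS hb ?_ hd y hyr rfl
          intro c hc10 hDc
          obtain ⟨w, hw2, h2, h3, h4⟩ := hb.2.2.2 c hc10 hDc
          by_cases hwb : w = R.par y
          · by_contra hcon
            refine hcase ⟨c, hwb ▸ hw2, hc10, hDc, ?_⟩
            intro w' hw'2 h2' h3'
            by_contra hne'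
            refine hcon ⟨w', hw'2, h2', h3', ?_, hne'⟩
            rintro rfl
            exact two_not_heavy hw'2.1 hc10
          · exact ⟨w, hw2, h2, h3, h4, hwb⟩
  obtain ⟨S, hI, hd⟩ := init3 R h12 hroot hsep
  exact key _ S le_rfl hI hd

end Pool.Agent.TD25
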