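import Pool.Agent.TD25.Main3

/-! # TD25, module Main4: the general form, with guards -/

set_option autoImplicit false

namespace Pool.Agent.TD25

open Finset Filter Topology

variable {V : Type*} [Fintype V] [DecidableEq V]

/-- Every vertex `c` other than the root, of degree at least 11, has a guard `σ c`: a proper
ancestor of `c`, not the root.  On the path from `σ c` (included) to `c` (excluded) all degrees are
at most 10 and there is no other guard, and `σ c` has degree at most 6 or all degrees on this path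
are at most 8. -/
def Grd (R : Rt V) (σ : V → V) : Prop :=
  ∀ c, 11 ≤ (nb R c).card → c ≠ R.r →
    σ c ≠ R.r ∧ σ c ≠ c ∧ R.D (σ c) c ∧
    (∀ x, R.D (σ c) x → R.D x c → x ≠ c → (nb R x).card ≤ 10) ∧
    (∀ c', 11 ≤ (nb R c').card → c' ≠ R.r → R.D (σ c) (σ c') → R.D (σ c') c → σ c' ≠ c →
      c' = c) ∧
    ((nb R (σ c)).card ≤ 6 ∨ ∀ x, R.D (σ c) x → R.D x c → x ≠ c → (nb R x).card ≤ 8)

/-- A boundary vertex. -/
def Bd4 (R : Rt V) (σ : V → V) (S : Finset V) (b : V) : Prop :=
  b ≠ R.r ∧ (∀ y, y ≠ R.r → R.par y = b → y ∉ S) ∧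
    ∀ c, 11 ≤ (nb R c).card → R.D b c → R.D b (σ c)

/-- The invariant. -/
def Inv4 (R : Rt V) (σ : V → V) (S : Finset V) : Prop :=
  R.r ∈ S ∧ (∀ x ∈ S, R.par x ∈ S) ∧
    ∀ b ∈ S, (∀ y, y ≠ R.r → R.par y = b → y ∈ S) ∨ Bd4 R σ S b

omit [Fintype V] [DecidableEq V] in
theorem not_D_root {R : Rt V} {b : V} (hbr : b ≠ R.r) {c : V} (h : R.D b c) : c ≠ R.r := by
  rintro rfl; exact hbr (R.D_antisymm h (R.root_D b))

/-- The start: the star of the root. -/
theorem init4 (R : Rt V) (σ : V → V) (h12 : ∀ v, (nb R v).card ≤ 12) (hg : Grd R σ) :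
    ∃ S, Inv4 R σ S ∧ ∃ p, Draw R S p := by
  have hch : ∀ y ∈ nb R R.r, y ≠ R.r ∧ R.par y = R.r := by
    intro y hy
    rcases mem_nb.mp hy with ⟨h, _⟩ | ⟨h, h'⟩
    · exact absurd rfl h
    · exact ⟨h, h'⟩
  have hDr : ∀ w, R.D w R.r → w = R.r := fun w hw => R.D_antisymm hw (R.root_D w)
  refine ⟨insert R.r (nb R R.r), ⟨mem_insert_self _ _, ?_, ?_⟩, ?_⟩
  · intro x hx
    rcases mem_insert.mp hx with h | h
    · rw [h, R.par_r]; exact mem_insert_self _ _
    · rw [(hch x h).2]; exact mem_insert_self _ _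
  · intro b hb
    rcases mem_insert.mp hb with h | h
    · left
      intro y hy hpy
      rw [h] at hpy
      exact mem_insert_of_mem (mem_nb.mpr (Or.inr ⟨hy, hpy⟩))
    · right
      obtain ⟨hbr, hpb⟩ := hch b h
      refine ⟨hbr, ?_, ?_⟩
      · intro y hy hpy hmem
        rcases mem_insert.mp hmem with h1 | h1
        · exact hy h1
        · rw [(hch y h1).2] at hpy; exact hbr hpy.symm
      · intro c hc hDc
        obtain ⟨h1, _, h3, _⟩ := hg c hc (not_D_root hbr hDc)
        rcases R.D_total hDc h3 with h4 | h4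
        · exact h4
        · rcases R.D_step h4 with h5 | h5
          · rw [h5]; exact R.D_refl b
          · rw [hpb] at h5; exact absurd (hDr _ h5) h1
  · obtain ⟨d, d0, d1, _⟩ := exists_twelve
    obtain ⟨g, hg⟩ := exists_inj (nb R R.r) 12 (h12 R.r)
    let p : V → E3 := fun y => if y = R.r then 0 else d (g y)
    have pn : ∀ y ∈ nb R R.r, p y = d (g y) := by
      intro y hy
      exact if_neg (hch y hy).1
    refine ⟨p, star R R.r (nb R R.r) (fun y hy => mem_nb.mp hy) p (if_pos rfl) ?_ ?_⟩
    · intro y hy; rw [pn y hy]; exact d0 _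
    · intro y hy y' hy' hne
      rw [pn y hy, pn y' hy']
      exact d1 _ _ (hg y hy y' hy' hne)

omit [DecidableEq V] in
/-- The degree of a boundary vertex. -/
theorem bd4_deg {R : Rt V} {σ : V → V} {S : Finset V} {b : V} (hg : Grd R σ)
    (hb : Bd4 R σ S b) : (nb R b).card ≤ 10 := by
  by_contra hcon
  obtain ⟨_, h2, h3, _⟩ := hg b (by omega) hb.1
  exact h2 (R.D_antisymm h3 (hb.2.2 b (by omega) (R.D_refl b)))

/-- Case 1: the children of `b`. -/
theorem step1_4 (R : Rt V) (σ : V → V) (hg : Grd R σ) {S : Finset V} {b : V} (hI : Inv4 R σ S) (hbS : b ∈ S) (hb : Bd4 R σ S b)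
    (hc : ∀ c, 11 ≤ (nb R c).card → R.D b c → σ c ≠ b)
    (hd : ∃ p, Draw R S p) (y₀ : V) (hy₀ : y₀ ≠ R.r) (hpy₀ : R.par y₀ = b) :
    ∃ S', Inv4 R σ S' ∧ S ⊂ S' ∧ ∃ p, Draw R S' p := by
  obtain ⟨hr, hanc, hbd⟩ := hI
  have h9 := bd4_deg hg hb
  obtain ⟨hbr, hno, hbg⟩ := hb
  obtain ⟨pA, dA⟩ := hd
  have hpb : R.par b ∈ nb R b := mem_nb.mpr (Or.inl ⟨hbr, rfl⟩)
  have hcN : ((nb R b).erase (R.par b)).card ≤ 9 := by
    rw [card_erase_of_mem hpb]; omega
  have hN := mem_children R hbr
  generalize hNN : (nb R b).erase (R.par b) = N at hcN hN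
  have hn0 : pA b - pA (R.par b) ≠ 0 :=
    sub_ne_zero.mpr (dA.1 b hbS _ (hanc b hbS) (R.par_ne hbr).symm)
  have hy₀N : y₀ ∈ N := (hN y₀).mpr ⟨hy₀, hpy₀⟩
  refine ⟨S ∪ insert b N, ⟨mem_union_left _ hr, ?_, ?_⟩, ?_, ?_⟩
  · intro x hx
    rcases mem_union.mp hx with h | h
    · exact mem_union_left _ (hanc x h)
    · rcases mem_insert.mp h with h1 | h1
      · rw [h1]; exact mem_union_left _ (hanc b hbS)
      · rw [((hN x).mp h1).2]; exact mem_union_left _ hbS
  · intro b' hb'
    by_cases hbb : b' = b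
    · left
      intro y hy hpy
      rw [hbb] at hpy
      exact mem_union_right _ (mem_insert_of_mem ((hN y).mpr ⟨hy, hpy⟩))
    · rcases mem_union.mp hb' with h | h
      · rcases hbd b' h with h1 | ⟨h1, h2, h3⟩
        · left; intro y hy hpy; exact mem_union_left _ (h1 y hy hpy)
        · right
          refine ⟨h1, ?_, h3⟩
          intro y hy hpy hmem
          rcases mem_union.mp hmem with h5 | h5
          · exact h2 y hy hpy h5
          · rcases mem_insert.mp h5 with h6 | h6
            · exact h2 y hy hpy (h6 ▸ hbS)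
            · rw [((hN y).mp h6).2] at hpy; exact hbb hpy.symm
      · have h1 : b' ∈ N := (mem_insert.mp h).resolve_left hbb
        obtain ⟨hb'r, hpb'⟩ := (hN b').mp h1
        right
        refine ⟨hb'r, ?_, ?_⟩
        · intro y hy hpy hmem
          rcases mem_union.mp hmem with h5 | h5
          · have := hanc y h5
            rw [hpy] at this
            exact hno b' hb'r hpb' this
          · rcases mem_insert.mp h5 with h6 | h6
            · rw [h6] at hpy
              have d1 := R.dep_par b hbr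
              have d2 := R.dep_par b' hb'r
              rw [hpy] at d1; rw [hpb'] at d2; omega
            · rw [((hN y).mp h6).2] at hpy; exact hbb hpy.symm
        · intro c hc10 hDc
          have hDbc : R.D b c := R.D_trans (hpb' ▸ R.D_par b') hDc
          have h2 := hbg c hc10 hDbc
          have h3 := hc c hc10 hDbc
          obtain ⟨_, _, h4, _⟩ := hg c hc10 (not_D_root hbr hDbc)
          rcases R.D_total hDc h4 with h6 | h6
          · exact h6
          · rcases R.D_step h6 with h7 | h7
            · rw [h7]; exact R.D_refl _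
            · rw [hpb'] at h7; exact absurd (R.D_antisymm h7 h2) h3
  · refine ⟨subset_union_left, ?_⟩
    intro hsub
    exact hno y₀ hy₀ hpy₀ (hsub (mem_union_right _ (mem_insert_of_mem hy₀N)))
  · refine add_star R hbS hanc ?_ dA 9 hcN ?_
    · intro y hy
      obtain ⟨h1, h2⟩ := (hN y).mp hy
      exact ⟨h1, h2, hno y h1 h2⟩
    · intro δ hδ
      obtain ⟨f, f1, f2, fb, _⟩ := exists_nine (pA b - pA (R.par b)) hn0 (δ / 2) (by linarith)
      refine ⟨f, f2, fun i => ⟨by linarith [(fb i).1], (fb i).2⟩, ?_⟩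
      intro a ha hadj i
      have hab : a = R.par b := by
        rcases hadj with ⟨h1, h2⟩ | ⟨_, h2⟩
        · exact absurd ha (hno a h1 h2)
        · exact h2.symm
      rw [hab]
      exact norm_grow2 _ _ hδ (f1 i) (fb i).1

/-- Case 2: the cluster of a vertex `c` of high degree with no other separator below `b`. -/
theorem step2_4 (R : Rt V) (σ : V → V) (h12 : ∀ v, (nb R v).card ≤ 12) (hg : Grd R σ)
    {S : Finset V} {b : V} (hI : Inv4 R σ S) (hbS : b ∈ S) (hb : Bd4 R σ S b)
    {c : V} (hc10 : 11 ≤ (nb R c).card) (hDbc : R.D b c) (hσ : σ c = b)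
    (hd : ∃ p, Draw R S p) :
    ∃ S', Inv4 R σ S' ∧ S ⊂ S' ∧ ∃ p, Draw R S' p := by
  classical
  obtain ⟨hr, hanc, hbd⟩ := hI
  obtain ⟨hbr, hno, hbg⟩ := hb
  obtain ⟨pA, dA⟩ := hd
  have honly := only_below hanc hno
  obtain ⟨_, hg2, _, hg4, hg5, hg6⟩ := hg c hc10 (not_D_root hbr hDbc)
  rw [hσ] at hg2 hg4 hg5 hg6
  have hcb : c ≠ b := hg2.symm
  have hDbr : ¬ R.D b R.r := fun h => hbr (R.D_antisymm h (R.root_D b))
  -- the minimal k
  obtain ⟨k, hk, hkmin⟩ : ∃ k, R.par^[k] c = b ∧ ∀ j < k, R.par^[j] c ≠ b :=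
    ⟨Nat.find hDbc, Nat.find_spec hDbc, fun j hj => Nat.find_min hDbc hj⟩
  have hk1 : 1 ≤ k := by
    rcases Nat.eq_zero_or_pos k with h | h
    · rw [h] at hk; exact absurd hk hcb
    · exact h
  have hDbk : ∀ j ≤ k, R.D b (R.par^[j] c) := fun j hj => hk ▸ D_iter R c hj
  have hDkc : ∀ j, R.D (R.par^[j] c) c := fun j => ⟨j, rfl⟩
  have hkr : ∀ j < k, R.par^[j] c ≠ R.r := by
    intro j hj h
    have := hDbk j hj.le
    rw [h] at this; exact hDbr this
  have hcr : c ≠ R.r := hkr 0 (by omega)
  have hkc : ∀ j, 0 < j → R.par^[j] c ≠ c := by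
    intro j hj h
    obtain ⟨i, rfl⟩ : ∃ i, j = i + 1 := ⟨j - 1, by omega⟩
    rw [Function.iterate_succ_apply] at h
    exact R.not_D_par hcr ⟨i, h⟩
  have hdeg : ∀ j, 0 < j → j < k → (nb R (R.par^[j] c)).card ≤ 10 := by
    intro j hj0 hjk
    exact hg4 _ (hDbk j hjk.le) (hDkc j) (hkc j hj0)
  -- the set B
  have hBD : ∀ z ∈ SS R c k, R.D b z := fun z hz => hk ▸ SS_D hz
  have hKB : ∀ j < k, R.par^[j] c ∈ SS R c k := fun j hj => mem_SS.mpr ⟨j, hj, Or.inl rfl⟩
  have hNB : ∀ j < k, ∀ x, R.Adj (R.par^[j] c) x → x ∈ SS R c k :=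
    fun j hj x hx => mem_SS.mpr ⟨j, hj, Or.inr hx⟩
  have hsuc : ∀ j, R.par (R.par^[j] c) = R.par^[j + 1] c :=
    fun j => (Function.iterate_succ_apply' _ _ _).symm
  obtain ⟨i₁, hi₁⟩ : ∃ i, k = i + 1 := ⟨k - 1, by omega⟩
  -- the child of b on the path
  have hq1 : R.par^[i₁] c ≠ R.r := hkr i₁ (by omega)
  have hq2 : R.par (R.par^[i₁] c) = b := by rw [hsuc, ← hi₁, hk]
  have hbB : b ∈ SS R c k := hNB i₁ (by omega) b (Or.inl ⟨hq1, hq2⟩)
  have hcB : c ∈ SS R c k := hKB 0 (by omega)
  have hcS : c ∉ S := fun h => hcb (honly c h hDbc)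
  have hq3 : ∀ x ∈ SS R c k, x ≠ b → R.D (R.par^[i₁] c) x := by
    intro x hx hxb
    rw [hi₁] at hx
    refine SS_D' hx ?_
    rw [← hi₁, hk]; exact hxb
  -- structure of B
  have hL : ∀ x ∈ SS R c k, (∃ j < k, x = R.par^[j] c) ∨ x = b ∨
      (x ≠ R.r ∧ ∃ j < k, R.par x = R.par^[j] c) := by
    intro x hx
    obtain ⟨j, hj, h | ⟨h, h'⟩ | ⟨h, h'⟩⟩ := mem_SS.mp hx
    · left; exact ⟨j, hj, h⟩
    · rw [hsuc] at h'
      by_cases hjk : j + 1 < k
      · left; exact ⟨j + 1, hjk, h'.symm⟩
      · right; left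
        have : j + 1 = k := by omega
        rw [← h', this, hk]
    · right; right; exact ⟨h, j, hj, h'⟩
  have hanc₁ : ∀ x ∈ S ∪ SS R c k, R.par x ∈ S ∪ SS R c k := by
    intro x hx
    rcases mem_union.mp hx with h | h
    · exact mem_union_left _ (hanc x h)
    · have hKp : ∀ j < k, R.par (R.par^[j] c) ∈ SS R c k := fun j hj =>
        hNB j hj _ (Or.inl ⟨hkr j hj, rfl⟩)
      rcases hL x h with ⟨j, hj, h1⟩ | h1 | ⟨_, j, hj, h1⟩
      · rw [h1]; exact mem_union_right _ (hKp j hj)
      · rw [h1]; exact mem_union_left _ (hanc b hbS)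
      · rw [h1]; exact mem_union_right _ (hKB j hj)
  -- the other children of b
  have hNm : ∀ y, y ∈ ((nb R b).erase (R.par b)).erase (R.par^[i₁] c) ↔
      (y ≠ R.r ∧ R.par y = b) ∧ y ≠ R.par^[i₁] c := by
    intro y
    rw [mem_erase, mem_children R hbr]
    exact and_comm
  have hpb : R.par b ∈ nb R b := mem_nb.mpr (Or.inl ⟨hbr, rfl⟩)
  have hcN : (((nb R b).erase (R.par b)).erase (R.par^[i₁] c)).card + 2 = (nb R b).card := by
    have h1 := card_erase_of_mem ((mem_children R hbr _).mpr ⟨hq1, hq2⟩)
    have h2 := card_erase_of_mem hpb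
    have h3 : 0 < ((nb R b).erase (R.par b)).card :=
      card_pos.mpr ⟨_, (mem_children R hbr _).mpr ⟨hq1, hq2⟩⟩
    omega
  generalize hNN : ((nb R b).erase (R.par b)).erase (R.par^[i₁] c) = N at hNm hcN
  -- the first gluing, with room for the other children of b
  obtain ⟨p₁, d₁, kk, hkk0, hkk, hroom⟩ : ∃ p₁, Draw R (S ∪ SS R c k) p₁ ∧
      ∃ (kk : ℕ) (_ : NeZero kk), N.card ≤ kk ∧ ∀ δ : ℝ, 0 < δ → ∃ f : Fin kk → E3,
        (∀ i j, i ≠ j → ‖f i‖ < ‖f i - f j‖) ∧ (∀ i, 0 < ‖f i‖ ∧ ‖f i‖ ≤ 2) ∧
        (∀ i, ‖p₁ b - p₁ (R.par b)‖ < ‖(p₁ b - p₁ (R.par b)) + δ • f i‖) ∧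
        (∀ i, ‖p₁ b - p₁ (R.par^[i₁] c)‖ < ‖(p₁ b - p₁ (R.par^[i₁] c)) + δ • f i‖) := by
    have hn1 : pA b - pA (R.par b) ≠ 0 :=
      sub_ne_zero.mpr (dA.1 b hbS _ (hanc b hbS) (R.par_ne hbr).symm)
    have hn0 : -(pA b - pA (R.par b)) ≠ 0 := neg_ne_zero.mpr hn1
    have hangle : ∀ (pB : V → E3) (m : E3) (Q : E3 ≃ₗᵢ[ℝ] E3) (t : ℝ), 0 < t →
        Ext (SS R c k) pB b m → Q m = t • (-(pA b - pA (R.par b))) → ∀ z ∈ SS R c k, z ≠ b →
        0 < inner ℝ (Q (pB z) - Q (pB b)) (pA b - pA (R.par b)) := by
      intro pB m Q t ht eB hQ z hz hzb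
      have h1 := eB z hz hzb
      rw [← Q.inner_map_map, hQ, map_sub, inner_smul_right, inner_neg_right] at h1
      by_contra hcon
      have h2 : 0 ≤ -inner ℝ (Q (pB z) - Q (pB b)) (pA b - pA (R.par b)) := by
        have := not_lt.mp hcon
        linarith
      have := mul_nonneg ht.le h2
      linarith
    have hm0 : ∀ (pB : V → E3) (m : E3), Ext (SS R c k) pB b m → m ≠ 0 := by
      rintro pB m eB rfl
      have := eB c hcB hcb
      rw [inner_zero_right] at this
      exact lt_irrefl _ this
    rcases hg6 with h6 | h8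
    · obtain ⟨pB, m, dB, eB⟩ := chain2 R c (h12 c) k hk1 hkr hdeg
      rw [hk] at eB
      obtain ⟨Q, t, ht, hQ⟩ := exists_rot m _ (hm0 pB m eB) hn0
      obtain ⟨p₁, d₁⟩ := glue_below R hbS hbB hanc honly hBD hbr dA (draw_map Q dB)
        (hangle pB m Q t ht eB hQ)
      refine ⟨p₁, d₁, 4, ⟨by norm_num⟩, by omega, ?_⟩
      intro δ hδ
      obtain ⟨f, f1, f2, f3, fb⟩ := exists_four (p₁ b - p₁ (R.par b)) (p₁ b - p₁ (R.par^[i₁] c))
      exact ⟨f, f3, fb, fun i => norm_grow3 _ _ hδ (f1 i) (fb i).1,
        fun i => norm_grow3 _ _ hδ (f2 i) (fb i).1⟩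
    · have hb8 : (nb R b).card ≤ 8 := h8 b (R.D_refl b) hDbc hcb.symm
      have hdeg8 : ∀ j, 0 < j → j < i₁ + 1 → (nb R (R.par^[j] c)).card ≤ 8 :=
        fun j hj0 hj => h8 _ (hDbk j (by omega)) (hDkc j) (hkc j hj0)
      obtain ⟨pB, dB, eB⟩ := chain8 R c (h12 c) i₁ (fun j hj => hkr j (by omega)) hdeg8
      rw [← hi₁, hk] at eB
      rw [← hi₁] at dB
      obtain ⟨Q, t, ht, hQ⟩ := exists_rot _ _ (hm0 pB _ eB) hn0
      obtain ⟨ε, hε, d₁⟩ := glue_below' R hbS hbB hanc honly hBD hbr dA (draw_map Q dB)
        (hangle pB _ Q t ht eB hQ)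
      have e1 : gl S b pA (fun x => Q (pB x)) ε b = pA b := gl_A hbS
      have e2 : gl S b pA (fun x => Q (pB x)) ε (R.par b) = pA (R.par b) := gl_A (hanc b hbS)
      have hqS : R.par^[i₁] c ∉ S := hno _ hq1 hq2
      have e3 : gl S b pA (fun x => Q (pB x)) ε (R.par^[i₁] c)
          = pA b + ε • (Q (pB (R.par^[i₁] c)) - Q (pB b)) := by
        unfold gl; rw [if_neg hqS]
      have e4 : pA b - (pA b + ε • (Q (pB (R.par^[i₁] c)) - Q (pB b)))
          = -((ε * t) • (pA b - pA (R.par b))) := by
        have h9 : Q (pB (R.par^[i₁] c)) - Q (pB b) = -(Q (pB b - pB (R.par^[i₁] c))) := by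
          rw [map_sub]; abel
        rw [h9, hQ, sub_add_cancel_left, smul_neg, neg_neg, smul_smul, smul_neg]
      refine ⟨_, d₁, 6, ⟨by norm_num⟩, by omega, ?_⟩
      intro δ hδ
      have hεt : 0 < ε * t := mul_pos hε ht
      obtain ⟨f, f1, f2, fb⟩ := exists_six (pA b - pA (R.par b)) hn1
        (min (δ / 2) (δ / 2 / (ε * t))) (lt_min (by linarith) (by positivity))
      refine ⟨f, f2, fun i => ⟨by linarith [(fb i).1], (fb i).2⟩, ?_, ?_⟩
      · intro i
        rw [e1, e2]
        refine norm_grow2 _ _ hδ ?_ (fb i).1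
        have h1 := (abs_lt.mp (f1 i)).1
        have h2 := min_le_left (δ / 2) (δ / 2 / (ε * t))
        linarith
      · intro i
        rw [e1, e3, e4]
        refine norm_grow2 _ _ hδ ?_ (fb i).1
        rw [inner_neg_right, inner_smul_right]
        have h1 := (abs_lt.mp (f1 i)).2
        have h2 := min_le_right (δ / 2) (δ / 2 / (ε * t))
        have h3 : inner ℝ (f i) (pA b - pA (R.par b)) < δ / 2 / (ε * t) := lt_of_lt_of_le h1 h2
        rw [lt_div_iff₀ hεt, mul_comm] at h3
        linarith
  have hNout : ∀ y ∈ N, y ∉ S ∪ SS R c k := by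
    intro y hy hmem
    obtain ⟨⟨h1, h2⟩, h3⟩ := (hNm y).mp hy
    rcases mem_union.mp hmem with h | h
    · exact hno y h1 h2 h
    · have hyb : y ≠ b := by
        rintro rfl; exact R.par_ne h1 h2
      rcases R.D_step (hq3 y h hyb) with h4 | h4
      · exact h3 h4.symm
      · rw [h2, ← hq2] at h4
        exact R.not_D_par hq1 h4
  refine ⟨S ∪ SS R c k ∪ insert b N, ⟨mem_union_left _ (mem_union_left _ hr), ?_, ?_⟩, ?_, ?_⟩
  · intro x hx
    rcases mem_union.mp hx with h | h
    · exact mem_union_left _ (hanc₁ x h)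
    · rcases mem_insert.mp h with h1 | h1
      · rw [h1]; exact mem_union_left _ (hanc₁ b (mem_union_left _ hbS))
      · rw [((hNm x).mp h1).1.2]; exact mem_union_left _ (mem_union_left _ hbS)
  · intro b' hb'
    by_cases hbb : b' = b
    · -- all children of b are drawn
      left
      intro y hy hpy
      rw [hbb] at hpy
      by_cases hyk : y = R.par^[i₁] c
      · rw [hyk]; exact mem_union_left _ (mem_union_right _ (hKB i₁ (by omega)))
      · exact mem_union_right _ (mem_insert_of_mem ((hNm y).mpr ⟨⟨hy, hpy⟩, hyk⟩))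
    · -- children of b' are not in insert b N
      have hnN : ∀ y, R.par y = b' → y ∈ insert b N → y = b := by
        intro y hpy hmem
        rcases mem_insert.mp hmem with h | h
        · exact h
        · exfalso
          rw [((hNm y).mp h).1.2] at hpy; exact hbb hpy.symm
      by_cases hK : ∃ j < k, b' = R.par^[j] c
      · left
        obtain ⟨j, hj, h⟩ := hK
        intro y hy hpy
        exact mem_union_left _ (mem_union_right _ (hNB j hj y (Or.inr ⟨hy, hpy.trans h⟩)))
      · by_cases hb'S : b' ∈ S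
        · rcases hbd b' hb'S with h1 | ⟨h1, h2, h3⟩
          · left; intro y hy hpy; exact mem_union_left _ (mem_union_left _ (h1 y hy hpy))
          · right
            refine ⟨h1, ?_, h3⟩
            intro y hy hpy hmem
            rcases mem_union.mp hmem with h | h
            · rcases mem_union.mp h with h5 | h5
              · exact h2 y hy hpy h5
              · rcases R.D_step (hBD y h5) with h6 | h6
                · exact h2 y hy hpy (h6 ▸ hbS)
                · rw [hpy] at h6; exact hbb (honly b' hb'S h6)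
            · exact h2 y hy hpy ((hnN y hpy h) ▸ hbS)
        · right
          by_cases hb'N : b' ∈ N
          · obtain ⟨⟨hb'r, hb'p⟩, hb'k⟩ := (hNm b').mp hb'N
            -- b' and the path child of b are different children of b
            have hnb'c : ¬ R.D b' c := by
              intro h
              have d1 := R.dep_par b' hb'r
              have d2 := R.dep_par _ hq1
              rw [hb'p] at d1; rw [hq2] at d2
              exact hb'k (R.D_eq_of_dep h (hDkc i₁) (by omega))
            refine ⟨hb'r, ?_, ?_⟩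
            · intro y hy hpy hmem
              rcases mem_union.mp hmem with h | h
              · have := hanc₁ y h
                rw [hpy] at this
                exact hNout b' hb'N this
              · have h5 := hnN y hpy h
                rw [h5] at hpy
                have d1 := R.dep_par b' hb'r
                have d2 := R.dep_par b hbr
                rw [hb'p] at d1; rw [hpy] at d2; omega
            · intro c' hc' hDc'
              have hDbc' : R.D b c' := R.D_trans (hb'p ▸ R.D_par b') hDc'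
              have h2 := hbg c' hc' hDbc'
              obtain ⟨_, _, h4, _⟩ := hg c' hc' (not_D_root hbr hDbc')
              rcases R.D_total hDc' h4 with h6 | h6
              · exact h6
              · rcases R.D_step h6 with h7 | h7
                · rw [h7]; exact R.D_refl _
                · exfalso
                  rw [hb'p] at h7
                  have h8 : σ c' = b := R.D_antisymm h7 h2
                  have h9 := hg5 c' hc' (not_D_root hbr hDbc') h2 (h8 ▸ hDbc) (h8 ▸ hcb.symm)
                  rw [h9] at hDc'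
                  exact hnb'c hDc'
          · have hb'B : b' ∈ SS R c k := by
              rcases mem_union.mp hb' with h | h
              · exact (mem_union.mp h).resolve_left hb'S
              · rcases mem_insert.mp h with h1 | h1
                · exact absurd h1 hbb
                · exact absurd h1 hb'N
            obtain ⟨hb'r, j, hj, hq⟩ : b' ≠ R.r ∧ ∃ j < k, R.par b' = R.par^[j] c := by
              rcases hL b' hb'B with h | h | h
              · exact absurd h hK
              · exact absurd h hbb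
              · exact h
            have hDq : R.D (R.par^[j] c) b' := hq ▸ R.D_par b'
            have hDbq : R.D b (R.par^[j] c) := hDbk j hj.le
            have hnb'c : ¬ R.D b' c := by
              rintro ⟨i, hi⟩
              rcases lt_or_ge i k with h | h
              · exact hK ⟨i, h, hi.symm⟩
              · have h1 : R.D b' b := by
                  have := D_iter R c h
                  rw [hi, hk] at this; exact this
                exact hbb (R.D_antisymm h1 (hBD b' hb'B))
            refine ⟨hb'r, ?_, ?_⟩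
            · intro y hy hpy hmem
              have key : y ≠ b := by
                rintro rfl
                rw [← hpy] at hb'B
                exact R.not_D_par hbr (hBD _ hb'B)
              rcases mem_union.mp hmem with h | h
              · rcases mem_union.mp h with h5 | h5
                · have := hanc y h5
                  rw [hpy] at this; exact hb'S this
                · rcases hL y h5 with ⟨i, hi, h6⟩ | h6 | ⟨_, i, hi, h6⟩
                  · rw [h6, hsuc] at hpy
                    by_cases hik : i + 1 < k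
                    · exact hK ⟨i + 1, hik, hpy.symm⟩
                    · have : i + 1 = k := by omega
                      rw [this, hk] at hpy; exact hbb hpy.symm
                  · exact key h6
                  · rw [hpy] at h6; exact hK ⟨i, hi, h6⟩
              · exact key (hnN y hpy h)
            · intro c' hc' hDc'
              have hDbc' : R.D b c' := R.D_trans (R.D_trans hDbq hDq) hDc'
              have h2 := hbg c' hc' hDbc'
              obtain ⟨_, h3, h4, h5, _⟩ := hg c' hc' (not_D_root hbr hDbc')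
              rcases R.D_total hDc' h4 with h6 | h6
              · exact h6
              · rcases R.D_step h6 with h7 | h7
                · rw [h7]; exact R.D_refl _
                · exfalso
                  rw [hq] at h7
                  have h8 : R.D (σ c') c := R.D_trans h7 (hDkc j)
                  by_cases h9 : σ c' = c
                  · have h10 := h5 (σ c') (R.D_refl _) h4 h3
                    rw [h9] at h10; omega
                  · have h10 := hg5 c' hc' (not_D_root hbr hDbc') h2 h8 h9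
                    rw [h10] at hDc'
                    exact hnb'c hDc'
  · refine ⟨fun x hx => mem_union_left _ (mem_union_left _ hx), ?_⟩
    intro hsub
    exact hcS (hsub (mem_union_left _ (mem_union_right _ hcB)))
  · refine add_star R (mem_union_left _ hbS) hanc₁ ?_ d₁ kk hkk ?_
    · intro y hy
      obtain ⟨⟨h1, h2⟩, _⟩ := (hNm y).mp hy
      exact ⟨h1, h2, hNout y hy⟩
    · intro δ hδ
      obtain ⟨f, f3, fb, g1, g2⟩ := hroom δ hδ
      refine ⟨f, f3, fb, ?_⟩
      intro a ha hadj i
      rcases hadj with ⟨h1, h2⟩ | ⟨_, h2⟩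
      · have hak : a = R.par^[i₁] c := by
          by_contra hne
          exact hNout a ((hNm a).mpr ⟨⟨h1, h2⟩, hne⟩) ha
        rw [hak]
        exact g2 i
      · rw [← h2]
        exact g1 i

theorem main4 (R : Rt V) (σ : V → V) (h12 : ∀ v, (nb R v).card ≤ 12) (hg : Grd R σ) :
    ∃ p, Draw R univ p := by
  classical
  have key : ∀ n : ℕ, ∀ S : Finset V, Sᶜ.card ≤ n → Inv4 R σ S → (∃ p, Draw R S p) →
      ∃ p, Draw R univ p := by
    intro n
    induction n with
    | zero =>
      intro S hS _ hd
      have : S = univ := by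
        rw [← compl_eq_empty_iff, ← card_eq_zero]; omega
      rw [← this]; exact hd
    | succ n ih =>
      intro S hS hI hd
      by_cases hu : S = univ
      · rw [← hu]; exact hd
      · suffices h : ∃ S', Inv4 R σ S' ∧ S ⊂ S' ∧ ∃ p, Draw R S' p by
          obtain ⟨S', h1, h2, h3⟩ := h
          refine ih S' ?_ h1 h3
          have := card_lt_card (compl_ssubset_compl.mpr h2)
          omega
        -- a vertex outside S of minimal depth
        have hne : (Sᶜ : Finset V).Nonempty := by
          rw [nonempty_iff_ne_empty]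
          intro h; exact hu (compl_eq_empty_iff S |>.mp h)
        obtain ⟨y, hy, hmin⟩ := exists_min_image (Sᶜ : Finset V) R.dep hne
        have hyS : y ∉ S := mem_compl.mp hy
        have hyr : y ≠ R.r := by
          rintro rfl; exact hyS hI.1
        have hbS : R.par y ∈ S := by
          by_contra hcon
          have := hmin _ (mem_compl.mpr hcon)
          have := R.dep_par y hyr
          omega
        have hb : Bd4 R σ S (R.par y) := by
          rcases hI.2.2 _ hbS with h | h
          · exact absurd (h y hyr rfl) hyS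
          · exact h
        by_cases hcase : ∃ c, 11 ≤ (nb R c).card ∧ R.D (R.par y) c ∧ σ c = R.par y
        · obtain ⟨c, hc10, hDc, hσ⟩ := hcase
          exact step2_4 R σ h12 hg hI hbS hb hc10 hDc hσ hd
        · refine step1_4 R σ hg hI hbS hb ?_ hd y hyr rfl
          intro c hc10 hDc hσ
          exact hcase ⟨c, hc10, hDc, hσ⟩
  obtain ⟨S, hI, hd⟩ := init4 R σ h12 hg
  exact key _ S le_rfl hI hd

end Pool.Agent.TD25
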