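import Pool.Agent.TD25.Defs

/-! # TD25, module Mst: strict drawings are minimum spanning trees -/

set_option autoImplicit false

namespace Pool.Agent.TD25

open Finset

variable {V : Type*} [Fintype V] [DecidableEq V]

/-- Length of an edge in a drawing. -/
noncomputable def len (p : V → E3) (e : Sym2 V) : ℝ :=
  Sym2.lift ⟨fun x y => dist (p x) (p y), fun x y => dist_comm (p x) (p y)⟩ e

omit [Fintype V] [DecidableEq V] in
theorem len_mk (p : V → E3) (x y : V) : len p s(x, y) = ‖p x - p y‖ := by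
  rw [← dist_eq_norm]
  rfl

omit [Fintype V] [DecidableEq V] in
theorem len_nonneg (p : V → E3) (e : Sym2 V) : 0 ≤ len p e := by
  induction e using Sym2.ind with
  | _ x y => rw [len_mk]; exact norm_nonneg _

omit [Fintype V] [DecidableEq V] in
/-- A breadth first parent function of a connected graph. -/
theorem exists_par' (r : V) (G : SimpleGraph V) (hG : G.Connected) :
    ∃ par' : V → V, ∀ v, v ≠ r → G.Adj v (par' v) ∧ G.dist (par' v) r + 1 = G.dist v r := by
  classical
  have key : ∀ v : V, ∃ w : V, v ≠ r → G.Adj v w ∧ G.dist w r + 1 = G.dist v r := by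
    intro v
    by_cases hv : v = r
    · exact ⟨v, fun h => absurd hv h⟩
    · obtain ⟨q, hq⟩ := hG.exists_walk_length_eq_dist v r
      cases q with
      | nil => exact absurd rfl hv
      | @cons _ w _ hadj q' =>
        refine ⟨w, fun _ => ⟨hadj, ?_⟩⟩
        have h1 : G.dist w r ≤ q'.length := SimpleGraph.dist_le q'
        have h2 : G.dist v r ≤ G.dist v w + G.dist w r := hG.dist_triangle
        have h3 : G.dist v w ≤ 1 := by
          have := SimpleGraph.dist_le (SimpleGraph.Walk.cons hadj SimpleGraph.Walk.nil)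
          simpa using this
        rw [SimpleGraph.Walk.length_cons] at hq
        omega
  choose f hf using key
  exact ⟨f, hf⟩

/-- **Matching of cuts and edges.** -/
theorem exists_sigma (R : Rt V) (par' : V → V) (dep' : V → ℕ)
    (hp : ∀ v, v ≠ R.r → dep' (par' v) + 1 = dep' v) :
    ∃ σ : {v : V // v ≠ R.r} → V, Function.Injective σ ∧ ∀ x, σ x ≠ R.r ∧
      ¬ (R.D x.1 (σ x) ↔ R.D x.1 (par' (σ x))) := by
  classical
  have hall := (Finset.all_card_le_biUnion_card_iff_exists_injective
    (fun x : {v : V // v ≠ R.r} => univ.filter (fun w : V => w ≠ R.r ∧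
      ¬ (R.D x.1 w ↔ R.D x.1 (par' w))))).1 ?_
  · obtain ⟨σ, h1, h2⟩ := hall
    refine ⟨σ, h1, fun x => ?_⟩
    have := h2 x
    simpa using this
  · intro X
    -- representatives
    have key : ∀ x ∈ X, ∃ v : V, (∀ y ∈ X, (R.D y.1 v ↔ R.D y.1 x.1)) ∧
        ∀ w : V, (∀ y ∈ X, (R.D y.1 w ↔ R.D y.1 x.1)) → dep' v ≤ dep' w := by
      intro x hx
      have hne : (univ.filter (fun v : V => ∀ y ∈ X, (R.D y.1 v ↔ R.D y.1 x.1))).Nonempty :=
        ⟨x.1, by simp⟩
      obtain ⟨v, hv, hmin⟩ := Finset.exists_min_image _ dep' hne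
      refine ⟨v, (mem_filter.1 hv).2, fun w hw => hmin w (mem_filter.2 ⟨mem_univ _, hw⟩)⟩
    have hne : Nonempty V := ⟨R.r⟩
    choose! g hg1 hg2 using key
    refine Finset.card_le_card_of_injOn g ?_ ?_
    · intro x hx
      have hx' : x ∈ X := hx
      have hgr : g x ≠ R.r := by
        intro h
        have h1 : R.D x.1 (g x) := (hg1 x hx' x hx').2 (R.D_refl _)
        rw [h] at h1
        have h2 := R.D_eq h1 (by rw [R.dep_r]; exact Nat.zero_le _)
        exact x.2 h2
      have h3 : ¬ ∀ y ∈ X, (R.D y.1 (par' (g x)) ↔ R.D y.1 x.1) := by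
        intro h
        have h4 := hg2 x hx' _ h
        have h5 := hp (g x) hgr
        omega
      push Not at h3
      obtain ⟨y, hy, hy2⟩ := h3
      simp only [Finset.coe_biUnion, Set.mem_iUnion, Finset.mem_coe, mem_filter, mem_univ,
        true_and]
      refine ⟨y, hy, hgr, ?_⟩
      have h6 := hg1 x hx' y hy
      tauto
    · intro x hx x' hx' h
      have hx1 : x ∈ X := hx
      have hx2 : x' ∈ X := hx'
      have h1 : R.D x.1 x'.1 := by
        rw [← hg1 x' hx2 x hx1, ← h]
        exact (hg1 x hx1 x hx1).2 (R.D_refl _)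
      have h2 : R.D x'.1 x.1 := by
        rw [← hg1 x hx1 x' hx2, h]
        exact (hg1 x' hx2 x' hx2).2 (R.D_refl _)
      exact Subtype.ext (R.D_antisymm h1 h2)

open Classical in
/-- **Minimality.**  Take a parent function `par'`, `dep'` for the connected graph `G` and the
root `r` (distances in `G`): `G.Adj v (par' v)` and `dep' (par' v) + 1 = dep' v` for `v ≠ r`.
Hall's theorem gives an injective `σ` on the vertices `≠ r` such that the edge
`(σ v, par' (σ v))` is separated by the edge of `v` (exactly one of the two ends is a descendant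
of `v`). -/
theorem mst (R : Rt V) (p : V → E3) (h : Draw R univ p) (G : SimpleGraph V)
    (hG : G.Connected) :
    ∑ v ∈ univ.erase R.r, ‖p v - p (R.par v)‖ ≤ ∑ e ∈ G.edgeFinset, len p e := by
  obtain ⟨par', hpar⟩ := exists_par' R.r G hG
  obtain ⟨σ, hσ, hσ2⟩ := exists_sigma R par' (fun v => G.dist v R.r) (fun v hv => (hpar v hv).2)
  have h1 : ∀ x : {v : V // v ≠ R.r}, ‖p x.1 - p (R.par x.1)‖ ≤ len p s(σ x, par' (σ x)) := by
    intro x
    rw [len_mk]
    obtain ⟨hr, hx⟩ := hσ2 x
    by_cases hD : R.D x.1 (σ x)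
    · have hD' : ¬ R.D x.1 (par' (σ x)) := fun h' => hx ⟨fun _ => h', fun _ => hD⟩
      rcases h.2 x.1 (mem_univ _) x.2 (mem_univ _) (σ x) (mem_univ _) (par' (σ x)) (mem_univ _)
        hD hD' with h2 | ⟨h2, h3⟩
      · exact h2.le
      · rw [h3, h2]
    · have hD' : R.D x.1 (par' (σ x)) := by
        by_contra h'
        exact hx ⟨fun h'' => absurd h'' hD, fun h'' => absurd h'' h'⟩
      rcases h.2 x.1 (mem_univ _) x.2 (mem_univ _) (par' (σ x)) (mem_univ _) (σ x) (mem_univ _)
        hD' hD with h2 | ⟨h2, h3⟩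
      · rw [norm_sub_rev (p (σ x))]; exact h2.le
      · rw [norm_sub_rev (p (σ x)), h2, h3]
  have hinj : Function.Injective (fun x : {v : V // v ≠ R.r} => s(σ x, par' (σ x))) := by
    intro x y hxy
    simp only [Sym2.eq, Sym2.rel_iff', Prod.mk.injEq, Prod.swap_prod_mk] at hxy
    rcases hxy with ⟨h2, _⟩ | ⟨h2, h3⟩
    · exact hσ h2
    · exfalso
      have h4 := (hpar (σ x) (hσ2 x).1).2
      have h5 := (hpar (σ y) (hσ2 y).1).2
      rw [← h2] at h5
      rw [h3] at h4
      omega
  calc ∑ v ∈ univ.erase R.r, ‖p v - p (R.par v)‖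
      = ∑ x : {v : V // v ≠ R.r}, ‖p x.1 - p (R.par x.1)‖ := by
        refine (Finset.sum_subtype _ (fun v => ?_) (fun v => ‖p v - p (R.par v)‖))
        simp
    _ ≤ ∑ x : {v : V // v ≠ R.r}, len p s(σ x, par' (σ x)) := Finset.sum_le_sum fun x _ => h1 x
    _ = ∑ e ∈ univ.image (fun x : {v : V // v ≠ R.r} => s(σ x, par' (σ x))), len p e := by
        rw [Finset.sum_image]
        intro a _ b _ hab
        exact hinj hab
    _ ≤ ∑ e ∈ G.edgeFinset, len p e := by
        refine Finset.sum_le_sum_of_subset_of_nonneg ?_ (fun e _ _ => len_nonneg p e)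
        intro e he
        obtain ⟨x, _, rfl⟩ := mem_image.1 he
        rw [SimpleGraph.mem_edgeFinset, SimpleGraph.mem_edgeSet]
        exact (hpar (σ x) (hσ2 x).1).1

end Pool.Agent.TD25
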