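import Pool.Agent.TD25.Main3
import Pool.Agent.TD25.Bridge2

/-! # TD25, module Separated: not a hand-in, the earlier form, weaker than `GuardedHighDegrees`

Euclidean minimum spanning tree drawings in `ℝ³`: trees of maximum degree at most 12 in which any
two consecutive vertices of degree 11 or 12 are separated by a vertex of degree at most 6, or by a
path whose inner vertices have degree at most 8.
-/

set_option autoImplicit false

open Finset

namespace Pool.Agent.TD25.Separated

/-- The degree: the number of neighbours. -/
noncomputable def deg {V : Type*} (T : SimpleGraph V) (v : V) : ℕ := (T.neighborSet v).ncard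

/-- In a tree: `x` lies strictly between `u` and `v`. -/
def Between {V : Type*} (T : SimpleGraph V) (u v x : V) : Prop :=
  x ≠ u ∧ x ≠ v ∧ ∀ q : T.Walk u v, x ∈ q.support

/-- `u` and `v` lie in the same component of `T - w`. -/
def Joined {V : Type*} (T : SimpleGraph V) (w u v : V) : Prop := ∃ q : T.Walk u v, w ∉ q.support

open Classical in
/-- The total Euclidean length of the edges of `G` in the drawing `p`. -/
noncomputable def totalLength {V : Type*} [Fintype V] (p : V → EuclideanSpace ℝ (Fin 3))
    (G : SimpleGraph V) : ℝ :=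
  ∑ e ∈ G.edgeFinset, Sym2.lift ⟨fun x y => dist (p x) (p y), fun x y => dist_comm (p x) (p y)⟩ e

/-- `T` is realizable: there is an injective map `p` into `ℝ³` such that no spanning tree of the
points is shorter than `T`. -/
def Realizable {V : Type*} [Fintype V] (T : SimpleGraph V) : Prop :=
  ∃ p : V → EuclideanSpace ℝ (Fin 3), Function.Injective p ∧
    ∀ G : SimpleGraph V, G.IsTree → totalLength p T ≤ totalLength p G

/-- Let `T` be a finite tree of maximum degree at most 12 such that for any two distinct vertices
`u`, `v` of degree at least 11 with no other such vertex between them, some vertex `w` strictly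
between `u` and `v` satisfies: every vertex of degree at least 11 lies in the component of `u` or
of `v` of `T - w`, and `w` has degree at most 6 or all the vertices strictly between `u` and `v`
have degree at most 8.  Then `T` is realizable in `ℝ³`. -/
theorem separated {V : Type*} [Fintype V] (T : SimpleGraph V) (hT : T.IsTree)
    (h12 : ∀ v, deg T v ≤ 12)
    (hsep : ∀ u v, u ≠ v → 11 ≤ deg T u → 11 ≤ deg T v → (∀ x, Between T u v x → deg T x ≤ 10) →
      ∃ w, Between T u v w ∧ (∀ z, 11 ≤ deg T z → Joined T w z u ∨ Joined T w z v) ∧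
        (deg T w ≤ 6 ∨ ∀ x, Between T u v x → deg T x ≤ 8)) :
    Realizable T := by
  classical
  obtain ⟨r, hr⟩ : ∃ r, ∀ v, 11 ≤ deg T v → 11 ≤ deg T r := by
    by_cases hex : ∃ r, 11 ≤ deg T r
    · obtain ⟨r, hr⟩ := hex
      exact ⟨r, fun _ _ => hr⟩
    · obtain ⟨r⟩ := hT.connected.nonempty
      exact ⟨r, fun v hv => absurd ⟨v, hv⟩ hex⟩
  obtain ⟨R, hRr, hR⟩ := TD25.exists_rt T hT r
  have hn : ∀ v, (TD25.nb R v).card = deg T v := by
    intro v
    unfold deg
    rw [← Set.ncard_coe_finset]
    congr 1
    ext y
    rw [Finset.mem_coe, TD25.mem_nb, SimpleGraph.mem_neighborSet, hR]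
  have hroot : ∀ v, 11 ≤ (TD25.nb R v).card → 11 ≤ (TD25.nb R R.r).card := by
    intro v hv
    rw [hn] at hv ⊢
    rw [hRr]; exact hr v hv
  -- a vertex that does not keep `u` and `v` in one component is between them
  have hbet : ∀ u v x, x ≠ u → x ≠ v → ¬ TD25.SameC R x u v → Between T u v x := by
    intro u v x hxu hxv hx
    refine ⟨hxu, hxv, fun q => ?_⟩
    by_contra hq
    exact hx (TD25.sameC_of_walk T R hR q hq)
  obtain ⟨p, hd⟩ := TD25.main3 R (fun v => by rw [hn]; exact h12 v) hroot (by
    intro u v huv hu hv hcons
    rw [hn] at hu hv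
    have hcons' : ∀ x, Between T u v x → deg T x ≤ 10 := by
      rintro x ⟨hxu, hxv, hx⟩
      by_contra hcon
      obtain ⟨q, hq⟩ := TD25.walk_of_sameC T R hR
        (hcons x (by rw [hn]; omega) hxu hxv)
      exact hq (hx q)
    obtain ⟨w, ⟨hwu, hwv, hw⟩, hz, hw6⟩ := hsep u v huv hu hv hcons'
    have hw8 : deg T w ≤ 8 := by
      rcases hw6 with h | h
      · omega
      · exact h w ⟨hwu, hwv, hw⟩
    refine ⟨w, hwu, hwv, ?_, ?_, ?_⟩
    · have hr11 : 11 ≤ deg T R.r := by
        rw [hRr]; exact hr u hu
      have hrw : w ≠ R.r := by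
        rintro rfl; omega
      have hDr : ¬ R.D w R.r := fun h => hrw (R.D_antisymm h (R.root_D w))
      have hC : ∀ z, 11 ≤ deg T z → TD25.SameC R w z u ∨ TD25.SameC R w z v := by
        intro z h11
        rcases hz z h11 with ⟨q, hq⟩ | ⟨q, hq⟩
        · exact Or.inl (TD25.sameC_of_walk T R hR q hq)
        · exact Or.inr (TD25.sameC_of_walk T R hR q hq)
      have hrz : ∀ z, R.D w z → ¬ TD25.SameC R w R.r z := by
        rintro z hD (⟨_, h2⟩ | ⟨y, hy1, hy2, hy3, _⟩)
        · exact h2 hD
        · exact hDr (R.D_trans (hy2 ▸ R.D_par y) hy3)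
      intro z z' h11 h11' hD hD'
      rw [hn] at h11 h11'
      have hzz : TD25.SameC R w z z' := by
        rcases hC R.r hr11 with h | h
        · have hv1 : ∀ x, 11 ≤ deg T x → R.D w x → TD25.SameC R w x v := by
            intro x hx hDx
            rcases hC x hx with h1 | h1
            · exact absurd (TD25.sameC_trans h (TD25.sameC_symm h1)) (hrz x hDx)
            · exact h1
          exact TD25.sameC_trans (hv1 z h11 hD) (TD25.sameC_symm (hv1 z' h11' hD'))
        · have hv1 : ∀ x, 11 ≤ deg T x → R.D w x → TD25.SameC R w x u := by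
            intro x hx hDx
            rcases hC x hx with h1 | h1
            · exact h1
            · exact absurd (TD25.sameC_trans h (TD25.sameC_symm h1)) (hrz x hDx)
          exact TD25.sameC_trans (hv1 z h11 hD) (TD25.sameC_symm (hv1 z' h11' hD'))
      rcases hzz with ⟨h1, _⟩ | h1
      · exact absurd hD h1
      · exact h1
    · intro h
      obtain ⟨q, hq⟩ := TD25.walk_of_sameC T R hR h
      exact hq (hw q)
    · rcases hw6 with h | h
      · left; rw [hn]; exact h
      · right
        intro x hxu hxv hx
        rw [hn]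
        exact h x (hbet u v x hxu hxv hx))
  refine ⟨p, ?_, ?_⟩
  · intro x y hxy
    by_contra hne
    exact hd.1 x (mem_univ x) y (mem_univ y) hne hxy
  · intro G hG
    have h1 := TD25.mst R p hd G hG.connected
    have h2 := TD25.sum_tree T R hR p
    have h3 : totalLength p T = ∑ v ∈ univ.erase R.r, ‖p v - p (R.par v)‖ := by
      rw [← h2]
      unfold totalLength TD25.len
      congr!
    have h4 : totalLength p G = ∑ e ∈ G.edgeFinset, TD25.len p e := by
      unfold totalLength TD25.len
      congr!
    rw [h3, h4]
    refine h1.trans (le_of_eq ?_)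
    congr!

end Pool.Agent.TD25.Separated
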