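import Pool.Agent.Results.MP_7da257_lc.GuardedHighDegrees

/-!
# TD25, module Sparse: vertices of degree 11 and 12 at mutual distance at least 3

Not a hand-in: a special case of `GuardedHighDegrees`.
-/

set_option autoImplicit false

namespace Pool.Agent.TD25

open Results.MP_7da257_lc.GuardedHighDegrees

/-- Vertices of degree at least 11 at mutual distance at least 3 whose neighbours all have degree
at most 8. -/
theorem sparse {V : Type*} [Fintype V] (T : SimpleGraph V) (hT : T.IsTree)
    (h12 : ∀ v, deg T v ≤ 12)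
    (h3 : ∀ u v, u ≠ v → 11 ≤ deg T u → 11 ≤ deg T v → 3 ≤ T.dist u v)
    (h8 : ∀ u v, 11 ≤ deg T u → T.Adj u v → deg T v ≤ 8) : Realizable T := by
  classical
  obtain ⟨r, hr⟩ : ∃ r, ∀ v, 11 ≤ deg T v → 11 ≤ deg T r := by
    by_cases hex : ∃ r, 11 ≤ deg T r
    · obtain ⟨r, hr⟩ := hex
      exact ⟨r, fun _ _ => hr⟩
    · obtain ⟨r⟩ := hT.connected.nonempty
      exact ⟨r, fun v hv => absurd ⟨v, hv⟩ hex⟩
  obtain ⟨R, hRr, hR⟩ := exists_rt T hT r
  refine result T hT h12 r R.par ?_
  intro c hc hcr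
  have hcr' : c ≠ R.r := by rw [hRr]; exact hcr
  have hadj : T.Adj c (R.par c) := (hR _ _).mpr (Or.inl ⟨hcr', rfl⟩)
  have hpr : R.par c ≠ r := by
    intro h
    have h1 := h3 c r hcr hc (hr c hc)
    have h2 : T.Adj c r := h ▸ hadj
    rw [SimpleGraph.dist_eq_one_iff_adj.mpr h2] at h1
    omega
  have hpc : R.par c ≠ c := R.par_ne hcr'
  -- the segment from `par c` to `c` is the single vertex `par c`
  have hseg : ∀ x, Seg T (R.par c) c x → x = R.par c := by
    rintro x ⟨hx1, hx2⟩
    have h := hx2 hadj.symm.toWalk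
    simp only [SimpleGraph.Walk.support_cons, SimpleGraph.Walk.support_nil, List.mem_cons,
      List.not_mem_nil, or_false] at h
    rcases h with h | h
    · exact h
    · exact absurd h hx1
  refine ⟨hpr, ⟨hpc, fun q => ?_⟩, ?_, Or.inr ?_⟩
  · by_contra hq
    rcases sameC_of_walk T R hR q hq with ⟨_, h2⟩ | ⟨y, h1, h2, h4, _⟩
    · exact h2 (R.D_par c)
    · rw [← hRr] at h4
      have h5 := R.D_antisymm h4 (R.root_D y)
      exact h1 h5
  · intro x hx
    have hx' := hseg x hx
    refine ⟨by rw [hx']; exact (h8 c _ hc hadj).trans (by norm_num), ?_⟩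
    intro c' hc' hcr1 h5
    by_contra hne
    have h6 := h3 c' c hne hc' hc
    have hadj' : T.Adj c' (R.par c') := (hR _ _).mpr (Or.inl ⟨by rw [hRr]; exact hcr1, rfl⟩)
    rw [h5, hx'] at hadj'
    have h7 : T.dist c' c ≤ 2 := by
      have := SimpleGraph.dist_le (SimpleGraph.Walk.cons hadj' (SimpleGraph.Walk.cons hadj.symm
        SimpleGraph.Walk.nil))
      simpa using this
    omega
  · intro x hx
    rw [hseg x hx]; exact h8 c _ hc hadj

end Pool.Agent.TD25
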